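import Mathlib

/-! Walls on a finite set of frames: definitions and the statements of the block. -/

namespace Pool.Agent.Lib.MP_abd417_co.W

open Finset

open Classical in
/-- Indicator of a proposition. -/
noncomputable def ind (p : Prop) : ℝ := if p then 1 else 0

theorem ind_pos {p : Prop} (h : p) : ind p = 1 := by simp [ind, h]
theorem ind_neg {p : Prop} (h : ¬ p) : ind p = 0 := by simp [ind, h]
theorem ind_nonneg (p : Prop) : 0 ≤ ind p := by unfold ind; split_ifs <;> norm_num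
theorem ind_le_one (p : Prop) : ind p ≤ 1 := by unfold ind; split_ifs <;> norm_num
theorem ind_mono {p q : Prop} (h : p → q) : ind p ≤ ind q := by
  by_cases hp : p
  · rw [ind_pos hp, ind_pos (h hp)]
  · rw [ind_neg hp]; exact ind_nonneg q
theorem ind_congr {p q : Prop} (h : p ↔ q) : ind p = ind q := by rw [propext h]

variable {F V Wl : Type}

/-- Laminar family: two walls are nested or disjoint. -/
def Lam (S : Wl → Finset F) : Prop := ∀ a b, S a ⊆ S b ∨ S b ⊆ S a ∨ Disjoint (S a) (S b)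

/-- The wall `A` separates `g` from `h`. -/
def Sep (A : Finset F) (g h : F) : Prop := ¬ (g ∈ A ↔ h ∈ A)

/-- The star of axis `i` of `g` crosses the wall. -/
def Cross (u : Fin 3 → F → V) (A : Finset F) (i : Fin 3) (g : F) : Prop :=
  ∃ h, u i h = u i g ∧ Sep A g h

/-- Two axes of `g` cross the wall. -/
def Near (u : Fin 3 → F → V) (A : Finset F) (g : F) : Prop :=
  ∃ i j, i ≠ j ∧ Cross u A i g ∧ Cross u A j g

/-- No axis of `g` crosses the wall. -/
def NoCr (u : Fin 3 → F → V) (A : Finset F) (g : F) : Prop := ∀ i, ¬ Cross u A i g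

/-- Wall distance. -/
noncomputable def DT [Fintype Wl] (w : Wl → ℝ) (S : Wl → Finset F) (g h : F) : ℝ :=
  ∑ a, w a * ind (Sep (S a) g h)

/-- Weight of the walls to which `g` is near. -/
noncomputable def nearW [Fintype Wl] (u : Fin 3 → F → V) (w : Wl → ℝ) (S : Wl → Finset F)
    (g : F) : ℝ := ∑ a, w a * ind (Near u (S a) g)

/-- Mass of a set of frames. -/
noncomputable def ms [Fintype F] (nu : F → ℝ) (p : F → Prop) : ℝ := ∑ g, nu g * ind (p g)

/-- Variance of the side of a wall (values 1 and -1) under a probability law. -/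
noncomputable def vr [Fintype F] (nu : F → ℝ) (A : Finset F) : ℝ :=
  4 * ms nu (· ∈ A) * (1 - ms nu (· ∈ A))

/-- Law of a frame and a conditionally independent mate on axis `i`. -/
noncomputable def pr [Fintype F] (nu : F → ℝ) (u : Fin 3 → F → V) (i : Fin 3) (g h : F) : ℝ :=
  ind (u i h = u i g) * (nu g * nu h / ms nu (fun x => u i x = u i g))

/-- Sum over the axes of the mean of `L` over distinct mates. -/
noncomputable def EL [Fintype F] (nu : F → ℝ) (u : Fin 3 → F → V) (L : Fin 3 → F → F → ℝ) : ℝ :=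
  ∑ i, ∑ g, ∑ h, pr nu u i g h * (ind (g ≠ h) * L i g h)

/-- Mean over two independent samples. -/
noncomputable def E2 [Fintype F] (nu : F → ℝ) (f : F → F → ℝ) : ℝ :=
  ∑ g, ∑ x, nu g * nu x * f g x

/-- Property (c1) of step 6. -/
def C1 [Fintype Wl] (u : Fin 3 → F → V) (w : Wl → ℝ) (S : Wl → Finset F)
    (L : Fin 3 → F → F → ℝ) (err : F → F → ℝ) : Prop :=
  ∀ (i : Fin 3) (g g1 x : F) (B : Finset Wl), u i g1 = u i g → g ≠ g1 →
    (∀ a ∈ B, Sep (S a) g x ∧ ¬ Sep (S a) g g1 ∧ (∃ j, j ≠ i ∧ Cross u (S a) j g) ∧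
      ∃ j, j ≠ i ∧ Cross u (S a) j g1) →
    L i g g1 ≤ 4 * DT w S g g1 - 2 * ∑ a ∈ B, w a + err g x

/-- Step 7, the wall lemma at one virtual place. -/
def WallSt : Prop :=
  ∀ (F V Wl : Type) [Fintype F] [Fintype Wl] [DecidableEq Wl] (u : Fin 3 → F → V) (nu : F → ℝ)
    (w : Wl → ℝ) (S : Wl → Finset F) (L : Fin 3 → F → F → ℝ) (err : F → F → ℝ) (b de : ℝ)
    (G : Finset Wl), (∀ g, 0 ≤ nu g) → ∑ g, nu g = 1 → (∀ a, 0 ≤ w a) → Lam S →
    (∀ g x, 0 ≤ err g x) → C1 u w S L err → 0 ≤ b →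
    (∀ a ∈ G, b ≤ vr nu (S a) ∧
      ms nu (fun g => NoCr u (S a) g ∨ Near u (S a) g) ≤ b ^ 4 / 400) →
    (∀ i, ∑ g, pr nu u i g g ≤ de) →
    EL nu u L ≤ 2 * ∑ a ∈ Gᶜ, w a * vr nu (S a) + 16 * ∑ g, nu g * nearW u w S g
      - (b ^ 4 / 32 - 6 * de) * ∑ a ∈ G, w a + 6 * E2 nu err

/-- A system of walls for the distance `d` of one place, purely metric. `c` is the slack of the
reverse triangle inequality, `C` the constant of the system (zero at a finite place). -/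
structure MSys (F : Type) (d : F → F → ℝ) (c C : ℝ) where
  N : ℕ
  m : ℕ
  pos : 0 < N
  S : Fin N → Fin m → Finset F
  w : Fin N → Fin m → ℝ
  nr : Fin N → F → ℝ
  err : ℝ → Fin N → F → F → ℝ
  top : Fin N → F → ℝ → ℝ
  w_nonneg : ∀ t a, 0 ≤ w t a
  lam : ∀ t, Lam (S t)
  lo : ∀ t g h, d g h ≤ DT (w t) (S t) g h + C
  hi : ∀ g h, ∑ t, DT (w t) (S t) g h ≤ N * (d g h + C)
  nr_ge : ∀ t g, ∑ a, w t a * ind (∃ g1 g2, Sep (S t a) g g1 ∧ Sep (S t a) g g2 ∧
    d g1 g + d g g2 ≤ d g1 g2 + c) ≤ nr t g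
  nr1 : ∀ g, ∑ t, nr t g ≤ N * C
  nr2 : ∀ g, ∑ t, nr t g ^ 2 ≤ N * C
  err_nonneg : ∀ E t g x, 0 ≤ err E t g x
  err_avg : ∀ E, 0 ≤ E → ∀ g x,
    ∑ t, err E t g x ≤ N * (C * E + C + C * Real.exp (-E) * (d g x + C))
  chain : ∀ E, 0 ≤ E → ∀ t g x (B : Finset (Fin m)), (∀ a ∈ B, Sep (S t a) g x) →
    2 * ∑ a ∈ B, w t a ≤ err E t g x ∨ ∃ a ∈ B, ∀ h h1, Sep (S t a) g h → Sep (S t a) g h1 →
      2 * ∑ a ∈ B, w t a - err E t g x ≤ d g h + d g h1 - d h h1
  top_avg : ∀ y r, 0 ≤ r → ∑ t, top t y r ≤ N * ((C + 1) * (r + 1))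
  top_ge : ∀ t y g r, d y g ≤ r → DT (w t) (S t) y g ≤ top t y r

/-- Walls at an archimedean place. -/
def ArchSt : Prop :=
  ∀ c : ℝ, 0 ≤ c → ∃ C : ℝ, 0 ≤ C ∧ ∀ (F : Type) [Fintype F] (z : F → ℂ) (h : F → ℝ)
    (d : F → F → ℝ), (∀ g, 0 < h g) →
    (∀ a b, |d a b - Real.log (max ‖z a - z b‖ (max (h a) (h b)) ^ 2 / (h a * h b))| ≤ c) →
    Nonempty (MSys F d c C)

/-- Walls at a finite place. -/
def FinSt : Prop :=
  ∀ (F : Type) [Fintype F] (rho : F → F → ℝ) (h : F → ℝ) (d : F → F → ℝ), (∀ g, 0 < h g) →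
    (∀ a b, rho a b = rho b a) → (∀ a, rho a a = 0) → (∀ a b, 0 ≤ rho a b) →
    (∀ a b e, rho a e ≤ max (rho a b) (rho b e)) →
    (∀ a b, d a b = Real.log (max (rho a b) (max (h a) (h b)) ^ 2 / (h a * h b))) →
    Nonempty (MSys F d 0 0)

/-- The algebraic facts of step 3 at one place, in logarithmic form. -/
structure Alg (u : Fin 3 → F → V) (d : F → F → ℝ) (L : Fin 3 → F → F → ℝ) (c : ℝ) : Prop where
  symm : ∀ g h, d g h = d h g
  tri : ∀ g h k, d g k ≤ d g h + d h k + c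
  g1 : ∀ j k g g1 g2, j ≠ k → u j g1 = u j g → u k g2 = u k g → d g1 g + d g g2 ≤ d g1 g2 + c
  g0 : ∀ i g g1, u i g1 = u i g → g ≠ g1 → L i g g1 ≤ 4 * d g g1 + c
  g2 : ∀ i j k g g1 h h1, u i g1 = u i g → g ≠ g1 → j ≠ i → k ≠ i → u j h = u j g →
    u k h1 = u k g1 → L i g g1 + d g h + d g1 h1 ≤ 3 * d g g1 + d h h1 + c

end Pool.Agent.Lib.MP_abd417_co.W
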