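import Pool.Agent.Lib.MP_abd417_co.W.MkA
import Pool.Agent.Lib.MP_abd417_co.Up.Coord
import Pool.Agent.Lib.MP_abd417_co.Up.Conf

/-! Wall systems at every place of a configuration. -/

namespace Pool.Agent.Lib.MP_abd417_co.W

open Pool.Agent.Lib.MP_abd417_co.U.Alg Matrix

section field

variable {K : Type} [Field K] {F : Type}

theorem coords_log [CharZero K] {I : K} (hI : I ^ 2 = -1) {v : AbsoluteValue K ℝ} {ka : ℝ}
    (T : Tri v ka) (G : F → Fin 3 → Fin 3 → K) (hG : ∀ g, IsFr (G g)) :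
    ∃ (z : F → K) (h : F → ℝ), (∀ g, 0 < h g) ∧ ∀ a b,
      |dv v G a b - Real.log (max (v (z a - z b)) (max (h a) (h b)) ^ 2 / (h a * h b))| ≤
        8 * Real.log ka := by
  obtain ⟨z, h, hp, H⟩ := Up.Coord.coords (v := v) hI T.1 T.2
  have hk : 0 < ka := by linarith [T.1]
  have hl : 0 ≤ Real.log ka := Real.log_nonneg T.1
  refine ⟨fun a => z (G a), fun a => h (G a), fun a => hp _, fun a b => ?_⟩
  obtain ⟨H1, H2⟩ := H (G a) (G b) (hG a) (hG b)
  have hh : 0 < h (G a) * h (G b) := mul_pos (hp _) (hp _)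
  have hm : 0 < mx v (G a) (G b) := mx_pos T (hG a) (hG b)
  set M := max (v (z (G a) - z (G b))) (max (h (G a)) (h (G b))) with hM
  have hM0 : 0 < M := lt_of_lt_of_le (hp _) ((le_max_left _ _).trans (le_max_right _ _))
  have U1 : mx v (G a) (G b) ≤ ka ^ 7 * M ^ 2 / (h (G a) * h (G b)) :=
    mx_le fun i j => by rw [le_div_iff₀ hh]; exact H1 i j
  have U2 := H2 _ (le_mx (v := v) (G a) (G b))
  have L1 := Real.log_le_log hm U1
  have L2 := Real.log_le_log (pow_pos hM0 2) U2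
  rw [mul_div_assoc, Real.log_mul (by positivity) (by positivity), Real.log_pow] at L1
  rw [Real.log_mul (by positivity) (by positivity), Real.log_mul hm.ne' hh.ne',
    Real.log_pow ka] at L2
  have E : Real.log (M ^ 2 / (h (G a) * h (G b))) =
      Real.log (M ^ 2) - Real.log (h (G a) * h (G b)) := Real.log_div (by positivity) hh.ne'
  unfold dv
  push_cast at L1 L2
  rw [abs_le]
  constructor <;> linarith

theorem tri_one {v : AbsoluteValue K ℝ} (h : IsNonarchimedean v) : Tri v 1 :=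
  ⟨le_rfl, fun x y => by rw [one_mul]; exact h x y⟩

theorem msys_fin (hF : FinSt) [Fintype F] [CharZero K] {I : K} (hI : I ^ 2 = -1)
    {v : AbsoluteValue K ℝ} (hv : IsNonarchimedean v) (G : F → Fin 3 → Fin 3 → K)
    (hG : ∀ g, IsFr (G g)) : Nonempty (MSys F (dv v G) 0 0) := by
  obtain ⟨z, h, hp, H⟩ := coords_log hI (tri_one hv) G hG
  refine hF F (fun a b => v (z a - z b)) h _ hp (fun a b => v.map_sub _ _) (fun a => by simp)
    (fun a b => v.nonneg _) (fun a b e => ?_) (fun a b => ?_)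
  · have := hv (z a - z b) (z b - z e)
    rwa [sub_add_sub_cancel] at this
  · have := H a b
    rw [Real.log_one, mul_zero] at this
    exact sub_eq_zero.1 (abs_nonpos_iff.1 this)

theorem log_two_le : 8 * Real.log 2 ≤ 6 := by
  have := Real.log_two_lt_d9
  linarith

theorem msys_arch (hA : ArchSt) : ∃ C : ℝ, 0 ≤ C ∧ ∀ (K : Type) [Field K] [CharZero K] (I : K)
    (F : Type) [Fintype F] (v : AbsoluteValue K ℝ) (s : K →+* ℂ) (G : F → Fin 3 → Fin 3 → K),
    I ^ 2 = -1 → (∀ x, v x = ‖s x‖) → (∀ g, IsFr (G g)) → Nonempty (MSys F (dv v G) 6 C) := by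
  obtain ⟨C, hC, H⟩ := hA 6 (by norm_num)
  refine ⟨C, hC, fun K _ _ I F _ v s G hI hs hG => ?_⟩
  obtain ⟨z, h, hp, H1⟩ := coords_log hI (tri_two v) G hG
  refine H F (fun a => s (z a)) h _ hp fun a b => ?_
  have := H1 a b
  rw [hs, map_sub] at this
  exact this.trans log_two_le

theorem mx_eq (v : AbsoluteValue K ℝ) (g h : Fin 3 → Fin 3 → K) : Up.mx v g h = mx v g h := by
  apply le_antisymm
  · exact Finset.sup'_le _ _ fun p _ => le_mx g h p.1 p.2
  · exact mx_le fun i j =>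
      Finset.le_sup' (fun p : Fin 3 × Fin 3 => v (g p.1 ⬝ᵥ h p.2)) (Finset.mem_univ (i, j))

end field

open Up

theorem isFr (c : Conf) (g : c.Fr) : IsFr (c.fr g) := by
  intro i j
  split_ifs with h
  · subst h; exact c.unit _
  · exact c.orth g i j h

theorem d_eq (c : Conf) (p : c.Pl) : c.d p = dv (c.v p) c.fr := by
  funext g h
  unfold Conf.d dv
  rw [mx_eq]

theorem th_ne (c : Conf) (i : Fin 3) (g h : c.Fr) (e : c.ax i h = c.ax i g) (hne : g ≠ h) :
    c.th i g h ≠ 0 := by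
  have n1 : i ≠ i + 1 := ne_succ3 i
  obtain ⟨k, hk1, hk2, -⟩ := third n1
  have ef : c.fr h i = c.fr g i := by unfold Conf.fr; rw [e]
  have hd : c.ax (i + 1) g ≠ c.ax (i + 1) h := fun e2 => hne (c.lin g h i (i + 1) n1 e.symm e2)
  have h1 : (c.fr g (i + 1) ⬝ᵥ c.fr h (i + 1)) ^ 2 ≠ 1 := c.sep _ _ hd
  have h2 : (c.fr g (i + 1) ⬝ᵥ c.fr h k) ^ 2 ≠ 1 := c.sep _ _ (c.typ g h _ _ hk2)
  have B := (block (isFr c h) (isFr c g) ef.symm n1 hk1 hk2).1
  unfold Conf.th
  refine mul_ne_zero (fun h0 => h2 ?_) (sub_ne_zero.2 h1.symm)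
  rw [h0, zero_add] at B
  exact B

/-- One at an archimedean place, zero at a finite place. -/
def ar (c : Conf) (p : c.Pl) : ℝ := if c.arch p = true then 1 else 0

/-- Logarithm of the size of the invariant of two mates at the place `p`. -/
noncomputable def Lp (c : Conf) (p : c.Pl) (i : Fin 3) (g h : c.Fr) : ℝ :=
  Real.log (c.v p (c.th i g h))

theorem alg_conf (c : Conf) (p : c.Pl) : Alg c.ax (c.d p) (Lp c p) (6 * ar c p) := by
  rw [d_eq]
  have hu : ∀ i g g1, c.ax i g1 = c.ax i g → c.fr g1 i = c.fr g i := fun i g g1 e => by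
    unfold Conf.fr; rw [e]
  unfold ar
  split_ifs with h
  · refine (alg_of (tri_two (c.v p)) c.ax c.fr (isFr c) hu (th_ne c)).mono ?_
    have := log_two_le
    have := Real.log_nonneg (show (1 : ℝ) ≤ 2 by norm_num)
    linarith
  · refine (alg_of (tri_one (c.nonarch p (by simpa using h))) c.ax c.fr (isFr c) hu
      (th_ne c)).mono ?_
    simp

/-- Steps 5 and 6: a wall system at every place, with a universal constant. -/
theorem msys_conf (hA : ArchSt) (hF : FinSt) : ∃ C : ℝ, 0 ≤ C ∧ ∀ (c : Conf) (p : c.Pl),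
    Nonempty (MSys c.Fr (c.d p) (6 * ar c p) (C * ar c p)) := by
  obtain ⟨C, hC, H⟩ := msys_arch hA
  refine ⟨C, hC, fun c p => ?_⟩
  rw [d_eq]
  unfold ar
  split_ifs with h
  · obtain ⟨s, hs⟩ := c.isarch p h
    rw [mul_one, mul_one]
    exact H c.K c.I c.Fr (c.v p) s c.fr c.hI hs (isFr c)
  · rw [mul_zero, mul_zero]
    exact msys_fin hF c.hI (c.nonarch p (by simpa using h)) c.fr (isFr c)

end Pool.Agent.Lib.MP_abd417_co.W
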