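import Pool.Agent.Lib.MP_abd417_co.W.Nine

/-! Step 9 for a law with light balls, and the law of a heavy part of the uniform measure. -/

namespace Pool.Agent.Lib.MP_abd417_co.W

open Finset Pool.Agent.Lib.MP_abd417_co.Up

theorem ms_eq_ite {F : Type} [Fintype F] (nu : F → ℝ) (P : F → Prop) [DecidablePred P] :
    ms nu P = ∑ g, if P g then nu g else 0 := by
  refine sum_congr rfl fun h _ => ?_
  by_cases e : P h
  · rw [ind_pos e, if_pos e, mul_one]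
  · rw [ind_neg e, if_neg e, mul_zero]

/-- Spread of a law with light balls. -/
theorem spread_ball (c : Conf) (R : ℝ) (hR : 0 ≤ R) (hd : ∀ g h, 0 ≤ c.dist g h) (nu : c.Fr → ℝ)
    (h0 : ∀ g, 0 ≤ nu g) (h1 : ∑ g, nu g = 1)
    (hb : ∀ g, ms nu (fun x => c.dist g x ≤ R / 2) ≤ 1 / 2) :
    1 / 4 * R - 2 ≤ ∑ p, c.w p * E2 nu (c.d p) := by
  have := AbdUp.Asm.spread_law nu c.dist (R / 2) h0 h1 hd (by linarith) (fun g => by
    rw [← ms_eq_ite nu (fun x => c.dist g x ≤ R / 2)]; exact hb g)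
  have h2 := E2_dist c nu h1
  unfold E2 at h2 ⊢
  linarith

/-- Step 9 for a law with light balls. -/
theorem nine1 (al be K : ℝ) (hal : 0 < al) (hbe : 0 < be) (hK : 0 ≤ K) :
    ∃ L0 : ℝ, 0 ≤ L0 ∧ ∀ ga : ℝ, 0 < ga → ∃ c5 : ℝ, 0 < c5 ∧ ∀ (c : Conf) (R : ℝ), 0 ≤ R →
      (∀ g h, 0 ≤ c.dist g h) →
      (∀ i g h, c.ax i h = c.ax i g → g ≠ h →
        ∑ p, c.w p * Real.log (c.v p (c.th i g h)) = 0) →
      ∀ nu : c.Fr → ℝ, (∀ g, 0 ≤ nu g) → ∑ g, nu g = 1 →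
      (∀ g, ms nu (fun x => c.dist g x ≤ R / 2) ≤ 1 / 2) →
      ∀ (W Bad : c.Pl → ℝ) (fine : c.Pl → Prop), (∀ p, 0 ≤ W p) → (∀ p, 0 ≤ Bad p) →
      (∀ p, EL nu c.ax (fun i g h => Real.log (c.v p (c.th i g h))) ≤
        al * Bad p - be * W p + (if c.arch p = true then K else 0)) →
      (∀ p, E2 nu (c.d p) ≤ W p + al * Bad p + (if c.arch p = true then K else 0)) →
      (∀ p, c.arch p = true → W p ≤ L0 → Bad p ≤ ga →
        fine p ∨ EL nu c.ax (fun i g h => Real.log (c.v p (c.th i g h))) ≤ -1) →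
      c5 * R ≤ ∑ p, c.w p * Bad p + ∑ p, c.w p * ind (c.arch p = true ∧ fine p) := by
  classical
  refine ⟨2 * (K + 3) / be, by positivity, fun ga hga => ?_⟩
  obtain ⟨c5, hc5, H⟩ := AbdUp.Asm.numeric' al be (K + 2) (1 / 4) ga 1 0 (2 * (K + 3) / be) hal
    hbe (by linarith) (by norm_num) hga one_pos le_rfl (by linarith)
    (le_of_eq (by field_simp; ring))
  refine ⟨c5, hc5, fun c R hR hd hpf nu h0 h1 hb W Bad fine hW hB a1 a2 a3 => ?_⟩
  have := H c.Pl c.w (fun p => EL nu c.ax (fun i g h => Real.log (c.v p (c.th i g h))))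
    (fun p => E2 nu (c.d p)) W Bad (fun p => c.arch p = true) fine R (fun p => (c.wpos p).le) hW hB
    (by rw [← sum_filter]; exact c.wsum) (pf_EL c nu hpf).ge
    (by linarith [spread_ball c R hR hd nu h0 h1 hb])
    (fun p => by have := a1 p; split_ifs at this ⊢ <;> linarith)
    (fun p => by have := a2 p; split_ifs at this ⊢ <;> linarith) a3
  refine this.trans_eq ?_
  congr 1
  refine sum_congr rfl fun p _ => ?_
  by_cases e : c.arch p = true ∧ fine p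
  · rw [if_pos e, ind_pos e, mul_one]
  · rw [if_neg e, ind_neg e, mul_zero]

theorem pr_diag {F V : Type} [Fintype F] (nu : F → ℝ) (u : Fin 3 → F → V) (i : Fin 3) (g : F) :
    pr nu u i g g = nu g * nu g / ms nu (fun x => u i x = u i g) := by
  rw [pr, ind_pos rfl, one_mul]

/-- The law of a heavy part of the uniform measure: small diagonal and light balls. -/
theorem law_conf (k0 de : ℝ) (hk : 0 < k0) (hde : 0 < de) :
    ∃ n0 : ℕ, ∀ n : ℕ, n0 ≤ n → ∀ (c : Conf) (M R ka : ℝ), 1 ≤ M → k0 ≤ ka → c.Good n M R ka →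
      ∀ mu : c.Fr → ℝ, (∀ g, 0 ≤ mu g) → (∀ g, mu g ≤ 1 / (Fintype.card c.Fr : ℝ)) →
      (n : ℝ) ^ (-(ka / 2)) ≤ ∑ g, mu g → ∀ nu : c.Fr → ℝ, (∀ g, nu g = mu g / ∑ x, mu x) →
      0 < ∑ g, mu g ∧ (∀ g, 0 ≤ nu g) ∧ ∑ g, nu g = 1 ∧ (∀ i, ∑ g, pr nu c.ax i g g ≤ de) ∧
      ∀ g, ms nu (fun x => c.dist g x ≤ R / 2) ≤ 1 / 2 := by
  obtain ⟨n0, hn0⟩ := big_n k0 de hk hde
  refine ⟨n0, fun n hn c M R ka hM hka hG mu m0 m1 m2 nu hnu => ?_⟩
  obtain ⟨h1, h2, h3⟩ := hn0 n hn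
  have ht : (0 : ℝ) < (n : ℝ) ^ (-(ka / 2)) := Real.rpow_pos_of_pos (by exact_mod_cast h1) _
  obtain ⟨l0, l1, l2⟩ := law_of c.Fr mu _ ht m0 m1 m2
  obtain rfl : nu = fun g => mu g / ∑ x, mu x := funext hnu
  have h4 := h3 ka hka
  have hc := card_pos c hG h1
  refine ⟨lt_of_lt_of_le ht m2, l0, l1, fun i => (diag_conf c hG h1 hM (by linarith) _ l0
    (by linarith) l2 i).trans h2, fun g => ?_⟩
  rw [ms_eq_ite]
  set tau : ℝ := (n : ℝ) ^ (-(ka / 2)) with htau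
  calc ∑ h, (if c.dist g h ≤ R / 2 then mu h / ∑ x, mu x else 0)
      ≤ ∑ h, (if c.dist g h ≤ R / 2 then 1 / (tau * Fintype.card c.Fr) else 0) :=
        sum_le_sum fun h _ => by split_ifs <;> [exact l2 h; exact le_rfl]
    _ = (#{h : c.Fr | c.dist g h ≤ R / 2} : ℝ) * (1 / (tau * Fintype.card c.Fr)) := by
        rw [← sum_filter, sum_const, nsmul_eq_mul]
    _ ≤ (tau / 2 * Fintype.card c.Fr) * (1 / (tau * Fintype.card c.Fr)) :=
        mul_le_mul_of_nonneg_right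
          ((hG.light g).trans (mul_le_mul_of_nonneg_right h4 hc.le)) (by positivity)
    _ = 1 / 2 := by field_simp

end Pool.Agent.Lib.MP_abd417_co.W
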