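import Pool.Agent.Lib.MP_abd417_co.W.PlaceDefs

/-! One true place: the wall lemma averaged over the shifts. -/

namespace Pool.Agent.Lib.MP_abd417_co.W

open Finset

variable {F V : Type} [Fintype F]

namespace Pl

theorem ms_nonneg {nu : F → ℝ} (h0 : ∀ g, 0 ≤ nu g) (p : F → Prop) : 0 ≤ ms nu p :=
  sum_nonneg fun g _ => mul_nonneg (h0 g) (ind_nonneg _)

theorem ms_mono {nu : F → ℝ} (h0 : ∀ g, 0 ≤ nu g) {p q : F → Prop} (h : ∀ g, p g → q g) :
    ms nu p ≤ ms nu q :=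
  sum_le_sum fun g _ => mul_le_mul_of_nonneg_left (ind_mono (h g)) (h0 g)

theorem ms_split (nu : F → ℝ) (p q : F → Prop) :
    ms nu p = ms nu (fun g => p g ∧ q g) + ms nu (fun g => p g ∧ ¬ q g) := by
  unfold ms
  rw [← sum_add_distrib]
  refine sum_congr rfl fun g _ => ?_
  by_cases hp : p g
  · by_cases hq : q g
    · rw [ind_pos hp, ind_pos (p := p g ∧ q g) ⟨hp, hq⟩,
        ind_neg (p := p g ∧ ¬ q g) (fun h => h.2 hq)]; ring
    · rw [ind_pos hp, ind_neg (p := p g ∧ q g) (fun h => hq h.2),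
        ind_pos (p := p g ∧ ¬ q g) ⟨hp, hq⟩]; ring
  · rw [ind_neg hp, ind_neg (p := p g ∧ q g) (fun h => hp h.1),
      ind_neg (p := p g ∧ ¬ q g) (fun h => hp h.1)]; ring

theorem ms_compl {nu : F → ℝ} (h1 : ∑ g, nu g = 1) (p : F → Prop) :
    ms nu p + ms nu (fun g => ¬ p g) = 1 := by
  unfold ms
  rw [← sum_add_distrib, ← h1]
  refine sum_congr rfl fun g _ => ?_
  by_cases hp : p g
  · rw [ind_pos hp, ind_neg (p := ¬ p g) (fun h => h hp)]; ring
  · rw [ind_neg hp, ind_pos (p := ¬ p g) hp]; ring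

theorem ms_or_le {nu : F → ℝ} (h0 : ∀ g, 0 ≤ nu g) (p q : F → Prop) :
    ms nu (fun g => p g ∨ q g) ≤ ms nu p + ms nu q := by
  unfold ms
  rw [← sum_add_distrib]
  refine sum_le_sum fun g _ => ?_
  rw [← mul_add]
  refine mul_le_mul_of_nonneg_left ?_ (h0 g)
  have a1 := ind_nonneg (p g)
  have a2 := ind_nonneg (q g)
  have a3 := ind_le_one (p g ∨ q g)
  by_cases hp : p g
  · rw [ind_pos hp]; linarith
  · by_cases hq : q g
    · rw [ind_pos hq]; linarith
    · rw [ind_neg (p := p g ∨ q g) (fun h => h.elim hp hq)]; linarith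

theorem vr_le_one (nu : F → ℝ) (A : Finset F) : vr nu A ≤ 1 := by
  unfold vr; nlinarith [sq_nonneg (2 * ms nu (· ∈ A) - 1)]

theorem vr_nonneg {nu : F → ℝ} (h0 : ∀ g, 0 ≤ nu g) (h1 : ∑ g, nu g = 1) (A : Finset F) :
    0 ≤ vr nu A := by
  have a1 := ms_compl h1 (· ∈ A)
  have a2 := ms_nonneg h0 (· ∈ A)
  have a3 := ms_nonneg h0 (fun g => ¬ g ∈ A)
  unfold vr
  have : 0 ≤ 1 - ms nu (· ∈ A) := by linarith
  positivity

theorem bad_nonneg (u : Fin 3 → F → V) {nu : F → ℝ} (h0 : ∀ g, 0 ≤ nu g) (b ga : ℝ)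
    (A : Finset F) : 0 ≤ bad u nu b ga A := by
  unfold bad
  have a1 := ind_nonneg (BigBad u nu b ga A)
  have a2 := mul_nonneg (ind_nonneg (SmBad u nu b A (· ∈ A))) (ms_nonneg h0 (· ∈ A))
  have a3 := mul_nonneg (ind_nonneg (SmBad u nu b A (· ∉ A))) (ms_nonneg h0 (· ∉ A))
  linarith

/-- A small side is bad or dominated by near frames. -/
theorem side_le (u : Fin 3 → F → V) {nu : F → ℝ} (h0 : ∀ g, 0 ≤ nu g) (b : ℝ) (A : Finset F)
    (s : F → Prop) (hs : ms nu s < b) :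
    ms nu s ≤ ind (SmBad u nu b A s) * ms nu s + 2 * ms nu (Near u A) := by
  have n0 := ms_nonneg h0 (Near u A)
  by_cases h : SmBad u nu b A s
  · rw [ind_pos h]; linarith
  · rw [ind_neg h]
    have h2 : 2 * ms nu (fun g => s g ∧ ¬ Near u A g) < ms nu s := by
      by_contra hc
      exact h ⟨hs, not_lt.mp hc⟩
    have h3 := ms_split nu s (Near u A)
    have h4 : ms nu (fun g => s g ∧ Near u A g) ≤ ms nu (Near u A) := ms_mono h0 fun g h => h.2
    linarith

/-- A wall that is not good is bad or carries near mass. -/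
theorem vr_le_bad (u : Fin 3 → F → V) {nu : F → ℝ} (h0 : ∀ g, 0 ≤ nu g) (h1 : ∑ g, nu g = 1)
    {b ga : ℝ} (hga : 0 < ga) (hga2 : ga ≤ b ^ 4 / 800) (A : Finset F) (hA : ¬ Good u nu b A) :
    vr nu A ≤ 4 * bad u nu b ga A + (8 + 1 / ga) * ms nu (Near u A) := by
  have n0 := ms_nonneg h0 (Near u A)
  have a1 := ind_nonneg (BigBad u nu b ga A)
  have a2 := mul_nonneg (ind_nonneg (SmBad u nu b A (· ∈ A))) (ms_nonneg h0 (· ∈ A))
  have a3 := mul_nonneg (ind_nonneg (SmBad u nu b A (· ∉ A))) (ms_nonneg h0 (· ∉ A))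
  have g0 : 0 ≤ 1 / ga * ms nu (Near u A) := by positivity
  have v1 := vr_le_one nu A
  unfold bad
  by_cases hb : b ≤ vr nu A
  · have h2 : b ^ 4 / 400 < ms nu (fun g => NoCr u A g ∨ Near u A g) := by
      by_contra hc
      exact hA ⟨hb, not_lt.mp hc⟩
    have h3 := ms_or_le h0 (NoCr u A) (Near u A)
    by_cases hn : ms nu (Near u A) ≤ ga
    · have hB : BigBad u nu b ga A := ⟨hb, hn, by linarith⟩
      rw [ind_pos hB]
      linarith
    · have h4 : 1 ≤ 1 / ga * ms nu (Near u A) := by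
        rw [one_div, inv_mul_eq_div, le_div_iff₀ hga]; linarith
      linarith
  · have c1 : ms nu (· ∈ A) + ms nu (· ∉ A) = 1 := ms_compl h1 (· ∈ A)
    have p0 := ms_nonneg h0 (· ∈ A)
    have q0 := ms_nonneg h0 (· ∉ A)
    have hv : vr nu A = 4 * ms nu (· ∈ A) * ms nu (· ∉ A) := by
      unfold vr; rw [← c1]; ring
    have hb' := not_le.mp hb
    by_cases hp : ms nu (· ∈ A) ≤ 1 / 2
    · have e1 : ms nu (· ∈ A) < b := by nlinarith
      have e2 := side_le u h0 b A (· ∈ A) e1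
      have e3 : vr nu A ≤ 4 * ms nu (· ∈ A) := by nlinarith
      linarith
    · have hq : ms nu (· ∉ A) ≤ 1 / 2 := by linarith
      have e1 : ms nu (· ∉ A) < b := by nlinarith
      have e2 := side_le u h0 b A (· ∉ A) e1
      have e3 : vr nu A ≤ 4 * ms nu (· ∉ A) := by nlinarith
      linarith

omit [Fintype F] in
theorem ind_sep (A : Finset F) (g x : F) :
    ind (Sep A g x) = ind (g ∈ A) + ind (x ∈ A) - 2 * (ind (g ∈ A) * ind (x ∈ A)) := by
  unfold Sep
  by_cases hg : g ∈ A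
  · by_cases hx : x ∈ A
    · rw [ind_pos hg, ind_pos hx, ind_neg (by simp [hg, hx])]; ring
    · rw [ind_pos hg, ind_neg hx, ind_pos (by simp [hg, hx])]; ring
  · by_cases hx : x ∈ A
    · rw [ind_neg hg, ind_pos hx, ind_pos (by simp [hg, hx])]; ring
    · rw [ind_neg hg, ind_neg hx, ind_neg (by simp [hg, hx])]; ring

theorem E2_sep {nu : F → ℝ} (h1 : ∑ g, nu g = 1) (A : Finset F) :
    E2 nu (fun g x => ind (Sep A g x)) = vr nu A / 2 := by
  unfold E2 vr
  have e : ∀ g, ∑ x, nu g * nu x * ind (Sep A g x)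
      = nu g * ind (g ∈ A) * (1 - 2 * ms nu (· ∈ A)) + nu g * ms nu (· ∈ A) := by
    intro g
    have : ∀ x, nu g * nu x * ind (Sep A g x) = nu g * ind (g ∈ A) * nu x
        + (nu g - 2 * (nu g * ind (g ∈ A))) * (nu x * ind (x ∈ A)) := by
      intro x; rw [ind_sep]; ring
    rw [sum_congr rfl fun x _ => this x, sum_add_distrib, ← mul_sum, ← mul_sum, h1]
    unfold ms; ring
  rw [sum_congr rfl fun g _ => e g, sum_add_distrib, ← sum_mul, ← sum_mul, h1]
  unfold ms; ring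

theorem E2_sum {I : Type} [Fintype I] (nu : F → ℝ) (f : I → F → F → ℝ) :
    E2 nu (fun g x => ∑ a, f a g x) = ∑ a, E2 nu (f a) := by
  unfold E2
  simp only [mul_sum]
  rw [sum_congr rfl fun g _ => sum_comm, sum_comm]

theorem E2_mul (nu : F → ℝ) (r : ℝ) (f : F → F → ℝ) :
    E2 nu (fun g x => r * f g x) = r * E2 nu f := by
  unfold E2
  simp only [mul_sum]
  exact sum_congr rfl fun g _ => sum_congr rfl fun x _ => by ring

theorem E2_add_const {nu : F → ℝ} (h1 : ∑ g, nu g = 1) (f : F → F → ℝ) (r : ℝ) :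
    E2 nu (fun g x => f g x + r) = E2 nu f + r := by
  unfold E2
  have e : ∀ g, ∑ x, nu g * nu x * (f g x + r) = ∑ x, nu g * nu x * f g x + nu g * r := by
    intro g
    have : ∀ x, nu g * nu x * (f g x + r) = nu g * nu x * f g x + nu g * r * nu x := by
      intro x; ring
    rw [sum_congr rfl fun x _ => this x, sum_add_distrib, ← mul_sum _ _ (nu g * r), h1, mul_one]
  rw [sum_congr rfl fun g _ => e g, sum_add_distrib, ← sum_mul, h1, one_mul]

theorem E2_mono {nu : F → ℝ} (h0 : ∀ g, 0 ≤ nu g) {f k : F → F → ℝ} (h : ∀ g x, f g x ≤ k g x) :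
    E2 nu f ≤ E2 nu k :=
  sum_le_sum fun g _ => sum_le_sum fun x _ =>
    mul_le_mul_of_nonneg_left (h g x) (mul_nonneg (h0 g) (h0 x))

theorem E2_DT {Wl : Type} [Fintype Wl] {nu : F → ℝ} (h1 : ∑ g, nu g = 1) (w : Wl → ℝ)
    (S : Wl → Finset F) : E2 nu (DT w S) = (∑ a, w a * vr nu (S a)) / 2 := by
  have e : E2 nu (DT w S) = E2 nu (fun g x => ∑ a, w a * ind (Sep (S a) g x)) := rfl
  rw [e, E2_sum nu (fun a g x => w a * ind (Sep (S a) g x)), sum_div]
  refine sum_congr rfl fun a _ => ?_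
  rw [E2_mul nu (w a) (fun g x => ind (Sep (S a) g x)), E2_sep h1]; ring

theorem sum_near {Wl : Type} [Fintype Wl] (u : Fin 3 → F → V) (nu : F → ℝ) (w : Wl → ℝ)
    (S : Wl → Finset F) :
    ∑ a, w a * ms nu (Near u (S a)) = ∑ g, nu g * nearW u w S g := by
  unfold ms nearW
  simp only [mul_sum]
  rw [sum_comm]
  exact sum_congr rfl fun g _ => sum_congr rfl fun a _ => by ring

variable {u : Fin 3 → F → V} {d : F → F → ℝ} {L : Fin 3 → F → F → ℝ} {c C : ℝ}

omit [Fintype F] in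
/-- The near weight is bounded by the majorant of the wall system. -/
theorem nearW_le_nr (A : Alg u d L c) (M : MSys F d c C) (t : Fin M.N) (g : F) :
    nearW u (M.w t) (M.S t) g ≤ M.nr t g := by
  refine le_trans ?_ (M.nr_ge t g)
  refine sum_le_sum fun a _ => mul_le_mul_of_nonneg_left (ind_mono ?_) (M.w_nonneg t a)
  rintro ⟨i, j, hij, ⟨g1, e1, s1⟩, ⟨g2, e2, s2⟩⟩
  exact ⟨g1, g2, s1, s2, A.g1 i j g g1 g2 hij e1 e2⟩

omit [Fintype F] in
/-- Property (c1) for each shift. -/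
theorem c1_of (A : Alg u d L c) (M : MSys F d c C) (hc : 0 ≤ c) {E : ℝ} (hE : 0 ≤ E)
    (t : Fin M.N) :
    C1 u (M.w t) (M.S t) L (fun g x => M.err E t g x + (4 * C + 2 * c)) := by
  intro i g g1 x B hu hne hB
  have lo := M.lo t g g1
  rcases M.chain E hE t g x B (fun a ha => (hB a ha).1) with h | ⟨a, ha, h⟩
  · have := A.g0 i g g1 hu hne
    show L i g g1 ≤ _ - _ + (M.err E t g x + (4 * C + 2 * c))
    linarith
  · obtain ⟨_, hns, ⟨j, hj, h0, e0, s0⟩, ⟨k, hk, h1, e1, s1⟩⟩ := hB a ha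
    have s2 : Sep (M.S t a) g h1 := by
      unfold Sep at hns s1 ⊢
      tauto
    have a1 := h h0 h1 s0 s2
    have a2 := A.g2 i j k g g1 h0 h1 hu hne hj hk e0 e1
    have a3 := A.tri g g1 h1
    show L i g g1 ≤ _ - _ + (M.err E t g x + (4 * C + 2 * c))
    linarith

/-- Variance weight of the walls that are not good, one shift. -/
theorem sum_not_good {Wl : Type} [Fintype Wl] [DecidableEq Wl] (u : Fin 3 → F → V) {nu : F → ℝ}
    (h0 : ∀ g, 0 ≤ nu g) (h1 : ∑ g, nu g = 1) {b ga : ℝ} (hga : 0 < ga) (hga2 : ga ≤ b ^ 4 / 800)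
    (w : Wl → ℝ) (hw : ∀ a, 0 ≤ w a) (S : Wl → Finset F) (G : Finset Wl)
    (hG : ∀ a, a ∈ G ↔ Good u nu b (S a)) :
    ∑ a ∈ Gᶜ, w a * vr nu (S a) ≤ 4 * ∑ a, w a * bad u nu b ga (S a)
      + (8 + 1 / ga) * ∑ g, nu g * nearW u w S g := by
  rw [← sum_near, mul_sum, mul_sum, ← sum_add_distrib]
  have hnn : ∀ a, 0 ≤ 4 * (w a * bad u nu b ga (S a))
      + (8 + 1 / ga) * (w a * ms nu (Near u (S a))) := fun a => by
    have a1 := bad_nonneg u h0 b ga (S a)
    have a2 := ms_nonneg h0 (Near u (S a))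
    have a3 := hw a
    positivity
  refine le_trans (sum_le_sum fun a ha => ?_)
    (sum_le_sum_of_subset_of_nonneg (subset_univ Gᶜ) fun a _ _ => hnn a)
  have hng : ¬ Good u nu b (S a) := fun h => (mem_compl.mp ha) ((hG a).mpr h)
  have := mul_le_mul_of_nonneg_left (vr_le_bad u h0 h1 hga hga2 (S a) hng) (hw a)
  linarith

theorem sum_good {Wl : Type} [Fintype Wl] [DecidableEq Wl] (p : Wl → Prop) (w : Wl → ℝ)
    (G : Finset Wl) (hG : ∀ a, a ∈ G ↔ p a) : ∑ a ∈ G, w a = ∑ a, w a * ind (p a) := by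
  rw [← sum_add_sum_compl G]
  have e1 : ∑ a ∈ G, w a * ind (p a) = ∑ a ∈ G, w a :=
    sum_congr rfl fun a ha => by rw [ind_pos ((hG a).mp ha), mul_one]
  have e2 : ∑ a ∈ Gᶜ, w a * ind (p a) = 0 :=
    sum_eq_zero fun a ha => by
      rw [ind_neg (fun h => (mem_compl.mp ha) ((hG a).mpr h)), mul_zero]
  rw [e1, e2, add_zero]

/-- Total variance weight at one shift. -/
theorem sum_vr_le {Wl : Type} [Fintype Wl] (u : Fin 3 → F → V) {nu : F → ℝ}
    (h0 : ∀ g, 0 ≤ nu g) (h1 : ∑ g, nu g = 1) {b ga : ℝ} (hga : 0 < ga) (hga2 : ga ≤ b ^ 4 / 800)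
    (w : Wl → ℝ) (hw : ∀ a, 0 ≤ w a) (S : Wl → Finset F) :
    ∑ a, w a * vr nu (S a) ≤ ∑ a, w a * ind (Good u nu b (S a))
      + 4 * ∑ a, w a * bad u nu b ga (S a) + (8 + 1 / ga) * ∑ g, nu g * nearW u w S g := by
  classical
  have hG : ∀ a, a ∈ univ.filter (fun a => Good u nu b (S a)) ↔ Good u nu b (S a) := by simp
  have a1 := sum_not_good u h0 h1 hga hga2 w hw S _ hG
  have a2 := sum_good (fun a => Good u nu b (S a)) w _ hG
  have a3 : ∑ a ∈ univ.filter (fun a => Good u nu b (S a)), w a * vr nu (S a)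
      ≤ ∑ a ∈ univ.filter (fun a => Good u nu b (S a)), w a :=
    sum_le_sum fun a _ => by
      have := mul_le_mul_of_nonneg_left (vr_le_one nu (S a)) (hw a)
      linarith
  rw [← sum_add_sum_compl (univ.filter (fun a => Good u nu b (S a)))]
  linarith

theorem W_nonneg (M : MSys F d c C) (u : Fin 3 → F → V) (nu : F → ℝ) (b : ℝ) :
    0 ≤ M.W u nu b :=
  div_nonneg (sum_nonneg fun t _ => sum_nonneg fun a _ =>
    mul_nonneg (M.w_nonneg t a) (ind_nonneg _)) (Nat.cast_nonneg _)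

theorem Bad_nonneg (M : MSys F d c C) (u : Fin 3 → F → V) {nu : F → ℝ} (h0 : ∀ g, 0 ≤ nu g)
    (b ga : ℝ) : 0 ≤ M.Bad u nu b ga :=
  div_nonneg (sum_nonneg fun t _ => sum_nonneg fun a _ =>
    mul_nonneg (M.w_nonneg t a) (bad_nonneg u h0 b ga _)) (Nat.cast_nonneg _)

/-- Mean near weight, summed over the shifts. -/
theorem near_avg (A : Alg u d L c) (M : MSys F d c C) {nu : F → ℝ} (h0 : ∀ g, 0 ≤ nu g)
    (h1 : ∑ g, nu g = 1) : ∑ t, ∑ g, nu g * nearW u (M.w t) (M.S t) g ≤ M.N * C := by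
  rw [sum_comm]
  calc ∑ g, ∑ t, nu g * nearW u (M.w t) (M.S t) g ≤ ∑ g, nu g * (M.N * C) := by
        refine sum_le_sum fun g _ => ?_
        rw [← mul_sum]
        exact mul_le_mul_of_nonneg_left
          (le_trans (sum_le_sum fun t _ => nearW_le_nr A M t g) (M.nr1 g)) (h0 g)
    _ = M.N * C := by rw [← sum_mul, h1, one_mul]

/-- The mean distance is bounded by the good weight and the badness. -/
theorem E2_le (A : Alg u d L c) (M : MSys F d c C) {nu : F → ℝ} (h0 : ∀ g, 0 ≤ nu g)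
    (h1 : ∑ g, nu g = 1) {b ga : ℝ} (hga : 0 < ga) (hga2 : ga ≤ b ^ 4 / 800) :
    E2 nu d ≤ M.W u nu b / 2 + 2 * M.Bad u nu b ga + (5 + 1 / ga / 2) * C := by
  have hN : (0 : ℝ) < M.N := Nat.cast_pos.mpr M.pos
  have ht : ∀ t, E2 nu d ≤ (∑ a, M.w t a * ind (Good u nu b (M.S t a))) / 2
      + 2 * ∑ a, M.w t a * bad u nu b ga (M.S t a)
      + (4 + 1 / ga / 2) * ∑ g, nu g * nearW u (M.w t) (M.S t) g + C := by
    intro t
    have a1 : E2 nu d ≤ E2 nu (fun g x => DT (M.w t) (M.S t) g x + C) := E2_mono h0 (M.lo t)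
    rw [E2_add_const h1, E2_DT h1] at a1
    have a2 := sum_vr_le u h0 h1 hga hga2 (M.w t) (M.w_nonneg t) (M.S t)
    linarith
  have hs := sum_le_sum fun t (_ : t ∈ univ) => ht t
  simp only [sum_add_distrib, ← mul_sum, ← sum_div, sum_const, card_univ, Fintype.card_fin,
    nsmul_eq_mul] at hs
  have hn := mul_le_mul_of_nonneg_left (near_avg A M h0 h1)
    (show 0 ≤ 4 + 1 / ga / 2 by positivity)
  have eW : ∑ t, ∑ a, M.w t a * ind (Good u nu b (M.S t a)) = M.N * M.W u nu b := by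
    unfold MSys.W; field_simp
  have eB : ∑ t, ∑ a, M.w t a * bad u nu b ga (M.S t a) = M.N * M.Bad u nu b ga := by
    unfold MSys.Bad; field_simp
  rw [eW, eB] at hs
  refine le_of_mul_le_mul_left ?_ hN
  linarith

/-- The wall lemma averaged over the shifts, before the error term is absorbed. -/
theorem EL_le (hW : WallSt) (A : Alg u d L c) (M : MSys F d c C) (hc : 0 ≤ c) (hC : 0 ≤ C)
    {nu : F → ℝ} (h0 : ∀ g, 0 ≤ nu g) (h1 : ∑ g, nu g = 1) {b ga E : ℝ} (hb : 0 ≤ b)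
    (hga : 0 < ga) (hga2 : ga ≤ b ^ 4 / 800) (hE : 0 ≤ E)
    (hd : ∀ i, ∑ g, pr nu u i g g ≤ b ^ 4 / 400) :
    EL nu u L ≤ 8 * M.Bad u nu b ga - b ^ 4 / 64 * M.W u nu b + (32 + 2 * (1 / ga)) * C
      + 6 * (C * E + C + C * Real.exp (-E) * (E2 nu d + C)) + 6 * (4 * C + 2 * c) := by
  classical
  have hN : (0 : ℝ) < M.N := Nat.cast_pos.mpr M.pos
  have ht : ∀ t, EL nu u L ≤ 8 * ∑ a, M.w t a * bad u nu b ga (M.S t a)
      - b ^ 4 / 64 * ∑ a, M.w t a * ind (Good u nu b (M.S t a))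
      + (32 + 2 * (1 / ga)) * ∑ g, nu g * nearW u (M.w t) (M.S t) g
      + 6 * E2 nu (M.err E t) + 6 * (4 * C + 2 * c) := by
    intro t
    have hG : ∀ a, a ∈ univ.filter (fun a => Good u nu b (M.S t a)) ↔ Good u nu b (M.S t a) := by
      simp
    have a0 := hW F V (Fin M.m) u nu (M.w t) (M.S t) L
      (fun g x => M.err E t g x + (4 * C + 2 * c)) b (b ^ 4 / 400)
      (univ.filter (fun a => Good u nu b (M.S t a))) h0 h1 (M.w_nonneg t) (M.lam t)
      (fun g x => by have := M.err_nonneg E t g x; positivity) (c1_of A M hc hE t) hb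
      (fun a ha => (hG a).mp ha) hd
    rw [E2_add_const h1, sum_good (fun a => Good u nu b (M.S t a)) (M.w t) _ hG] at a0
    have a1 := sum_not_good u h0 h1 hga hga2 (M.w t) (M.w_nonneg t) (M.S t) _ hG
    have a2 : 0 ≤ ∑ a, M.w t a * ind (Good u nu b (M.S t a)) :=
      sum_nonneg fun a _ => mul_nonneg (M.w_nonneg t a) (ind_nonneg _)
    have a3 : b ^ 4 / 64 ≤ b ^ 4 / 32 - 6 * (b ^ 4 / 400) := by
      have : 0 ≤ b ^ 4 := by positivity
      linarith
    have a4 := mul_le_mul_of_nonneg_right a3 a2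
    linarith
  have hs := sum_le_sum fun t (_ : t ∈ univ) => ht t
  simp only [sum_add_distrib, sum_sub_distrib, ← mul_sum, sum_const, card_univ, Fintype.card_fin,
    nsmul_eq_mul] at hs
  have hn := mul_le_mul_of_nonneg_left (near_avg A M h0 h1)
    (show 0 ≤ 32 + 2 * (1 / ga) by positivity)
  have he : ∑ t, E2 nu (M.err E t) ≤ M.N * (C * E + C + C * Real.exp (-E) * (E2 nu d + C)) := by
    rw [← E2_sum nu (fun t => M.err E t)]
    refine le_trans (E2_mono h0 (k := fun g x => M.N * (C * Real.exp (-E)) * d g x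
      + M.N * (C * E + C + C * Real.exp (-E) * C)) fun g x => ?_) ?_
    · have := M.err_avg E hE g x
      linarith
    · rw [E2_add_const h1, E2_mul]
      exact le_of_eq (by ring)
  have eW : ∑ t, ∑ a, M.w t a * ind (Good u nu b (M.S t a)) = M.N * M.W u nu b := by
    unfold MSys.W; field_simp
  have eB : ∑ t, ∑ a, M.w t a * bad u nu b ga (M.S t a) = M.N * M.Bad u nu b ga := by
    unfold MSys.Bad; field_simp
  rw [eW, eB] at hs
  refine le_of_mul_le_mul_left ?_ hN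
  linarith

end Pl

open Pl in
/-- Steps 6 and 7 at one true place. -/
theorem place (hW : WallSt) : PlaceSt := by
  intro b ga c C hb hb1 hga hga2 hc hC
  have hb4 : 0 < b ^ 4 := by positivity
  have hb41 : b ^ 4 ≤ 1 := pow_le_one₀ hb.le hb1
  have hE : 0 ≤ 768 * C / b ^ 4 := by positivity
  refine ⟨(32 + 2 * (1 / ga)) * C + 6 * (C * (768 * C / b ^ 4) + C) + 6 * (4 * C + 2 * c)
    + ((5 + 1 / ga / 2) * C + C), by positivity, ?_, ?_⟩
  · intro h1 h2; rw [h1, h2]; ring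
  intro F V _ u d L nu M A h0 h1 hd
  have a1 := EL_le hW A M hc hC h0 h1 hb.le hga hga2 hE hd
  have a2 := E2_le (b := b) A M h0 h1 hga hga2
  have w0 := W_nonneg M u nu b
  have b0 := Bad_nonneg M u h0 b ga
  have k1 : 0 ≤ (32 + 2 * (1 / ga)) * C := by positivity
  have k2 : 0 ≤ C * (768 * C / b ^ 4) := by positivity
  have k3 : 0 ≤ (5 + 1 / ga / 2) * C := by positivity
  refine ⟨?_, by linarith⟩
  set E : ℝ := 768 * C / b ^ 4 with hEdef
  have x0 : 0 < Real.exp (-E) := Real.exp_pos _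
  have x1 : E * Real.exp (-E) ≤ 1 := by
    have h2 := Real.add_one_le_exp E
    have h3 : Real.exp E * Real.exp (-E) = 1 := by rw [← Real.exp_add]; simp
    nlinarith
  have x2 : C * Real.exp (-E) ≤ b ^ 4 / 768 := by
    have e : C = b ^ 4 / 768 * E := by rw [hEdef]; field_simp
    have := mul_le_mul_of_nonneg_left x1 (show 0 ≤ b ^ 4 / 768 by positivity)
    calc C * Real.exp (-E) = b ^ 4 / 768 * (E * Real.exp (-E)) := by
          rw [← mul_assoc, ← e]
      _ ≤ b ^ 4 / 768 := by linarith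
  have x3 : 0 ≤ C * Real.exp (-E) := by positivity
  have y1 : C * Real.exp (-E) * (E2 nu d + C) ≤ C * Real.exp (-E)
      * (M.W u nu b / 2 + 2 * M.Bad u nu b ga + (5 + 1 / ga / 2) * C + C) :=
    mul_le_mul_of_nonneg_left (by linarith) x3
  have y2 : C * Real.exp (-E) * (M.W u nu b / 2 + 2 * M.Bad u nu b ga + (5 + 1 / ga / 2) * C + C)
      ≤ b ^ 4 / 768 * (M.W u nu b / 2 + 2 * M.Bad u nu b ga + (5 + 1 / ga / 2) * C + C) :=
    mul_le_mul_of_nonneg_right x2 (by linarith)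
  have y3 : b ^ 4 * (2 * M.Bad u nu b ga + (5 + 1 / ga / 2) * C + C)
      ≤ 1 * (2 * M.Bad u nu b ga + (5 + 1 / ga / 2) * C + C) :=
    mul_le_mul_of_nonneg_right hb41 (by linarith)
  have y4 : 0 ≤ b ^ 4 * M.W u nu b := by positivity
  linarith

end Pool.Agent.Lib.MP_abd417_co.W
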