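import Pool.Agent.Lib.MP_abd417_co.W.Defs

/-! One true place: good and bad walls, the averaged weights, and the statement. -/

namespace Pool.Agent.Lib.MP_abd417_co.W

open Finset

variable {F V : Type} [Fintype F]

/-- Good wall: large variance, few frames with no crossing axis or with two crossing axes. -/
def Good (u : Fin 3 → F → V) (nu : F → ℝ) (b : ℝ) (A : Finset F) : Prop :=
  b ≤ vr nu A ∧ ms nu (fun g => NoCr u A g ∨ Near u A g) ≤ b ^ 4 / 400

/-- Large bad wall: large variance, few near frames, many frames with no crossing axis. -/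
def BigBad (u : Fin 3 → F → V) (nu : F → ℝ) (b ga : ℝ) (A : Finset F) : Prop :=
  b ≤ vr nu A ∧ ms nu (Near u A) ≤ ga ∧ b ^ 4 / 800 ≤ ms nu (NoCr u A)

/-- The side `s` of the wall is small and at least half of it is not near. -/
def SmBad (u : Fin 3 → F → V) (nu : F → ℝ) (b : ℝ) (A : Finset F) (s : F → Prop) : Prop :=
  ms nu s < b ∧ ms nu s ≤ 2 * ms nu (fun g => s g ∧ ¬ Near u A g)

/-- Badness of one wall. -/
noncomputable def bad (u : Fin 3 → F → V) (nu : F → ℝ) (b ga : ℝ) (A : Finset F) : ℝ :=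
  ind (BigBad u nu b ga A) + ind (SmBad u nu b A (· ∈ A)) * ms nu (· ∈ A)
    + ind (SmBad u nu b A (· ∉ A)) * ms nu (· ∉ A)

/-- Weight of the good walls, averaged over the shifts. -/
noncomputable def MSys.W {d : F → F → ℝ} {c C : ℝ} (M : MSys F d c C) (u : Fin 3 → F → V)
    (nu : F → ℝ) (b : ℝ) : ℝ :=
  (∑ t, ∑ a, M.w t a * ind (Good u nu b (M.S t a))) / M.N

/-- Weighted badness, averaged over the shifts. -/
noncomputable def MSys.Bad {d : F → F → ℝ} {c C : ℝ} (M : MSys F d c C) (u : Fin 3 → F → V)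
    (nu : F → ℝ) (b ga : ℝ) : ℝ :=
  (∑ t, ∑ a, M.w t a * bad u nu b ga (M.S t a)) / M.N

/-- Steps 6 and 7 at one true place. -/
def PlaceSt : Prop :=
  ∀ b ga c C : ℝ, 0 < b → b ≤ 1 → 0 < ga → ga ≤ b ^ 4 / 800 → 0 ≤ c → 0 ≤ C →
    ∃ K : ℝ, 0 ≤ K ∧ (c = 0 → C = 0 → K = 0) ∧
      ∀ (F V : Type) [Fintype F] (u : Fin 3 → F → V) (d : F → F → ℝ) (L : Fin 3 → F → F → ℝ)
        (nu : F → ℝ) (M : MSys F d c C), Alg u d L c → (∀ g, 0 ≤ nu g) → ∑ g, nu g = 1 →
        (∀ i, ∑ g, pr nu u i g g ≤ b ^ 4 / 400) →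
        EL nu u L ≤ 9 * M.Bad u nu b ga - b ^ 4 / 128 * M.W u nu b + K ∧
          E2 nu d ≤ M.W u nu b + 9 * M.Bad u nu b ga + K

end Pool.Agent.Lib.MP_abd417_co.W
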