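import Pool.Agent.Lib.MP_abd417_co.Up.Conf
import Pool.Agent.Lib.MP_abd417_co.U.CycDefs
import Pool.Agent.Lib.MP_abd417_co.W.PlaceDefs

/-! The alternative at a complex place: statement. -/

namespace Pool.Agent.Lib.MP_abd417_co.W

open Finset Pool.Agent.Lib.MP_abd417_co.U.Cy Pool.Agent.Lib.MP_abd417_co.Up

/-- At a complex place with few good walls and little badness there is a fine test or the mean of
`log |Θ|` is at most `-1`. -/
def TriSt : Prop :=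
  ∀ b ga C L0 : ℝ, 0 < b → b ≤ 1 → 0 < ga → ga ≤ b ^ 4 / 800 → 0 ≤ C → 0 ≤ L0 →
    ∃ γ Nc de : ℝ, 0 < γ ∧ 0 < de ∧ ∀ (k : Conf) (p : k.Pl), k.arch p = true →
      ∃ cell : k.Fr → k.Fr, ∀ (c C' : ℝ) (M : MSys k.Fr (k.d p) c C'), C' ≤ C →
        Alg k.ax (k.d p) (fun i g h => Real.log (k.v p (k.th i g h))) c →
        ∀ μ : k.Fr → ℝ, (∀ g, 0 ≤ μ g) → 0 < ∑ g, μ g →
          (∀ i, ∑ g, pr (nrm μ) k.ax i g g ≤ de) → M.W k.ax (nrm μ) b ≤ L0 →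
          M.Bad k.ax (nrm μ) b ga ≤ 1 / 1000000 →
          (∃ q, Fine k.ax cell μ γ Nc q) ∨
            EL (nrm μ) k.ax (fun i g h => Real.log (k.v p (k.th i g h))) ≤ -1

end Pool.Agent.Lib.MP_abd417_co.W
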