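import Pool.Agent.Lib.MP_abd417_co.Up.Aw2
import Pool.Agent.Lib.MP_abd417_co.W.Defs

/-! Walls at an archimedean place: random dyadic squares. -/

namespace Pool.Agent.Lib.MP_abd417_co.W

open Finset Pool.Agent.Lib.MP_abd417_co.Up.Aw

theorem aw_pow_clog {n : ℕ} (hn : 1 ≤ n) : 2 ^ Nat.clog 2 n ≤ 2 * n := by
  rcases hn.eq_or_lt with rfl | h
  · simp
  · have h1 := Nat.pow_pred_clog_lt_self (b := 2) (by norm_num) h
    have h2 := Nat.clog_pos (b := 2) (by norm_num) h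
    obtain ⟨k, hk⟩ := Nat.exists_eq_add_of_lt h2
    rw [hk] at h1 ⊢
    simp only [zero_add, Nat.pred_eq_sub_one, Nat.add_sub_cancel] at h1
    rw [zero_add, pow_succ]
    omega

theorem aw_dist_floor {a b : ℝ} (ha : 0 ≤ a) (hb : 0 ≤ b) :
    (Nat.dist ⌊a⌋₊ ⌊b⌋₊ : ℝ) ≤ |a - b| + 1 ∧ |a - b| ≤ (Nat.dist ⌊a⌋₊ ⌊b⌋₊ : ℝ) + 1 := by
  have a1 := Nat.floor_le ha
  have a2 := Nat.lt_floor_add_one a
  have b1 := Nat.floor_le hb
  have b2 := Nat.lt_floor_add_one b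
  have c1 := le_abs_self (a - b)
  have c2 := neg_abs_le (a - b)
  rcases le_total ⌊a⌋₊ ⌊b⌋₊ with h | h
  · have h' : (⌊a⌋₊ : ℝ) ≤ ⌊b⌋₊ := by exact_mod_cast h
    rw [Nat.dist_eq_sub_of_le h, Nat.cast_sub h]
    exact ⟨by linarith, abs_le.2 ⟨by linarith, by linarith⟩⟩
  · have h' : (⌊b⌋₊ : ℝ) ≤ ⌊a⌋₊ := by exact_mod_cast h
    rw [Nat.dist_eq_sub_of_le_right h, Nat.cast_sub h]
    exact ⟨by linarith, abs_le.2 ⟨by linarith, by linarith⟩⟩

theorem aw_two {u : ℝ} {k : ℕ} (hu : 0 < u) (h1 : u ≤ 8 * 2 ^ k) (h2 : 2 ^ k ≤ 8 * u) :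
    |Real.log u - Real.log 2 * k| ≤ 3 := by
  have h8 : Real.log 8 = 3 * Real.log 2 := by
    rw [show (8 : ℝ) = 2 ^ 3 by norm_num, Real.log_pow]
    norm_num
  have a1 := Real.log_le_log hu h1
  have a2 := Real.log_le_log (by positivity) h2
  rw [Real.log_mul (by norm_num) (by positivity), Real.log_pow, h8] at a1
  rw [Real.log_mul (by norm_num) hu.ne', Real.log_pow, h8] at a2
  have := Real.log_two_lt_d9
  exact abs_le.2 ⟨by linarith, by linarith⟩

theorem aw_ceil {u : ℝ} (hu : 1 ≤ u) :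
    u ≤ 2 ^ Nat.clog 2 ⌈u⌉₊ ∧ (2 : ℝ) ^ Nat.clog 2 ⌈u⌉₊ ≤ 4 * u := by
  have h1 : (⌈u⌉₊ : ℝ) ≤ 2 ^ Nat.clog 2 ⌈u⌉₊ := by
    exact_mod_cast Nat.le_pow_clog (by norm_num) _
  have h2 : (2 : ℝ) ^ Nat.clog 2 ⌈u⌉₊ ≤ 2 * ⌈u⌉₊ := by
    exact_mod_cast aw_pow_clog (Nat.one_le_ceil_iff.2 (by linarith))
  have h3 := Nat.ceil_lt_add_one (show 0 ≤ u by linarith)
  exact ⟨(Nat.le_ceil u).trans h1, by linarith⟩

theorem aw_model {F : Type} [Fintype F] (z : F → ℂ) (h : F → ℝ) (hh : ∀ g, 0 < h g) :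
    ∃ (K : ℕ) (P : F → Pt), (∀ g, Ok K (P g)) ∧ ∀ a b,
      |Real.log (max ‖z a - z b‖ (max (h a) (h b)) ^ 2 / (h a * h b)) -
        Real.log 2 * (2 * (lv (P a) (P b) : ℝ) - (P a).h - (P b).h)| ≤ 12 := by
  obtain ⟨s, hs, h1⟩ : ∃ s : ℝ, 0 < s ∧ ∀ g, 1 ≤ s * h g := by
    have h0 : ∀ g, 0 ≤ (h g)⁻¹ := fun g => (inv_pos.2 (hh g)).le
    refine ⟨1 + ∑ g, (h g)⁻¹, by have := sum_nonneg fun g (_ : g ∈ univ) => h0 g; linarith,
      fun g => ?_⟩
    have h2 : (h g)⁻¹ ≤ ∑ g, (h g)⁻¹ := single_le_sum (fun g _ => h0 g) (mem_univ g)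
    have h3 := mul_inv_cancel₀ (hh g).ne'
    nlinarith [hh g]
  obtain ⟨R, hR⟩ : ∃ R : ℝ, ∀ g, ‖z g‖ ≤ R :=
    ⟨∑ g, ‖z g‖, fun g => single_le_sum (fun g _ => norm_nonneg (z g)) (mem_univ g)⟩
  have hx : ∀ g, 0 ≤ s * ((z g).re + R) := fun g => mul_nonneg hs.le (by
    have := (abs_le.1 ((Complex.abs_re_le_norm (z g)).trans (hR g))).1
    linarith)
  have hy : ∀ g, 0 ≤ s * ((z g).im + R) := fun g => mul_nonneg hs.le (by
    have := (abs_le.1 ((Complex.abs_im_le_norm (z g)).trans (hR g))).1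
    linarith)
  obtain ⟨P, hP⟩ : ∃ P : F → Pt, ∀ g, P g =
      ⟨⌊s * ((z g).re + R)⌋₊, ⌊s * ((z g).im + R)⌋₊, Nat.clog 2 ⌈s * h g⌉₊⟩ := ⟨_, fun _ => rfl⟩
  refine ⟨∑ g, ((P g).x + (P g).y + (P g).h), P, fun g => ?_, fun a b => ?_⟩
  · have h2 : (P g).x + (P g).y + (P g).h ≤ ∑ g, ((P g).x + (P g).y + (P g).h) :=
      single_le_sum (f := fun g => (P g).x + (P g).y + (P g).h) (fun _ _ => Nat.zero_le _)
        (mem_univ g)
    have h3 := @Nat.lt_two_pow_self (∑ g, ((P g).x + (P g).y + (P g).h))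
    unfold Ok
    omega
  · have hH : ∀ g, |Real.log (s * h g) - Real.log 2 * (P g).h| ≤ 3 ∧ s * h g ≤ 2 ^ (P g).h := by
      intro g
      obtain ⟨a1, a2⟩ := aw_ceil (h1 g)
      have a3 : (0 : ℝ) < 2 ^ Nat.clog 2 ⌈s * h g⌉₊ := by positivity
      rw [hP]
      exact ⟨aw_two (by linarith [h1 g]) (by simp only; linarith) (by simp only; linarith [h1 g]),
        a1⟩
    set M := max ‖z a - z b‖ (max (h a) (h b)) with hM
    have m1 : ‖z a - z b‖ ≤ M := le_max_left _ _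
    have m2 : h a ≤ M := (le_max_left _ _).trans (le_max_right _ _)
    have m3 : h b ≤ M := (le_max_right _ _).trans (le_max_right _ _)
    have m2' := mul_le_mul_of_nonneg_left m2 hs.le
    have m3' := mul_le_mul_of_nonneg_left m3 hs.le
    have m1' := mul_le_mul_of_nonneg_left m1 hs.le
    have m4 : 1 ≤ s * M := (h1 a).trans m2'
    obtain ⟨x1, x2⟩ := aw_dist_floor (hx a) (hx b)
    obtain ⟨y1, y2⟩ := aw_dist_floor (hy a) (hy b)
    have ex : |s * ((z a).re + R) - s * ((z b).re + R)| = s * |(z a - z b).re| := by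
      rw [← abs_of_pos hs, ← abs_mul, abs_of_pos hs, Complex.sub_re]
      congr 1
      ring
    have ey : |s * ((z a).im + R) - s * ((z b).im + R)| = s * |(z a - z b).im| := by
      rw [← abs_of_pos hs, ← abs_mul, abs_of_pos hs, Complex.sub_im]
      congr 1
      ring
    rw [ex] at x1 x2
    rw [ey] at y1 y2
    have n1 := mul_le_mul_of_nonneg_left (Complex.abs_re_le_norm (z a - z b)) hs.le
    have n2 := mul_le_mul_of_nonneg_left (Complex.abs_im_le_norm (z a - z b)) hs.le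
    have n3 := mul_le_mul_of_nonneg_left (Complex.norm_le_abs_re_add_abs_im (z a - z b)) hs.le
    have px : Nat.dist (P a).x (P b).x =
        Nat.dist ⌊s * ((z a).re + R)⌋₊ ⌊s * ((z b).re + R)⌋₊ := by rw [hP a, hP b]
    have py : Nat.dist (P a).y (P b).y =
        Nat.dist ⌊s * ((z a).im + R)⌋₊ ⌊s * ((z b).im + R)⌋₊ := by rw [hP a, hP b]
    rw [← px] at x1 x2
    rw [← py] at y1 y2
    have hL : |Real.log (s * M) - Real.log 2 * lv (P a) (P b)| ≤ 3 := by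
      obtain ⟨l1, l2, l3, l4⟩ := (lv_le_iff (P a) (P b) _).1 le_rfl
      have l3' : (Nat.dist (P a).x (P b).x : ℝ) ≤ 2 ^ lv (P a) (P b) := by exact_mod_cast l3
      have l4' : (Nat.dist (P a).y (P b).y : ℝ) ≤ 2 ^ lv (P a) (P b) := by exact_mod_cast l4
      have l0 : (1 : ℝ) ≤ 2 ^ lv (P a) (P b) := one_le_pow₀ (by norm_num)
      have l1' := (hH a).2.trans (pow_le_pow_right₀ (by norm_num) l1)
      have l2' := (hH b).2.trans (pow_le_pow_right₀ (by norm_num) l2)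
      refine aw_two (by linarith) ?_ ?_
      · rw [hM, mul_max_of_nonneg _ _ hs.le, mul_max_of_nonneg _ _ hs.le]
        exact max_le (by linarith) (max_le (by linarith) (by linarith))
      · obtain ⟨c1, c2⟩ := aw_ceil (u := 2 * (s * M)) (by linarith)
        have c3 : lv (P a) (P b) ≤ Nat.clog 2 ⌈2 * (s * M)⌉₊ := by
          rw [lv_le_iff]
          refine ⟨?_, ?_, ?_, ?_⟩
          · rw [hP]
            exact Nat.clog_mono_right _ (Nat.ceil_mono (by linarith))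
          · rw [hP]
            exact Nat.clog_mono_right _ (Nat.ceil_mono (by linarith))
          · have : (Nat.dist (P a).x (P b).x : ℝ) ≤ 2 ^ Nat.clog 2 ⌈2 * (s * M)⌉₊ := by linarith
            exact_mod_cast this
          · have : (Nat.dist (P a).y (P b).y : ℝ) ≤ 2 ^ Nat.clog 2 ⌈2 * (s * M)⌉₊ := by linarith
            exact_mod_cast this
        have c4 : (2 : ℝ) ^ lv (P a) (P b) ≤ 2 ^ Nat.clog 2 ⌈2 * (s * M)⌉₊ :=
          pow_le_pow_right₀ (by norm_num) c3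
        linarith
    have hM0 : 0 < M := (hh a).trans_le m2
    have e1 := abs_le.1 (hH a).1
    have e2 := abs_le.1 (hH b).1
    have e3 := abs_le.1 hL
    rw [Real.log_mul hs.ne' (hh a).ne'] at e1
    rw [Real.log_mul hs.ne' (hh b).ne'] at e2
    rw [Real.log_mul hs.ne' hM0.ne'] at e3
    rw [Real.log_div (by positivity) (mul_pos (hh a) (hh b)).ne', Real.log_pow,
      Real.log_mul (hh a).ne' (hh b).ne']
    push_cast
    exact abs_le.2 ⟨by linarith [e1.1, e1.2, e2.1, e2.2, e3.1, e3.2],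
      by linarith [e1.1, e1.2, e2.1, e2.2, e3.1, e3.2]⟩

theorem aw_sum_fin {A : Type} (s : Finset A) (f : A → ℝ) :
    ∑ i : Fin s.card, f (s.equivFin.symm i) = ∑ a ∈ s, f a :=
  (Equiv.sum_comp s.equivFin.symm (fun x => f x)).trans (sum_coe_sort s f)

theorem aw_sum_ind {A : Type} (s : Finset A) (l : ℝ) (Q : A → Prop) [DecidablePred Q] :
    ∑ i : Fin s.card, l * ind (Q (s.equivFin.symm i)) = l * (s.filter Q).card := by
  rw [aw_sum_fin s (fun a => l * ind (Q a)), ← mul_sum, ← sum_boole]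
  exact congrArg _ (sum_congr rfl fun a _ => by by_cases h : Q a <;> simp [ind, h])

theorem aw_exp (E : ℝ) : (1 : ℝ) / 2 ^ ⌈2 * E⌉₊ ≤ Real.exp (-E) := by
  rw [Real.exp_neg, one_div]
  refine inv_anti₀ (Real.exp_pos E) ?_
  have h1 := Nat.le_ceil (2 * E)
  have h2 := Real.log_two_gt_d9
  rw [← Real.exp_log (show (0 : ℝ) < 2 ^ ⌈2 * E⌉₊ by positivity), Real.log_pow]
  exact Real.exp_le_exp.2 (by nlinarith)

theorem arch : ArchSt := by
  classical
  intro c hc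
  obtain ⟨c1, hc1⟩ : ∃ c1 : ℕ, 4 * c + 36 ≤ c1 := exists_nat_ge _
  obtain ⟨N1, hN1⟩ : ∃ N1 : ℕ, N1 = (2 ^ (2 * c1 + 2) + 1) ^ 2 := ⟨_, rfl⟩
  have hN : (1 : ℝ) ≤ N1 := by
    have : 1 ≤ N1 := hN1 ▸ Nat.one_le_pow _ _ (by positivity)
    exact_mod_cast this
  obtain ⟨C, hC1, hC2⟩ : ∃ C : ℝ, 6 * c + 200 ≤ C ∧
      2 * (N1 : ℝ) ^ 2 * ((2 * c1 + 1) ^ 2 + 24) ≤ C :=
    ⟨_, le_max_left _ _, le_max_right _ _⟩
  refine ⟨C, by linarith, fun F _ z h d hh hd => ?_⟩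
  obtain ⟨K, P, hO, hP⟩ := aw_model z h hh
  have l1 := Real.log_two_gt_d9
  have l2 := Real.log_two_lt_d9
  set l := Real.log 2 with hl
  have hD : ∀ a b, -(c + 12) ≤ d a b - l * (2 * (lv (P a) (P b) : ℝ) - (P a).h - (P b).h) ∧
      d a b - l * (2 * (lv (P a) (P b) : ℝ) - (P a).h - (P b).h) ≤ c + 12 := fun a b =>
    ⟨by linarith [(abs_le.1 (hd a b)).1, (abs_le.1 (hP a b)).1],
      by linarith [(abs_le.1 (hd a b)).2, (abs_le.1 (hP a b)).2]⟩
  have hv : ∀ a b, ((P a).h : ℝ) ≤ lv (P a) (P b) ∧ ((P b).h : ℝ) ≤ lv (P a) (P b) := fun a b =>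
    ⟨by exact_mod_cast le_lv _ _, by exact_mod_cast le_lv' _ _⟩
  obtain ⟨e, he⟩ : ∃ e : Fin (Sh K).card → ℕ × ℕ, ∀ t, e t = (Sh K).equivFin.symm t :=
    ⟨_, fun _ => rfl⟩
  obtain ⟨f, hf⟩ : ∃ f : Fin (Wl K).card → ℕ × ℕ × ℕ, ∀ a, f a = (Wl K).equivFin.symm a :=
    ⟨_, fun _ => rfl⟩
  have se : ∀ g : ℕ × ℕ → ℝ, ∑ t, g (e t) = ∑ t ∈ Sh K, g t := fun g => by
    simp only [he]
    exact aw_sum_fin _ g
  have sf : ∀ (Q : ℕ × ℕ × ℕ → Prop) [DecidablePred Q],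
      ∑ a, l * ind (Q (f a)) = l * ((Wl K).filter Q).card := fun Q _ => by
    simp only [hf]
    exact aw_sum_ind _ l Q
  obtain ⟨S, hS⟩ : ∃ S : Fin (Sh K).card → Fin (Wl K).card → Finset F,
      ∀ t a g, g ∈ S t a ↔ mem (e t) (f a) (P g) :=
    ⟨fun t a => univ.filter (fun g => mem (e t) (f a) (P g)), fun t a g => by simp⟩
  have hT : ∀ t g x, DT (fun _ => l) (S t) g x = l * (sp K (e t) (P g) (P x)).card := by
    intro t g x
    unfold DT Sep sp
    simp only [hS]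
    exact @sf (fun a => ¬ (mem (e t) a (P g) ↔ mem (e t) a (P x))) (_)
  have sv : ∀ j g, ∑ t, (vn K (e t) j (P g) : ℝ) ≤ 24 * (Sh K).card := fun j g =>
    (se fun t => (vn K t j (P g) : ℝ)).trans_le (sum_vn K j (P g))
  have hn : (0 : ℝ) ≤ (Sh K).card := by positivity
  have n2 : ∀ g, ∑ t, ((N1 : ℝ) * (2 * c1 + 1 + vn K (e t) ((P g).h + c1 + 1) (P g))) ^ 2 ≤
      (Sh K).card * C := by
    intro g
    have h1 := (se fun t => (vn K t ((P g).h + c1 + 1) (P g) : ℝ) ^ 2).trans_le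
      (sum_vn_sq K _ (P g))
    have h2 : ∀ t, ((N1 : ℝ) * (2 * c1 + 1 + vn K (e t) ((P g).h + c1 + 1) (P g))) ^ 2 ≤
        2 * (N1 : ℝ) ^ 2 * ((2 * c1 + 1) ^ 2 + (vn K (e t) ((P g).h + c1 + 1) (P g) : ℝ) ^ 2) := by
      intro t
      rw [mul_pow, mul_comm (2 : ℝ) ((N1 : ℝ) ^ 2), mul_assoc ((N1 : ℝ) ^ 2)]
      refine mul_le_mul_of_nonneg_left ?_ (sq_nonneg _)
      nlinarith [sq_nonneg (2 * (c1 : ℝ) + 1 - vn K (e t) ((P g).h + c1 + 1) (P g))]
    refine (sum_le_sum fun t _ => h2 t).trans ?_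
    rw [← mul_sum, sum_add_distrib, sum_const, card_univ, Fintype.card_fin, nsmul_eq_mul]
    calc _ ≤ 2 * (N1 : ℝ) ^ 2 * ((Sh K).card * (2 * c1 + 1) ^ 2 + 24 * (Sh K).card) := by
          gcongr
      _ = (Sh K).card * (2 * (N1 : ℝ) ^ 2 * ((2 * c1 + 1) ^ 2 + 24)) := by ring
      _ ≤ _ := mul_le_mul_of_nonneg_left hC2 hn
  refine ⟨{
    N := (Sh K).card
    m := (Wl K).card
    pos := by
      rw [Sh, card_product, card_range]
      positivity
    S := S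
    w := fun _ _ => l
    nr := fun t g => (N1 : ℝ) * (2 * c1 + 1 + vn K (e t) ((P g).h + c1 + 1) (P g))
    err := fun E t g x => 3 * (c + 12) + 2 * ((⌈2 * E⌉₊ : ℝ) +
      cn ⌈2 * E⌉₊ (e t) (P g) (lv (P g) (P x)) + 3 * vn K (e t) (lv (P g) (P x)) (P g) + 3)
    top := fun t y r => 3 * (⌈2 * (r + (c + 12))⌉₊ : ℝ) +
      2 * vn K (e t) ((P y).h + ⌈2 * (r + (c + 12))⌉₊) (P y)
    w_nonneg := fun _ _ => by linarith
    lam := fun t a b => ?_
    lo := fun t g x => ?_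
    hi := fun g x => ?_
    nr_ge := fun t g => ?_
    nr1 := fun g => ?_
    nr2 := n2
    err_nonneg := fun E t g x => by positivity
    err_avg := fun E hE g x => ?_
    chain := fun E _ t g x B hB => ?_
    top_avg := fun y r hr => ?_
    top_ge := fun t y g r hr => ?_ }⟩
  · rcases laminar (e t) (f a) (f b) with h | h | h
    · exact Or.inl fun g hg => (hS _ _ _).2 (h _ ((hS _ _ _).1 hg))
    · exact Or.inr (Or.inl fun g hg => (hS _ _ _).2 (h _ ((hS _ _ _).1 hg)))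
    · exact Or.inr (Or.inr (disjoint_left.2 fun g h1 h2 =>
        h _ ⟨(hS _ _ _).1 h1, (hS _ _ _).1 h2⟩))
  · have h1 : 2 * (lv (P g) (P x) : ℝ) ≤ (sp K (e t) (P g) (P x)).card + (P g).h + (P x).h := by
      exact_mod_cast sp_lower (he t ▸ ((Sh K).equivFin.symm t).2) (hO g) (hO x)
    rw [hT]
    nlinarith [(hD g x).2]
  · have h1 : ∀ t, DT (fun _ => l) (S t) g x ≤
        d g x + (c + 12) + 2 * vn K (e t) (lv (P g) (P x)) (P g) := by
      intro t
      have h2 : ((sp K (e t) (P g) (P x)).card : ℝ) + (P g).h + (P x).h ≤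
          2 * lv (P g) (P x) + 2 * vn K (e t) (lv (P g) (P x)) (P g) := by
        exact_mod_cast sp_upper (e t) le_rfl
      have h3 : (0 : ℝ) ≤ vn K (e t) (lv (P g) (P x)) (P g) := by positivity
      rw [hT]
      nlinarith [(hD g x).1]
    refine (sum_le_sum fun t _ => h1 t).trans ?_
    rw [sum_add_distrib, ← mul_sum, sum_const, card_univ, Fintype.card_fin, nsmul_eq_mul]
    nlinarith [sv (lv (P g) (P x)) g]
  · have h1 : ((Wl K).filter (Up.Aw.Near (e t) c1 (P g))).card ≤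
        (N1 : ℝ) * (2 * c1 + 1 + vn K (e t) ((P g).h + c1 + 1) (P g)) := by
      have := near_card K c1 (e t) (P g)
      rw [← hN1] at this
      exact_mod_cast this
    have h2 := sf (Up.Aw.Near (e t) c1 (P g))
    have h3 : (0 : ℝ) ≤ ((Wl K).filter (Up.Aw.Near (e t) c1 (P g))).card := by positivity
    refine le_trans (sum_le_sum fun a _ => mul_le_mul_of_nonneg_left (ind_mono ?_)
      (by linarith)) (h2.trans_le (by nlinarith))
    rintro ⟨g1, g2, a1, a2, a3⟩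
    unfold Sep at a1 a2
    rw [hS, hS] at a1 a2
    refine ⟨P g1, P g2, a1, a2, ?_⟩
    have b1 := (hD g1 g).2
    have b1' := (hD g1 g).1
    have b2 := (hD g g2).1
    have b3 := (hD g1 g2).2
    rw [lv_comm (P g1) (P g)] at b1'
    have b4 : (lv (P g) (P g1) : ℝ) + lv (P g) (P g2) ≤ lv (P g1) (P g2) + (P g).h + c1 := by
      by_contra hx
      nlinarith
    exact_mod_cast b4
  · refine le_trans (sum_le_sum fun t _ => ?_) (n2 g)
    refine le_self_pow₀ ?_ (by norm_num)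
    have h1 : (0 : ℝ) ≤ vn K (e t) ((P g).h + c1 + 1) (P g) := by positivity
    have h2 : (0 : ℝ) ≤ c1 := by positivity
    nlinarith
  · have h1 := (se fun t => (cn ⌈2 * E⌉₊ t (P g) (lv (P g) (P x)) : ℝ)).trans_le
      (sum_cn K _ _ (P g) (lv_le_K (hO g) (hO x)))
    have h2 := sv (lv (P g) (P x)) g
    have h3 := Nat.ceil_lt_add_one (show 0 ≤ 2 * E by linarith)
    have h4 := aw_exp E
    have h5 : ((lv (P g) (P x) + 1 - (P g).h : ℕ) : ℝ) ≤ 2 * (d g x + C) := by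
      rw [Nat.cast_sub ((le_lv _ _).trans (Nat.le_succ _))]
      push_cast
      nlinarith [(hD g x).1, (hv g x).1, (hv g x).2]
    have h6 : (0 : ℝ) ≤ ((lv (P g) (P x) + 1 - (P g).h : ℕ) : ℝ) := by positivity
    have h7 : ((lv (P g) (P x) + 1 - (P g).h : ℕ) : ℝ) * (4 / 2 ^ ⌈2 * E⌉₊ * (Sh K).card) ≤
        2 * (d g x + C) * (4 * Real.exp (-E) * (Sh K).card) := by
      refine mul_le_mul h5 (mul_le_mul_of_nonneg_right ?_ hn) (by positivity) (by linarith)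
      rw [div_eq_mul_one_div]
      linarith
    have h8 : 16 * (Real.exp (-E) * (d g x + C)) ≤ C * (Real.exp (-E) * (d g x + C)) :=
      mul_le_mul_of_nonneg_right (by linarith) (mul_nonneg (Real.exp_pos _).le (by linarith))
    have h9 : 4 * E ≤ C * E := mul_le_mul_of_nonneg_right (by linarith) hE
    simp only [sum_add_distrib, ← mul_sum, sum_const, card_univ, Fintype.card_fin, nsmul_eq_mul]
    have h10 := mul_le_mul_of_nonneg_left (show 3 * (c + 12) + 2 * ((⌈2 * E⌉₊ : ℝ) + 72 + 3) +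
      16 * (Real.exp (-E) * (d g x + C)) ≤ C * E + C + C * Real.exp (-E) * (d g x + C) by
        linarith) hn
    nlinarith
  · rcases B.eq_empty_or_nonempty with rfl | hne
    · left
      simp only [sum_empty, mul_zero]
      positivity
    right
    have inj : Function.Injective f := fun a b hab => by
      rw [hf, hf] at hab
      exact (Wl K).equivFin.symm.injective (Subtype.ext hab)
    obtain ⟨a', ha', hw⟩ := last_wall K ⌈2 * E⌉₊ (e t) (P g) (P x) (B.image f) (hne.image f) (by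
      intro a ha
      obtain ⟨b, hb, rfl⟩ := mem_image.1 ha
      have h1 := hB b hb
      unfold Sep at h1
      rw [hS, hS] at h1
      exact mem_filter.2 ⟨hf b ▸ ((Wl K).equivFin.symm b).2, h1⟩)
    obtain ⟨a, ha, rfl⟩ := mem_image.1 ha'
    refine ⟨a, ha, fun q r hq hr => ?_⟩
    have h1 := hB a ha
    unfold Sep at h1 hq hr
    rw [hS, hS] at h1 hq hr
    have h2 := hw (P q) (P r) (by tauto) (by tauto)
    rw [card_image_of_injective _ inj] at h2
    have h3 : (B.card : ℝ) + lv (P q) (P r) + (P g).h ≤ lv (P g) (P q) + lv (P g) (P r) +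
        ((⌈2 * E⌉₊ : ℝ) + cn ⌈2 * E⌉₊ (e t) (P g) (lv (P g) (P x)) +
          3 * vn K (e t) (lv (P g) (P x)) (P g) + 3) := by exact_mod_cast h2
    have h4 : (0 : ℝ) ≤ (⌈2 * E⌉₊ : ℝ) + cn ⌈2 * E⌉₊ (e t) (P g) (lv (P g) (P x)) +
          3 * vn K (e t) (lv (P g) (P x)) (P g) + 3 := by positivity
    rw [sum_const, nsmul_eq_mul]
    nlinarith [(hD g q).1, (hD g r).1, (hD q r).2]
  · have h1 := sv ((P y).h + ⌈2 * (r + (c + 12))⌉₊) y
    have h2 := Nat.ceil_lt_add_one (show 0 ≤ 2 * (r + (c + 12)) by linarith)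
    have h3 : 6 * r ≤ C * r := mul_le_mul_of_nonneg_right (by linarith) hr
    rw [sum_add_distrib, ← mul_sum, ← mul_sum, sum_const, card_univ, Fintype.card_fin,
      nsmul_eq_mul]
    have h4 := mul_le_mul_of_nonneg_left
      (show 3 * (⌈2 * (r + (c + 12))⌉₊ : ℝ) + 48 ≤ (C + 1) * (r + 1) by linarith) hn
    linarith
  · have h1 := Nat.le_ceil (2 * (r + (c + 12)))
    have h2 : 2 * (lv (P y) (P g) : ℝ) - (P y).h - (P g).h ≤ ⌈2 * (r + (c + 12))⌉₊ := by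
      nlinarith [(hD y g).1, (hv y g).1, (hv y g).2]
    have h3 : lv (P y) (P g) ≤ (P y).h + ⌈2 * (r + (c + 12))⌉₊ := by
      have : (lv (P y) (P g) : ℝ) ≤ (P y).h + ⌈2 * (r + (c + 12))⌉₊ := by linarith [(hv y g).2]
      exact_mod_cast this
    have h4 : ((sp K (e t) (P y) (P g)).card : ℝ) + (P y).h + (P g).h ≤
        2 * ((P y).h + ⌈2 * (r + (c + 12))⌉₊) +
          2 * vn K (e t) ((P y).h + ⌈2 * (r + (c + 12))⌉₊) (P y) := by
      exact_mod_cast sp_upper (e t) h3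
    have h5 : (0 : ℝ) ≤ (sp K (e t) (P y) (P g)).card := by positivity
    rw [hT]
    nlinarith [(hv y g).1]

end Pool.Agent.Lib.MP_abd417_co.W
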