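import Pool.Agent.Lib.MP_abd417_co.W.Defs
import Pool.Agent.Lib.MP_abd417_co.Up.Walls

/-! The wall system of a finite place. -/

namespace Pool.Agent.Lib.MP_abd417_co.W

open Finset

variable {F Wl : Type}

/-- Gromov product of the wall distance. -/
theorem DT_gromov [Fintype Wl] (w : Wl → ℝ) (S : Wl → Finset F) (g h h1 : F) :
    DT w S g h + DT w S g h1 - DT w S h h1 =
      2 * ∑ a, w a * ind (Sep (S a) g h ∧ Sep (S a) g h1) := by
  unfold DT
  rw [mul_sum, ← sum_add_distrib, ← sum_sub_distrib]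
  refine sum_congr rfl fun a _ => ?_
  by_cases h0 : g ∈ S a <;> by_cases h2 : h ∈ S a <;> by_cases h3 : h1 ∈ S a <;>
    simp [ind, Sep, h0, h2, h3] <;> ring

theorem two_mul_le_gromov [Fintype Wl] (w : Wl → ℝ) (S : Wl → Finset F) (hw : ∀ a, 0 ≤ w a)
    (g h h1 : F) (B : Finset Wl) (hB : ∀ a ∈ B, Sep (S a) g h ∧ Sep (S a) g h1) :
    2 * ∑ a ∈ B, w a ≤ DT w S g h + DT w S g h1 - DT w S h h1 := by
  rw [DT_gromov]
  have h1' : ∑ a ∈ B, w a = ∑ a ∈ B, w a * ind (Sep (S a) g h ∧ Sep (S a) g h1) :=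
    sum_congr rfl fun a ha => by rw [ind_pos (hB a ha), mul_one]
  have h2 := sum_le_sum_of_subset_of_nonneg (subset_univ B)
    (f := fun a => w a * ind (Sep (S a) g h ∧ Sep (S a) g h1))
    fun a _ _ => mul_nonneg (hw a) (ind_nonneg _)
  linarith

/-- Two laminar walls separating `g` from `x` have nested far sides. -/
theorem sep_chain (S : Wl → Finset F) (hL : Lam S) (g x : F) (a c : Wl)
    (ha : Sep (S a) g x) (hc : Sep (S c) g x) :
    (∀ y, Sep (S a) g y → Sep (S c) g y) ∨ ∀ y, Sep (S c) g y → Sep (S a) g y := by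
  unfold Sep at *
  rcases hL a c with h | h | h
  · have hg := @h g
    have hx := @h x
    by_cases h1 : g ∈ S a
    · exact Or.inr fun y hy => by have := @h y; tauto
    · exact Or.inl fun y hy => by have := @h y; tauto
  · have hg := @h g
    have hx := @h x
    by_cases h1 : g ∈ S c
    · exact Or.inl fun y hy => by have := @h y; tauto
    · exact Or.inr fun y hy => by have := @h y; tauto
  · have hd := disjoint_left.1 h
    have hg := @hd g
    have hx := @hd x
    by_cases h1 : g ∈ S a
    · exact Or.inr fun y hy => by have := @hd y; tauto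
    · exact Or.inl fun y hy => by have := @hd y; tauto

/-- A nonempty set of laminar walls separating `g` from `x` has a last wall. -/
theorem exists_last_wall (S : Wl → Finset F) (hL : Lam S) (g x : F) (B : Finset Wl)
    (hne : B.Nonempty) (hB : ∀ a ∈ B, Sep (S a) g x) :
    ∃ a ∈ B, ∀ c ∈ B, ∀ y, Sep (S a) g y → Sep (S c) g y := by
  induction hne using Finset.Nonempty.cons_induction with
  | singleton a =>
    refine ⟨a, mem_singleton_self a, fun c hc y hy => ?_⟩
    rwa [mem_singleton.1 hc]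
  | cons a s has hs ih =>
    obtain ⟨b, hb, hbs⟩ := ih fun c hc => hB c (mem_cons.2 (Or.inr hc))
    rcases sep_chain S hL g x a b (hB a (mem_cons.2 (Or.inl rfl)))
      (hB b (mem_cons.2 (Or.inr hb))) with h | h
    · refine ⟨a, mem_cons.2 (Or.inl rfl), fun c hc y hy => ?_⟩
      rcases mem_cons.1 hc with rfl | hc
      · exact hy
      · exact hbs c hc y (h y hy)
    · refine ⟨b, mem_cons.2 (Or.inr hb), fun c hc y hy => ?_⟩
      rcases mem_cons.1 hc with rfl | hc
      · exact h y hy
      · exact hbs c hc y hy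

theorem fin : FinSt := by
  classical
  intro F _ rho h d hpos hsym hdiag _ hult hd
  obtain ⟨Wl, iW, w, lo, hi, S, hw, -, -, -, -, -, -, -, -, -, -, hlam, -, -, hsep⟩ :=
    Up.Walls.walls rho h hpos hsym hult (fun g => (hdiag g).le.trans (hpos g).le) ∅ (by simp)
  let e := (Fintype.equivFin Wl).symm
  have hw' : ∀ a, 0 ≤ w (e a) := fun a => (hw _).le
  have hDT : ∀ g g', DT (fun a => w (e a)) (fun a => S (e a)) g g' = d g g' := fun g g' => by
    rw [hd, ← hsep, sum_filter, DT]
    refine Fintype.sum_equiv e _ _ fun a => ?_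
    by_cases h0 : Sep (S (e a)) g g'
    · rw [ind_pos h0, mul_one, if_pos (show ¬(g ∈ S (e a) ↔ g' ∈ S (e a)) from h0)]
    · rw [ind_neg h0, mul_zero, if_neg (show ¬¬(g ∈ S (e a) ↔ g' ∈ S (e a)) from h0)]
  have hds : ∀ g g', d g g' = d g' g := fun g g' => by
    rw [hd, hd, hsym g g', max_comm (h g), mul_comm (h g)]
  have hL : Lam fun a => S (e a) := fun a b => hlam _ _
  refine ⟨{
    N := 1, m := Fintype.card Wl, pos := one_pos, S := fun _ a => S (e a), w := fun _ a => w (e a),
    nr := fun _ _ => 0, err := fun _ _ _ _ => 0, top := fun _ _ r => r,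
    w_nonneg := fun _ => hw', lam := fun _ => hL, lo := fun _ g g' => by rw [hDT, add_zero],
    hi := fun g g' => by simp [hDT], nr_ge := fun _ g => ?_, nr1 := fun _ => by simp,
    nr2 := fun _ => by simp, err_nonneg := fun _ _ _ _ => le_rfl,
    err_avg := fun _ _ _ _ => by simp, chain := fun _ _ _ g x B hB => ?_,
    top_avg := fun _ r _ => by simp, top_ge := fun _ y g r hr => by rwa [hDT] }⟩
  · refine (sum_eq_zero fun a _ => ?_).le
    rw [ind_neg, mul_zero]
    rintro ⟨g1, g2, h1, h2, h3⟩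
    have := two_mul_le_gromov (fun a => w (e a)) (fun a => S (e a)) hw' g g1 g2 {a}
      fun c hc => by rw [mem_singleton.1 hc]; exact ⟨h1, h2⟩
    rw [sum_singleton, hDT, hDT, hDT, hds g g1] at this
    linarith [hw (e a)]
  · rcases B.eq_empty_or_nonempty with rfl | hne
    · exact Or.inl (by simp)
    obtain ⟨a, ha, hl⟩ := exists_last_wall _ hL g x B hne hB
    refine Or.inr ⟨a, ha, fun y y1 hy hy1 => ?_⟩
    have := two_mul_le_gromov (fun a => w (e a)) (fun a => S (e a)) hw' g y y1 B
      fun c hc => ⟨hl c hc y hy, hl c hc y1 hy1⟩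
    rw [hDT, hDT, hDT] at this
    linarith

end Pool.Agent.Lib.MP_abd417_co.W
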