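import Pool.Agent.Lib.MP_abd417_co.W.WallA

/-! abd417, step 7 (part B): the wall lemma at one virtual place. -/

namespace Pool.Agent.Lib.MP_abd417_co.WallK

open Finset

variable {F V W : Type*} [Fintype F] [DecidableEq V]

/-- weighted number of walls of `G` that separate -/
noncomputable def dG (w : W → ℝ) (S : W → F → Bool) (G : Finset W) (g h : F) : ℝ :=
  ∑ a ∈ G, w a * sep (S a) g h

omit [Fintype F] in
theorem dG_nonneg {w : W → ℝ} (hw : ∀ a, 0 ≤ w a) (S : W → F → Bool) (G : Finset W) (g h : F) :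
    0 ≤ dG w S G g h := sum_nonneg fun a _ => mul_nonneg (hw a) (sep_nonneg _ _ _)

omit [Fintype F] in
theorem dG_le {w : W → ℝ} (hw : ∀ a, 0 ≤ w a) (S : W → F → Bool) (G : Finset W) (g h : F) :
    dG w S G g h ≤ ∑ a ∈ G, w a :=
  sum_le_sum fun a _ => by simpa using mul_le_mul_of_nonneg_left (sep_le_one (S a) g h) (hw a)

theorem centered_le {ν : F → ℝ} (h1 : ∑ g, ν g = 1) (Z : F → ℝ) :
    ∑ g, ν g * (Z g - ∑ k, ν k * Z k) ^ 2 ≤ ∑ g, ν g * Z g ^ 2 := by
  set m := ∑ k, ν k * Z k with hm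
  have : ∀ g, ν g * (Z g - m) ^ 2 = ν g * Z g ^ 2 - 2 * m * (ν g * Z g) + ν g * m ^ 2 :=
    fun g => by ring
  simp_rw [this]
  rw [sum_add_distrib, sum_sub_distrib, ← mul_sum, ← sum_mul, h1, ← hm]
  nlinarith [sq_nonneg m]

theorem sum_sep {ν : F → ℝ} (h1 : ∑ g, ν g = 1) (s : F → Bool) (g : F) :
    ∑ x, ν x * sep s g x = (1 - sg (s g) * mean ν s) / 2 := by
  have : ∀ x, ν x * sep s g x = ν x * (1 / 2) - sg (s g) / 2 * (ν x * sg (s x)) := by
    intro x; rw [sep_eq]; ring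
  simp_rw [this]
  rw [sum_sub_distrib, ← sum_mul, ← mul_sum, h1]
  unfold mean; ring

theorem sum_sum_sep {ν : F → ℝ} (h1 : ∑ g, ν g = 1) (s : F → Bool) :
    ∑ g, ν g * ∑ x, ν x * sep s g x = var ν s / 2 := by
  have : ∀ g, ν g * ∑ x, ν x * sep s g x
      = ν g * (1 / 2) - mean ν s / 2 * (ν g * sg (s g)) := by
    intro g; rw [sum_sep h1]; ring
  simp_rw [this]
  rw [sum_sub_distrib, ← sum_mul, ← mul_sum, h1]
  unfold var
  change _ - mean ν s / 2 * mean ν s = _
  ring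

theorem mean_dG {ν : F → ℝ} (w : W → ℝ) (S : W → F → Bool) (G : Finset W) (g : F) :
    ∑ x, ν x * dG w S G g x = ∑ a ∈ G, w a * ∑ x, ν x * sep (S a) g x := by
  unfold dG
  simp_rw [mul_sum]
  rw [sum_comm]
  exact sum_congr rfl fun a _ => sum_congr rfl fun x _ => by ring

/-- the average variance of the wall distance -/
theorem spread {ν : F → ℝ} (hν : ∀ g, 0 ≤ ν g) (h1 : ∑ g, ν g = 1) {w : W → ℝ}
    (hw : ∀ a, 0 ≤ w a) (S : W → F → Bool) (G : Finset W)
    (lam : ∀ a ∈ G, ∀ c ∈ G, ∃ p q : Bool, ∀ g, ¬ (S a g = p ∧ S c g = q)) {b : ℝ} (hb : 0 ≤ b)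
    (hG : ∀ a ∈ G, b ≤ var ν (S a)) :
    (∑ a ∈ G, w a) ^ 2 * (b ^ 4 / 64)
      ≤ ∑ g, ν g * ∑ x, ν x * (dG w S G g x - ∑ k, ν k * dG w S G g k) ^ 2 := by
  set y : W → F → ℝ := fun a x => sg (S a x) - mean ν (S a) with hy
  have e1 : ∀ g x, dG w S G g x - ∑ k, ν k * dG w S G g k
      = -(1 / 2) * ∑ a ∈ G, w a * y a x * sg (S a g) := by
    intro g x
    rw [mean_dG, mul_sum]
    unfold dG
    rw [← sum_sub_distrib]
    refine sum_congr rfl fun a _ => ?_
    rw [sum_sep h1, sep_eq]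
    simp only [hy]; ring
  have e2 : ∑ g, ν g * ∑ x, ν x * (dG w S G g x - ∑ k, ν k * dG w S G g k) ^ 2
      = 1 / 4 * ∑ x, ν x * ∑ g, ν g * (∑ a ∈ G, w a * y a x * sg (S a g)) ^ 2 := by
    simp_rw [e1]
    rw [mul_sum]
    simp_rw [mul_sum (s := (univ : Finset F))]
    rw [sum_comm]
    exact sum_congr rfl fun x _ => sum_congr rfl fun g _ => by ring
  have e3 : ∀ x, ∑ g, ν g * (∑ a ∈ G, w a * y a x * y a g) ^ 2
      ≤ ∑ g, ν g * (∑ a ∈ G, w a * y a x * sg (S a g)) ^ 2 := by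
    intro x
    refine le_trans (le_of_eq ?_) (centered_le h1 _)
    refine sum_congr rfl fun g _ => ?_
    have : ∑ k, ν k * ∑ a ∈ G, w a * y a x * sg (S a k)
        = ∑ a ∈ G, w a * y a x * mean ν (S a) := by
      unfold mean
      simp_rw [mul_sum]
      rw [sum_comm]
      exact sum_congr rfl fun a _ => sum_congr rfl fun k _ => by ring
    rw [this, ← sum_sub_distrib]
    congr 2
    exact sum_congr rfl fun a _ => by simp only [hy]; ring
  have e4 : ∑ x, ν x * ∑ g, ν g * (∑ a ∈ G, w a * y a x * y a g) ^ 2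
      = ∑ a ∈ G, ∑ c ∈ G, w a * w c * cov ν (S a) (S c) ^ 2 := by
    have l : ∀ x, ν x * ∑ g, ν g * (∑ a ∈ G, w a * y a x * y a g) ^ 2
        = ∑ g, ∑ a ∈ G, ∑ c ∈ G, w a * w c * (ν x * (y a x * y c x) * (ν g * (y a g * y c g))) := by
      intro x
      rw [mul_sum]
      refine sum_congr rfl fun g _ => ?_
      rw [sq, sum_mul_sum, mul_sum, mul_sum]
      refine sum_congr rfl fun a _ => ?_
      rw [mul_sum, mul_sum]
      exact sum_congr rfl fun c _ => by ring
    have r : ∀ a c, w a * w c * cov ν (S a) (S c) ^ 2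
        = ∑ x, ∑ g, w a * w c * (ν x * (y a x * y c x) * (ν g * (y a g * y c g))) := by
      intro a c
      unfold cov
      rw [sq, sum_mul_sum, mul_sum]
      refine sum_congr rfl fun x _ => ?_
      rw [mul_sum]
    simp_rw [l, r]
    calc ∑ x, ∑ g, ∑ a ∈ G, ∑ c ∈ G,
            w a * w c * (ν x * (y a x * y c x) * (ν g * (y a g * y c g)))
        = ∑ x, ∑ a ∈ G, ∑ c ∈ G, ∑ g,
            w a * w c * (ν x * (y a x * y c x) * (ν g * (y a g * y c g))) := by
          refine sum_congr rfl fun x _ => ?_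
          rw [sum_comm]
          exact sum_congr rfl fun a _ => sum_comm
      _ = _ := by
          rw [sum_comm]
          exact sum_congr rfl fun a _ => sum_comm
  have e5 : (∑ a ∈ G, w a) ^ 2 * (b ^ 4 / 16)
      ≤ ∑ a ∈ G, ∑ c ∈ G, w a * w c * cov ν (S a) (S c) ^ 2 := by
    rw [sq, sum_mul_sum, sum_mul]
    refine sum_le_sum fun a ha => ?_
    rw [sum_mul]
    refine sum_le_sum fun c hc => ?_
    exact mul_le_mul_of_nonneg_left
      (cov_sq_ge hν h1 (lam a ha c hc) hb (hG a ha) (hG c hc)) (mul_nonneg (hw a) (hw c))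
  have e6 := sum_le_sum fun x (_ : x ∈ (univ : Finset F)) =>
    mul_le_mul_of_nonneg_left (e3 x) (hν x)
  rw [e2]
  linarith

/-- a tilted choice of the far point -/
theorem exists_tilt {ν : F → ℝ} (hν : ∀ g, 0 ≤ ν g) (h1 : ∑ g, ν g = 1) {w : W → ℝ}
    (hw : ∀ a, 0 ≤ w a) (S : W → F → Bool) (G : Finset W)
    (lam : ∀ a ∈ G, ∀ c ∈ G, ∃ p q : Bool, ∀ g, ¬ (S a g = p ∧ S c g = q)) {b : ℝ} (hb : 0 ≤ b)
    (hG : ∀ a ∈ G, b ≤ var ν (S a)) :
    ∃ q : F → F → ℝ, (∀ g x, 0 ≤ q g x) ∧ (∀ g x, q g x ≤ 2 * ν x) ∧ (∀ g, ∑ x, q g x = 1) ∧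
      (∑ a ∈ G, w a * var ν (S a)) / 2 + b ^ 4 / 64 * ∑ a ∈ G, w a
        ≤ ∑ g, ν g * ∑ x, q g x * dG w S G g x := by
  set M := ∑ a ∈ G, w a with hM
  have hM0 : 0 ≤ M := sum_nonneg fun a _ => hw a
  set μ : F → ℝ := fun g => ∑ k, ν k * dG w S G g k with hμ
  have μ0 : ∀ g, 0 ≤ μ g := fun g =>
    sum_nonneg fun k _ => mul_nonneg (hν k) (dG_nonneg hw S G g k)
  have μ1 : ∀ g, μ g ≤ M := by
    intro g
    have : μ g ≤ ∑ k, ν k * M :=
      sum_le_sum fun k _ => mul_le_mul_of_nonneg_left (dG_le hw S G g k) (hν k)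
    rwa [← sum_mul, h1, one_mul] at this
  have hmean : ∑ g, ν g * μ g = (∑ a ∈ G, w a * var ν (S a)) / 2 := by
    have : ∀ g, ν g * μ g = ∑ a ∈ G, w a * (ν g * ∑ x, ν x * sep (S a) g x) := by
      intro g
      simp only [hμ]
      rw [mean_dG, mul_sum]
      exact sum_congr rfl fun a _ => by ring
    simp_rw [this]
    rw [sum_comm, sum_div]
    refine sum_congr rfl fun a _ => ?_
    rw [← mul_sum, sum_sum_sep h1]; ring
  rcases hM0.eq_or_lt with h0 | hpos
  · refine ⟨fun _ x => ν x, fun _ x => hν x, fun _ x => by linarith [hν x], fun _ => h1, ?_⟩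
    rw [← h0, mul_zero, add_zero, ← hmean]
  · have hc : ∀ g, ∑ x, ν x * (dG w S G g x - μ g) = 0 := by
      intro g
      simp_rw [mul_sub]
      rw [sum_sub_distrib, ← sum_mul, h1, one_mul]
      exact sub_self _
    refine ⟨fun g x => ν x * (1 + (dG w S G g x - μ g) / M), fun g x => ?_, fun g x => ?_,
      fun g => ?_, ?_⟩
    · refine mul_nonneg (hν x) ?_
      have : -1 ≤ (dG w S G g x - μ g) / M := by
        rw [le_div_iff₀ hpos]
        linarith [dG_nonneg hw S G g x, μ1 g]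
      linarith
    · have : (dG w S G g x - μ g) / M ≤ 1 := by
        rw [div_le_iff₀ hpos]
        linarith [dG_le hw S G g x, μ0 g]
      nlinarith [hν x]
    · have : ∀ x, ν x * (1 + (dG w S G g x - μ g) / M)
          = ν x + ν x * (dG w S G g x - μ g) / M := fun x => by ring
      simp_rw [this]
      rw [sum_add_distrib, ← sum_div, hc, h1]; simp
    · have hs := spread hν h1 hw S G lam hb hG
      have e : ∀ g, ∑ x, ν x * (1 + (dG w S G g x - μ g) / M) * dG w S G g x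
          = μ g + (∑ x, ν x * (dG w S G g x - μ g) ^ 2) / M := by
        intro g
        have : ∀ x, ν x * (1 + (dG w S G g x - μ g) / M) * dG w S G g x
            = ν x * dG w S G g x + ν x * (dG w S G g x - μ g) ^ 2 / M
              + μ g / M * (ν x * (dG w S G g x - μ g)) := fun x => by ring
        simp_rw [this]
        rw [sum_add_distrib, sum_add_distrib, ← mul_sum, hc, ← sum_div]
        simp [hμ]
      simp_rw [e, mul_add]
      rw [sum_add_distrib, hmean]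
      have e' : ∑ g, ν g * ((∑ x, ν x * (dG w S G g x - μ g) ^ 2) / M)
          = (∑ g, ν g * ∑ x, ν x * (dG w S G g x - μ g) ^ 2) / M := by
        rw [sum_div]; exact sum_congr rfl fun g _ => by ring
      rw [e']
      have : b ^ 4 / 64 * M ≤ (∑ g, ν g * ∑ x, ν x * (dG w S G g x - μ g) ^ 2) / M := by
        rw [le_div_iff₀ hpos]
        calc b ^ 4 / 64 * M * M = M ^ 2 * (b ^ 4 / 64) := by ring
          _ ≤ _ := hs
      linarith

end Pool.Agent.Lib.MP_abd417_co.WallK
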