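import Pool.Agent.Lib.MP_abd417_co.W.Defs
import Pool.Agent.Lib.MP_abd417_co.W.WallB

/-! abd417, step 7: the wall lemma at one virtual place. -/

namespace Pool.Agent.Lib.MP_abd417_co.WallK

open Finset

variable {F V W : Type*} [Fintype F] [DecidableEq V]

theorem wall_core [Fintype W] [DecidableEq W] {ν : F → ℝ} (hν : ∀ g, 0 ≤ ν g)
    (h1 : ∑ g, ν g = 1) (u : Fin 3 → F → V) {w : W → ℝ} (hw : ∀ a, 0 ≤ w a) (S : W → F → Bool)
    (G : Finset W) (lam : ∀ a ∈ G, ∀ c ∈ G, ∃ p q : Bool, ∀ g, ¬ (S a g = p ∧ S c g = q))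
    (L : Fin 3 → F → F → ℝ) (err : F → F → ℝ) (herr : ∀ g x, 0 ≤ err g x) {b θ de : ℝ}
    (hb : 0 ≤ b) (hG : ∀ a ∈ G, b ≤ var ν (S a))
    (hθ : ∀ a ∈ G, mass ν (fun g => nocr u (S a) g ∨ near u (S a) g) ≤ θ)
    (hde : ∀ i, ∑ g, pr ν (u i) g g ≤ de)
    (hc : ∀ (i : Fin 3) (g h x : F) (B : Finset W), u i h = u i g → g ≠ h →
      (∀ a ∈ B, S a g ≠ S a x ∧ S a g = S a h ∧ (∃ j, j ≠ i ∧ cross (u j) (S a) g) ∧
        ∃ j, j ≠ i ∧ cross (u j) (S a) h) →
      L i g h ≤ 4 * dG w S univ g h - 2 * ∑ a ∈ B, w a + err g x) :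
    ∑ i, ∑ g, ∑ h, pr ν (u i) g h * (ind (g ≠ h) * L i g h)
      ≤ 2 * ∑ a ∈ Gᶜ, w a * var ν (S a) + 16 * ∑ a, w a * mass ν (near u (S a))
        - (b ^ 4 / 16 - 12 * θ - 6 * de) * ∑ a ∈ G, w a
        + 6 * ∑ g, ∑ x, ν g * ν x * err g x := by
  classical
  obtain ⟨q, q0, q2, q1, hq⟩ := exists_tilt hν h1 hw S G lam hb hG
  set M := ∑ a ∈ G, w a with hM
  set A : Fin 3 → F → F → ℝ := fun i g x =>
    ∑ a ∈ G, w a * (sep (S a) g x * (1 - ind (cross (u i) (S a) g))) with hA
  set N : F → ℝ := fun g => ∑ a ∈ G, w a * ind (nocr u (S a) g) with hN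
  have N0 : ∀ g, 0 ≤ N g := fun g => sum_nonneg fun a _ => mul_nonneg (hw a) (ind_nonneg _)
  have AM : ∀ i g x, A i g x ≤ M := by
    intro i g x
    refine sum_le_sum fun a _ => ?_
    have a1 := sep_le_one (S a) g x
    have a2 := sep_nonneg (S a) g x
    have a3 := ind_nonneg (cross (u i) (S a) g)
    have a4 : sep (S a) g x * (1 - ind (cross (u i) (S a) g)) ≤ 1 := by nlinarith
    nlinarith [hw a]
  have cA : ∀ i g h x, u i h = u i g → g ≠ h →
      L i g h ≤ 4 * dG w S univ g h - 2 * A i g x + 2 * N g + 2 * N h + err g x := by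
    intro i g h x e ne
    have hB := hc i g h x (G.filter fun a => S a g ≠ S a x ∧ ¬ cross (u i) (S a) g ∧
      ¬ nocr u (S a) g ∧ ¬ nocr u (S a) h) e ne (by
        intro a ha
        obtain ⟨-, s1, s2, s3, s4⟩ := mem_filter.1 ha
        have s5 : ¬ cross (u i) (S a) h := fun c => s2 ((cross_congr e).1 c)
        refine ⟨s1, ?_, ?_, ?_⟩
        · by_contra c
          exact s2 ⟨h, e, fun x => c x.symm⟩
        · by_contra c
          refine s3 fun j cj => c ⟨j, ?_, cj⟩
          rintro rfl
          exact s2 cj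
        · by_contra c
          refine s4 fun j cj => c ⟨j, ?_, cj⟩
          rintro rfl
          exact s5 cj)
    have hle : A i g x - N g - N h ≤ ∑ a ∈ G.filter fun a => S a g ≠ S a x ∧
        ¬ cross (u i) (S a) g ∧ ¬ nocr u (S a) g ∧ ¬ nocr u (S a) h, w a := by
      rw [sum_filter]
      simp only [hA, hN]
      rw [← sum_sub_distrib, ← sum_sub_distrib]
      refine sum_le_sum fun a _ => ?_
      have a1 := sep_le_one (S a) g x
      have a2 := sep_nonneg (S a) g x
      have a3 := ind_nonneg (cross (u i) (S a) g)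
      have a3' := ind_le_one (cross (u i) (S a) g)
      have a4 : sep (S a) g x * (1 - ind (cross (u i) (S a) g)) ≤ 1 := by nlinarith
      have a5 := ind_nonneg (nocr u (S a) g)
      have a6 := ind_nonneg (nocr u (S a) h)
      have a7 := hw a
      split_ifs with c
      · nlinarith
      · have : sep (S a) g x * (1 - ind (cross (u i) (S a) g)) - ind (nocr u (S a) g)
            - ind (nocr u (S a) h) ≤ 0 := by
          by_cases c1 : S a g = S a x
          · have : sep (S a) g x = 0 := by unfold sep; rw [if_pos c1]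
            rw [this]; linarith
          by_cases c2 : cross (u i) (S a) g
          · rw [ind_pos c2]; linarith
          by_cases c3 : nocr u (S a) g
          · rw [ind_pos c3]; linarith
          by_cases c4 : nocr u (S a) h
          · rw [ind_pos c4]; linarith
          exact absurd ⟨c1, c2, c3, c4⟩ c
        nlinarith
    linarith
  set T : Fin 3 → F → ℝ := fun i g => ∑ x, q g x * (err g x - 2 * A i g x) + 2 * N g with hT
  have avg : ∀ (g : F) (c : ℝ) (f : F → ℝ), (∀ x, c ≤ f x) → c ≤ ∑ x, q g x * f x := by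
    intro g c f hf
    calc c = ∑ x, q g x * c := by rw [← sum_mul, q1, one_mul]
      _ ≤ _ := sum_le_sum fun x _ => mul_le_mul_of_nonneg_left (hf x) (q0 g x)
  have cB : ∀ i g h, pr ν (u i) g h * (ind (g ≠ h) * L i g h)
      ≤ 4 * (pr ν (u i) g h * dG w S univ g h) + pr ν (u i) g h * T i g
        + pr ν (u i) g h * (2 * N h) + (if g = h then pr ν (u i) g g * (2 * M) else 0) := by
    intro i g h
    have p0 := pr_nonneg hν (u i) g h
    by_cases ne : g = h
    · subst ne
      rw [ind_neg (by simp), if_pos rfl]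
      have t1 := avg g (-2 * M) (fun x => err g x - 2 * A i g x)
        (fun x => by linarith [herr g x, AM i g x])
      have t2 : 0 ≤ 4 * dG w S univ g g + T i g + 2 * N g + 2 * M := by
        simp only [hT]
        linarith [dG_nonneg hw S univ g g, N0 g]
      nlinarith [mul_nonneg p0 t2]
    · rw [ind_pos ne, if_neg ne]
      by_cases e : u i h = u i g
      · have t1 := avg g (L i g h - 4 * dG w S univ g h - 2 * N g - 2 * N h)
          (fun x => err g x - 2 * A i g x) (fun x => by linarith [cA i g h x e ne])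
        have t2 : L i g h ≤ 4 * dG w S univ g h + T i g + 2 * N h := by
          simp only [hT]; linarith
        nlinarith [mul_le_mul_of_nonneg_left t2 p0]
      · have : pr ν (u i) g h = 0 := by unfold pr; rw [if_neg e]
        rw [this]; simp
  have M0 : 0 ≤ M := sum_nonneg fun a _ => hw a
  have cC : ∀ i, ∑ g, ∑ h, pr ν (u i) g h * (ind (g ≠ h) * L i g h)
      ≤ 4 * ∑ g, ∑ h, pr ν (u i) g h * dG w S univ g h + ∑ g, ν g * T i g
        + ∑ g, ν g * (2 * N g) + de * (2 * M) := by
    intro i
    have s1 := sum_le_sum fun g (_ : g ∈ (univ : Finset F)) =>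
      sum_le_sum fun h (_ : h ∈ (univ : Finset F)) => cB i g h
    simp only [sum_add_distrib, ← mul_sum, sum_ite_eq, mem_univ, if_true] at s1
    rw [pr_fst hν (u i) (T i), pr_snd hν (u i) (fun h => 2 * N h), ← sum_mul] at s1
    have := mul_le_mul_of_nonneg_right (hde i) (by linarith : 0 ≤ 2 * M)
    linarith
  have c1 : ∑ i, ∑ g, ∑ h, pr ν (u i) g h * dG w S univ g h
      ≤ ∑ a, w a * (var ν (S a) / 2 + 4 * mass ν (near u (S a))) := by
    have : ∑ i, ∑ g, ∑ h, pr ν (u i) g h * dG w S univ g h
        = ∑ a, w a * ∑ i, ∑ g, ∑ h, pr ν (u i) g h * sep (S a) g h := by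
      unfold dG
      simp_rw [mul_sum]
      symm
      rw [sum_comm]
      refine sum_congr rfl fun i _ => ?_
      rw [sum_comm]
      refine sum_congr rfl fun g _ => ?_
      rw [sum_comm]
      exact sum_congr rfl fun h _ => sum_congr rfl fun a _ => by ring
    rw [this]
    exact sum_le_sum fun a _ => mul_le_mul_of_nonneg_left (cost hν h1 u (S a)) (hw a)
  set Nr : F → ℝ := fun g => ∑ a ∈ G, w a * ind (near u (S a) g) with hNr
  have c2 : ∀ g, ∑ i, T i g ≤ 6 * ∑ x, ν x * err g x - 4 * ∑ x, q g x * dG w S G g x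
      + 4 * Nr g + 6 * N g := by
    intro g
    have k1 : ∀ x, 2 * dG w S G g x - 2 * Nr g ≤ A 0 g x + A 1 g x + A 2 g x := by
      intro x
      simp only [hA, hNr]
      unfold dG
      rw [mul_sum, mul_sum, ← sum_sub_distrib, ← sum_add_distrib, ← sum_add_distrib]
      refine sum_le_sum fun a _ => ?_
      have a1 := sum_cross_le u (S a) g
      rw [Fin.sum_univ_three] at a1
      have a2 := sep_le_one (S a) g x
      have a3 := sep_nonneg (S a) g x
      have a4 := ind_nonneg (near u (S a) g)
      have a5 : 2 * sep (S a) g x - 2 * ind (near u (S a) g)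
          ≤ sep (S a) g x * (1 - ind (cross (u 0) (S a) g))
            + sep (S a) g x * (1 - ind (cross (u 1) (S a) g))
            + sep (S a) g x * (1 - ind (cross (u 2) (S a) g)) := by
        nlinarith [mul_le_mul_of_nonneg_left a1 a3, mul_le_mul_of_nonneg_right a2 a4]
      nlinarith [mul_le_mul_of_nonneg_left a5 (hw a)]
    have k2 : ∑ x, q g x * (err g x - 2 * A 0 g x) + ∑ x, q g x * (err g x - 2 * A 1 g x)
        + ∑ x, q g x * (err g x - 2 * A 2 g x)
        ≤ 6 * ∑ x, ν x * err g x - 4 * ∑ x, q g x * dG w S G g x + ∑ x, q g x * (4 * Nr g) := by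
      rw [mul_sum, mul_sum, ← sum_sub_distrib, ← sum_add_distrib, ← sum_add_distrib,
        ← sum_add_distrib]
      refine sum_le_sum fun x _ => ?_
      nlinarith [mul_le_mul_of_nonneg_left (k1 x) (q0 g x),
        mul_le_mul_of_nonneg_right (q2 g x) (herr g x)]
    rw [← sum_mul, q1] at k2
    rw [Fin.sum_univ_three]
    simp only [hT]
    linarith
  have c3 : ∑ i, ∑ g, ν g * T i g ≤ 6 * ∑ g, ∑ x, ν g * ν x * err g x
      - 4 * ∑ g, ν g * ∑ x, q g x * dG w S G g x + ∑ g, ν g * (4 * Nr g + 6 * N g) := by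
    rw [sum_comm, mul_sum, mul_sum, ← sum_sub_distrib, ← sum_add_distrib]
    refine sum_le_sum fun g _ => ?_
    have e : ∑ x, ν g * ν x * err g x = ν g * ∑ x, ν x * err g x := by
      rw [mul_sum]; exact sum_congr rfl fun x _ => by ring
    rw [← mul_sum, e]
    nlinarith [mul_le_mul_of_nonneg_left (c2 g) (hν g)]
  have c4 : ∑ g, ν g * (4 * Nr g + 6 * N g) + 3 * ∑ g, ν g * (2 * N g) ≤ 12 * θ * M := by
    have k1 : ∑ g, ν g * (4 * Nr g + 6 * N g) + 3 * ∑ g, ν g * (2 * N g)
        ≤ ∑ g, ∑ a ∈ G, w a * (12 * (ν g * ind (nocr u (S a) g ∨ near u (S a) g))) := by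
      rw [mul_sum, ← sum_add_distrib]
      refine sum_le_sum fun g _ => ?_
      have : ν g * (4 * Nr g + 6 * N g) + 3 * (ν g * (2 * N g))
          = ∑ a ∈ G, w a * (ν g * (4 * ind (near u (S a) g) + 12 * ind (nocr u (S a) g))) := by
        have : ν g * (4 * Nr g + 6 * N g) + 3 * (ν g * (2 * N g))
          = ν g * 4 * Nr g + ν g * 12 * N g := by ring
        rw [this]
        simp only [hNr, hN]
        rw [mul_sum, mul_sum, ← sum_add_distrib]
        exact sum_congr rfl fun a _ => by ring
      rw [this]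
      refine sum_le_sum fun a _ => mul_le_mul_of_nonneg_left ?_ (hw a)
      have a1 : 4 * ind (near u (S a) g) + 12 * ind (nocr u (S a) g)
          ≤ 12 * ind (nocr u (S a) g ∨ near u (S a) g) := by
        by_cases n1 : nocr u (S a) g
        · have n2 : ¬ near u (S a) g := fun ⟨i, _, _, ci, _⟩ => n1 i ci
          rw [ind_pos n1, ind_neg n2, ind_pos (Or.inl n1)]; norm_num
        · by_cases n2 : near u (S a) g
          · rw [ind_neg n1, ind_pos n2, ind_pos (Or.inr n2)]; norm_num
          · rw [ind_neg n1, ind_neg n2]; linarith [ind_nonneg (nocr u (S a) g ∨ near u (S a) g)]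
      nlinarith [mul_le_mul_of_nonneg_left a1 (hν g)]
    refine k1.trans ?_
    rw [sum_comm, hM, mul_sum]
    refine sum_le_sum fun a ha => ?_
    rw [← mul_sum, ← mul_sum]
    have := hθ a ha
    unfold mass at this
    nlinarith [mul_le_mul_of_nonneg_left this (hw a)]
  have c5 : ∑ a, w a * (var ν (S a) / 2 + 4 * mass ν (near u (S a)))
      = (∑ a ∈ G, w a * var ν (S a)) / 2 + (∑ a ∈ Gᶜ, w a * var ν (S a)) / 2
        + 4 * ∑ a, w a * mass ν (near u (S a)) := by
    rw [← add_div, sum_add_sum_compl, sum_div, mul_sum, ← sum_add_distrib]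
    exact sum_congr rfl fun a _ => by ring
  have d0 := cC 0
  have d1 := cC 1
  have d2 := cC 2
  rw [Fin.sum_univ_three] at c1 c3 ⊢
  linarith

end Pool.Agent.Lib.MP_abd417_co.WallK

namespace Pool.Agent.Lib.MP_abd417_co.W

open Finset

theorem ind_eq_K (p : Prop) : ind p = WallK.ind p := rfl

/-- Step 7. -/
theorem wall : WallSt := by
  intro F V Wl _ _ _ u nu w S L err b de G hν h1 hw lam herr hc hb hG hde
  classical
  set s : Wl → F → Bool := fun a g => decide (g ∈ S a) with hs
  have hsep : ∀ a g h, Sep (S a) g h ↔ s a g ≠ s a h := by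
    intro a g h
    simp only [hs, Sep, ne_eq, decide_eq_decide]
  have hcr : ∀ a i g, Cross u (S a) i g ↔ WallK.cross (u i) (s a) g := by
    intro a i g
    simp only [Cross, WallK.cross, hsep, ne_comm]
  have hnr : ∀ a g, Near u (S a) g ↔ WallK.near u (s a) g := by
    intro a g
    simp only [Near, WallK.near, hcr]
  have hno : ∀ a g, NoCr u (S a) g ↔ WallK.nocr u (s a) g := by
    intro a g
    simp only [NoCr, WallK.nocr, hcr]
  have hvr : ∀ a, vr nu (S a) = WallK.var nu (s a) := by
    intro a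
    rw [WallK.var_eq_mass h1]
    have : ms nu (· ∈ S a) = WallK.mass nu (fun g => s a g = true) :=
      sum_congr rfl fun g _ => by
        rw [← ind_eq_K]
        congr 1
        exact ind_congr (by simp [hs])
    unfold vr
    rw [this]
  have hpr : ∀ i g h, pr nu u i g h = WallK.pr nu (u i) g h := by
    intro i g h
    have : ms nu (fun x => u i x = u i g) = WallK.star nu (u i) g :=
      sum_congr rfl fun x _ => by
        by_cases e : u i x = u i g
        · rw [ind_pos e, if_pos e, mul_one]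
        · rw [ind_neg e, if_neg e, mul_zero]
    unfold pr WallK.pr
    rw [this]
    by_cases e : u i h = u i g
    · rw [ind_pos e, if_pos e, one_mul]
    · rw [ind_neg e, if_neg e, zero_mul]
  have hDT : ∀ g h, DT w S g h = WallK.dG w s univ g h := by
    intro g h
    refine sum_congr rfl fun a _ => ?_
    unfold WallK.sep
    by_cases e : s a g = s a h
    · rw [if_pos e, ind_neg (fun c => (hsep a g h).1 c e)]
    · rw [if_neg e, ind_pos ((hsep a g h).2 e)]
  have main := WallK.wall_core hν h1 u hw s G (θ := b ^ 4 / 400) (de := de)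
    (by
      intro a _ c _
      rcases lam a c with h | h | h
      · exact ⟨true, false, fun g => by simpa [hs] using fun x => h x⟩
      · exact ⟨false, true, fun g => by simpa [hs] using fun x y => x (h y)⟩
      · exact ⟨true, true, fun g => by simpa [hs] using fun x => disjoint_left.1 h x⟩)
    L err herr hb (fun a ha => hvr a ▸ (hG a ha).1)
    (by
      intro a ha
      refine le_trans (le_of_eq ?_) (hG a ha).2
      refine sum_congr rfl fun g _ => ?_
      rw [← ind_eq_K]
      congr 1
      exact ind_congr (or_congr (hno a g).symm (hnr a g).symm))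
    (fun i => by simpa only [hpr] using hde i)
    (by
      intro i g h x B e ne hB
      rw [← hDT]
      refine hc i g h x B e ne fun a ha => ?_
      obtain ⟨b1, b2, b3, b4⟩ := hB a ha
      refine ⟨(hsep a g x).2 b1, fun c => (hsep a g h).1 c b2, ?_, ?_⟩
      · simpa only [hcr] using b3
      · simpa only [hcr] using b4)
  have hnw : ∑ g, nu g * nearW u w S g = ∑ a, w a * WallK.mass nu (WallK.near u (s a)) := by
    unfold nearW WallK.mass
    simp_rw [mul_sum]
    rw [sum_comm]
    refine sum_congr rfl fun a _ => sum_congr rfl fun g _ => ?_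
    rw [← ind_eq_K, ind_congr (hnr a g)]
    ring
  have hM : 0 ≤ ∑ a ∈ G, w a := sum_nonneg fun a _ => hw a
  have hb4 : 0 ≤ b ^ 4 := by positivity
  unfold EL E2
  simp only [hpr, hvr, ind_eq_K]
  rw [hnw]
  nlinarith [mul_nonneg hb4 hM]

end Pool.Agent.Lib.MP_abd417_co.W
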