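import Pool.Agent.Lib.MP_abd417_co.W.Defs
import Pool.Agent.Lib.MP_abd417_co.U.AlgB

/-! The algebraic facts at one place in logarithmic form. -/

namespace Pool.Agent.Lib.MP_abd417_co.W

open Pool.Agent.Lib.MP_abd417_co.U.Alg

variable {K : Type} [Field K] {F V : Type}

/-- Distance of two frames at the place `v`. -/
noncomputable def dv (v : AbsoluteValue K ℝ) (G : F → Fin 3 → Fin 3 → K) (g h : F) : ℝ :=
  Real.log (mx v (G g) (G h))

/-- Logarithm of the size of the invariant of two mates. -/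
noncomputable def Lv (v : AbsoluteValue K ℝ) (G : F → Fin 3 → Fin 3 → K) (i : Fin 3) (g h : F) :
    ℝ := Real.log (v (Th i (G g) (G h)))

theorem mx_pos {v : AbsoluteValue K ℝ} {ka : ℝ} (T : Tri v ka) {g h : Fin 3 → Fin 3 → K}
    (hg : IsFr g) (hh : IsFr h) : 0 < mx v g h := by
  have h1 := one_le_mx T hg hh
  have h0 := mx_nonneg (v := v) g h
  rcases h0.lt_or_eq with h2 | h2
  · exact h2
  · rw [← h2] at h1; norm_num at h1

theorem alg_of {v : AbsoluteValue K ℝ} {ka : ℝ} (T : Tri v ka) (u : Fin 3 → F → V)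
    (G : F → Fin 3 → Fin 3 → K) (hG : ∀ g, IsFr (G g))
    (hu : ∀ i g g1, u i g1 = u i g → G g1 i = G g i)
    (hT : ∀ i g g1, u i g1 = u i g → g ≠ g1 → Th i (G g) (G g1) ≠ 0) :
    Alg u (dv v G) (Lv v G) (3 * Real.log ka) := by
  have hk : 0 < ka := by linarith [T.1]
  have hl : 0 ≤ Real.log ka := Real.log_nonneg T.1
  have hp : ∀ g h, 0 < mx v (G g) (G h) := fun g h => mx_pos T (hG g) (hG h)
  refine ⟨fun g h => by unfold dv; rw [mx_comm], fun g h k => ?_, fun j k g g1 g2 hjk e1 e2 => ?_,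
    fun i g g1 e hne => ?_, fun i j k g g1 h h1 e hne hj hk' ej ek => ?_⟩
  · have := Real.log_le_log (hp g k) (mx_tri T (hG h) (G g) (G k))
    rw [Real.log_mul (by positivity) (mul_pos (hp g h) (hp h k)).ne',
      Real.log_mul (hp g h).ne' (hp h k).ne', Real.log_pow] at this
    unfold dv
    push_cast at this
    linarith
  · have := Real.log_le_log (mul_pos (hp g1 g) (hp g g2))
      (G1 T (hG g) (hG g1) (hG g2) hjk (hu _ _ _ e1) (hu _ _ _ e2))
    rw [Real.log_mul (hp g1 g).ne' (hp g g2).ne', Real.log_mul (by positivity) (hp g1 g2).ne',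
      Real.log_pow] at this
    unfold dv
    push_cast at this
    linarith
  · have := Real.log_le_log (v.pos (hT i g g1 e hne)) (Th_le (hG g) (hG g1) (hu _ _ _ e))
    rw [Real.log_pow] at this
    unfold dv Lv
    push_cast at this
    linarith
  · have h0 := v.pos (hT i g g1 e hne)
    have := Real.log_le_log (mul_pos h0 (mul_pos (hp g h) (hp g1 h1)))
      (G2 T (hG g) (hG g1) (hG h) (hG h1) (hu _ _ _ e) hj.symm hk'.symm (hu _ _ _ ej)
        (hu _ _ _ ek))
    rw [Real.log_mul h0.ne' (mul_pos (hp g h) (hp g1 h1)).ne',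
      Real.log_mul (hp g h).ne' (hp g1 h1).ne',
      Real.log_mul (by positivity) (mul_pos (pow_pos (hp g g1) 3) (hp h h1)).ne',
      Real.log_mul (pow_pos (hp g g1) 3).ne' (hp h h1).ne', Real.log_pow, Real.log_pow] at this
    unfold dv Lv
    push_cast at this
    linarith

theorem Alg.mono {u : Fin 3 → F → V} {d : F → F → ℝ} {L : Fin 3 → F → F → ℝ} {c c' : ℝ}
    (A : Alg u d L c) (h : c ≤ c') : Alg u d L c' :=
  ⟨A.symm, fun g h' k => by linarith [A.tri g h' k],
    fun j k g g1 g2 a b e => by linarith [A.g1 j k g g1 g2 a b e],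
    fun i g g1 a b => by linarith [A.g0 i g g1 a b],
    fun i j k g g1 h' h1 a b e f p q => by linarith [A.g2 i j k g g1 h' h1 a b e f p q]⟩

end Pool.Agent.Lib.MP_abd417_co.W
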