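import Pool.Agent.Lib.MP_abd417_co.Up.Conf
import Pool.Agent.Lib.MP_abd417_co.Up.Asm
import Pool.Agent.Lib.MP_abd417_co.W.Defs

/-! Step 9 for a configuration: product formula, spread, diagonal and the assembly over places. -/

namespace Pool.Agent.Lib.MP_abd417_co.W

open Finset Pool.Agent.Lib.MP_abd417_co.Up

/-- The product formula under the mate law. -/
theorem pf_EL (c : Conf) (nu : c.Fr → ℝ)
    (hpf : ∀ i g h, c.ax i h = c.ax i g → g ≠ h →
      ∑ p, c.w p * Real.log (c.v p (c.th i g h)) = 0) :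
    ∑ p, c.w p * EL nu c.ax (fun i g h => Real.log (c.v p (c.th i g h))) = 0 := by
  have := AbdUp.Asm.product c.w (fun i g h => pr nu c.ax i g h * ind (g ≠ h))
    (fun p i g h => Real.log (c.v p (c.th i g h))) (fun i g h h0 => by
      refine hpf i g h ?_ ?_
      · by_contra hn
        exact h0 (by simp only [pr, ind_neg hn, zero_mul])
      · intro hn
        exact h0 (by rw [ind_neg (p := g ≠ h) (fun e => e hn), mul_zero]))
  simpa only [EL, mul_assoc] using this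

/-- Mean global distance as a weighted sum of the mean local distances. -/
theorem E2_dist (c : Conf) (nu : c.Fr → ℝ) (h1 : ∑ g, nu g = 1) :
    E2 nu c.dist = ∑ p, c.w p * E2 nu (c.d p) + 2 := by
  have h2 : ∑ g, ∑ x, nu g * nu x * 2 = 2 := by
    simp only [← sum_mul, ← mul_sum, h1, one_mul]
  unfold E2 Conf.dist
  simp only [mul_add, sum_add_distrib, h2, mul_sum]
  congr 1
  rw [sum_comm (s := (univ : Finset c.Pl))]
  refine sum_congr rfl fun g _ => ?_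
  rw [sum_comm (s := (univ : Finset c.Pl))]
  exact sum_congr rfl fun x _ => sum_congr rfl fun p _ => by ring

theorem card_pos (c : Conf) {n : ℕ} {M R ka : ℝ} (hG : c.Good n M R ka) (hn : 1 ≤ n) :
    (0 : ℝ) < Fintype.card c.Fr :=
  lt_of_lt_of_le (Real.rpow_pos_of_pos (by exact_mod_cast hn) _) hG.many

/-- Spread of a law whose atoms are at most `1 / (tau * card)`. -/
theorem spread_conf (c : Conf) {n : ℕ} {M R ka tau : ℝ} (hG : c.Good n M R ka) (hn : 1 ≤ n)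
    (hd : ∀ g h, 0 ≤ c.dist g h) (nu : c.Fr → ℝ) (h0 : ∀ g, 0 ≤ nu g) (h1 : ∑ g, nu g = 1)
    (htau : 0 < tau) (hat : ∀ g, nu g ≤ 1 / (tau * Fintype.card c.Fr))
    (hk : (n : ℝ) ^ (-ka) ≤ tau / 2) :
    1 / 4 * R - 2 ≤ ∑ p, c.w p * E2 nu (c.d p) := by
  have hc := card_pos c hG hn
  have hR := hG.one_le
  have := AbdUp.Asm.spread_law nu c.dist (R / 2) h0 h1 hd (by linarith) (fun g => by
    calc ∑ h, (if c.dist g h ≤ R / 2 then nu h else 0)
        ≤ ∑ h, (if c.dist g h ≤ R / 2 then 1 / (tau * Fintype.card c.Fr) else 0) :=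
          sum_le_sum fun h _ => by split_ifs <;> [exact hat h; exact le_rfl]
      _ = (#{h : c.Fr | c.dist g h ≤ R / 2} : ℝ) * (1 / (tau * Fintype.card c.Fr)) := by
          rw [← sum_filter, sum_const, nsmul_eq_mul]
      _ ≤ (tau / 2 * Fintype.card c.Fr) * (1 / (tau * Fintype.card c.Fr)) :=
          mul_le_mul_of_nonneg_right
            ((hG.light g).trans (mul_le_mul_of_nonneg_right hk hc.le)) (by positivity)
      _ = 1 / 2 := by field_simp)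
  have h2 := E2_dist c nu h1
  unfold E2 at h2 ⊢
  linarith

/-- The diagonal of the mate law. -/
theorem diag_conf (c : Conf) {n : ℕ} {M R ka tau : ℝ} (hG : c.Good n M R ka) (hn : 1 ≤ n)
    (hM : 1 ≤ M) (hka : 0 ≤ ka) (nu : c.Fr → ℝ) (h0 : ∀ g, 0 ≤ nu g)
    (htau : (n : ℝ) ^ (-ka) ≤ tau) (hat : ∀ g, nu g ≤ 1 / (tau * Fintype.card c.Fr))
    (i : Fin 3) : ∑ g, pr nu c.ax i g g ≤ (n : ℝ) ^ (-(1 / 4) : ℝ) := by
  have hc := card_pos c hG hn
  have hn1 : (1 : ℝ) ≤ n := by exact_mod_cast hn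
  have hn0 : (0 : ℝ) < n := by linarith
  have ht0 : 0 < tau := lt_of_lt_of_le (Real.rpow_pos_of_pos hn0 _) htau
  have h1 := AbdUp.Asm.diag (c.ax i) nu _ h0 hat (by positivity) univ (fun _ => mem_univ _)
  have h2 : ∑ g, pr nu c.ax i g g
      = ∑ g, nu g * nu g / (∑ h, if c.ax i h = c.ax i g then nu h else 0) := by
    refine sum_congr rfl fun g _ => ?_
    have : ms nu (fun x => c.ax i x = c.ax i g)
        = ∑ h, if c.ax i h = c.ax i g then nu h else 0 := by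
      refine sum_congr rfl fun h _ => ?_
      by_cases e : c.ax i h = c.ax i g
      · rw [ind_pos e, if_pos e, mul_one]
      · rw [ind_neg e, if_neg e, mul_zero]
    rw [pr, ind_pos rfl, one_mul, this]
  rw [h2]
  refine h1.trans ?_
  have h3 : ((univ : Finset c.io).card : ℝ) ≤ n := by exact_mod_cast hG.card_io
  have h4 : (n : ℝ) ^ (5 / 4 : ℝ) ≤ tau * Fintype.card c.Fr := by
    have hk := hG.ka_le
    have hkM : ka / M ≤ ka := div_le_self hka hM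
    calc (n : ℝ) ^ (5 / 4 : ℝ) ≤ (n : ℝ) ^ (-ka + (4 / 3 - ka / M)) :=
          Real.rpow_le_rpow_of_exponent_le hn1 (by linarith)
      _ = (n : ℝ) ^ (-ka) * (n : ℝ) ^ (4 / 3 - ka / M) := Real.rpow_add hn0 _ _
      _ ≤ _ := mul_le_mul htau hG.many (by positivity) ht0.le
  calc ((univ : Finset c.io).card : ℝ) * (1 / (tau * Fintype.card c.Fr))
      ≤ n * (1 / (n : ℝ) ^ (5 / 4 : ℝ)) :=
        mul_le_mul h3 (one_div_le_one_div_of_le (by positivity) h4) (by positivity) hn0.le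
    _ = (n : ℝ) ^ (-(1 / 4) : ℝ) := by
        rw [show (-(1 / 4) : ℝ) = 1 - 5 / 4 by norm_num, Real.rpow_sub hn0, Real.rpow_one]
        ring

/-- The normalised law of a part `mu` of the uniform measure. -/
theorem law_of (F : Type) [Fintype F] (mu : F → ℝ) (tau : ℝ) (htau : 0 < tau)
    (h0 : ∀ g, 0 ≤ mu g) (hle : ∀ g, mu g ≤ 1 / (Fintype.card F : ℝ)) (hm : tau ≤ ∑ g, mu g) :
    (∀ g, 0 ≤ mu g / ∑ x, mu x) ∧ ∑ g, mu g / ∑ x, mu x = 1 ∧
      ∀ g, mu g / ∑ x, mu x ≤ 1 / (tau * Fintype.card F) := by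
  have hm0 : 0 < ∑ g, mu g := lt_of_lt_of_le htau hm
  refine ⟨fun g => div_nonneg (h0 g) hm0.le, by rw [← sum_div, div_self hm0.ne'], fun g => ?_⟩
  calc mu g / ∑ x, mu x ≤ (1 / (Fintype.card F : ℝ)) / tau :=
        div_le_div₀ (by positivity) (hle g) htau hm
    _ = _ := by rw [div_div, mul_comm]

/-- Large `n`: the light mass is below half of the threshold and the diagonal is small. -/
theorem big_n (k0 de : ℝ) (hk : 0 < k0) (hde : 0 < de) : ∃ n0 : ℕ, ∀ n : ℕ, n0 ≤ n → 1 ≤ n ∧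
    (n : ℝ) ^ (-(1 / 4) : ℝ) ≤ de ∧ ∀ ka, k0 ≤ ka →
      (n : ℝ) ^ (-ka) ≤ (n : ℝ) ^ (-(ka / 2)) / 2 := by
  have t1 := (tendsto_rpow_neg_atTop (y := 1 / 4) (by norm_num)).comp
    tendsto_natCast_atTop_atTop
  have t2 := (tendsto_rpow_neg_atTop (y := k0 / 2) (by linarith)).comp
    tendsto_natCast_atTop_atTop
  obtain ⟨a, ha⟩ := Filter.eventually_atTop.1 (t1.eventually (ge_mem_nhds hde))
  obtain ⟨b, hb⟩ := Filter.eventually_atTop.1
    (t2.eventually (ge_mem_nhds (by norm_num : (0 : ℝ) < 1 / 2)))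
  refine ⟨max 1 (max a b), fun n hn => ?_⟩
  have h1 : 1 ≤ n := le_of_max_le_left hn
  have hn1 : (1 : ℝ) ≤ n := by exact_mod_cast h1
  have hn0 : (0 : ℝ) < n := by linarith
  refine ⟨h1, ha n (le_of_max_le_left (le_of_max_le_right hn)), fun ka hka => ?_⟩
  have h2 : (n : ℝ) ^ (-(ka / 2)) ≤ 1 / 2 :=
    (Real.rpow_le_rpow_of_exponent_le hn1 (by linarith)).trans
      (hb n (le_of_max_le_right (le_of_max_le_right hn)))
  calc (n : ℝ) ^ (-ka) = (n : ℝ) ^ (-(ka / 2)) * (n : ℝ) ^ (-(ka / 2)) := by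
        rw [← Real.rpow_add hn0]; congr 1; ring
    _ ≤ (n : ℝ) ^ (-(ka / 2)) * (1 / 2) := mul_le_mul_of_nonneg_left h2 (by positivity)
    _ = _ := by ring

/-- Step 9. -/
theorem nine (al be C ga c2 ep L0 : ℝ) (hal : 0 < al) (hbe : 0 < be) (hC : 2 ≤ C)
    (hga : 0 < ga) (hc2 : 0 < c2) (hep : 0 ≤ ep) (hep2 : 2 * ep ≤ be)
    (hL0 : (1 + ep) * C + c2 ≤ be / 2 * L0) :
    ∃ c5 : ℝ, 0 < c5 ∧ ∀ (c : Conf) (n : ℕ) (M R ka tau : ℝ), c.Good n M R ka → 1 ≤ n →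
      (∀ g h, 0 ≤ c.dist g h) →
      (∀ i g h, c.ax i h = c.ax i g → g ≠ h →
        ∑ p, c.w p * Real.log (c.v p (c.th i g h)) = 0) →
      0 < tau → (n : ℝ) ^ (-ka) ≤ tau / 2 →
      ∀ (nu : c.Fr → ℝ), (∀ g, 0 ≤ nu g) → ∑ g, nu g = 1 →
      (∀ g, nu g ≤ 1 / (tau * Fintype.card c.Fr)) →
      ∀ (W Bad : c.Pl → ℝ) (fine : c.Pl → Prop), (∀ p, 0 ≤ W p) → (∀ p, 0 ≤ Bad p) →
      (∀ p, EL nu c.ax (fun i g h => Real.log (c.v p (c.th i g h))) ≤
        al * Bad p - be * W p + ep * E2 nu (c.d p) + (if c.arch p = true then C else 0)) →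
      (∀ p, E2 nu (c.d p) ≤ W p + al * Bad p + (if c.arch p = true then C else 0)) →
      (∀ p, c.arch p = true → W p ≤ L0 → Bad p ≤ ga →
        fine p ∨ EL nu c.ax (fun i g h => Real.log (c.v p (c.th i g h))) ≤ -c2) →
      c5 * R ≤ ∑ p, c.w p * Bad p + ∑ p, c.w p * ind (c.arch p = true ∧ fine p) := by
  classical
  obtain ⟨c5, hc5, H⟩ := AbdUp.Asm.numeric' al be C (1 / 4) ga c2 ep L0 hal hbe (by linarith)
    (by norm_num) hga hc2 hep hep2 hL0
  refine ⟨c5, hc5, ?_⟩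
  intro c n M R ka tau hG hn hd hpf htau hk nu h0 h1 hat W Bad fine hW hB a1 a2 a3
  have := H c.Pl c.w (fun p => EL nu c.ax (fun i g h => Real.log (c.v p (c.th i g h))))
    (fun p => E2 nu (c.d p)) W Bad (fun p => c.arch p = true) fine R (fun p => (c.wpos p).le) hW hB
    (by rw [← sum_filter]; exact c.wsum) (pf_EL c nu hpf).ge
    (by linarith [spread_conf c hG hn hd nu h0 h1 htau hat hk]) a1 a2 a3
  refine this.trans_eq ?_
  congr 1
  refine sum_congr rfl fun p _ => ?_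
  by_cases e : c.arch p = true ∧ fine p
  · rw [if_pos e, ind_pos e, mul_one]
  · rw [if_neg e, ind_neg e, mul_zero]

/-- Step 9 with all numbers, for a part `mu` of the uniform measure of mass `≥ n ^ (-ka / 2)`. -/
theorem nine0 (al be K : ℝ) (hal : 0 < al) (hbe : 0 < be) (hK : 0 ≤ K) :
    ∃ L0 : ℝ, 0 ≤ L0 ∧ ∀ ga : ℝ, 0 < ga → ∃ c5 : ℝ, 0 < c5 ∧ ∀ k0 de : ℝ, 0 < k0 → 0 < de →
      ∃ n0 : ℕ, ∀ n : ℕ, n0 ≤ n → ∀ (c : Conf) (M R ka : ℝ), 1 ≤ M → k0 ≤ ka → c.Good n M R ka →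
      (∀ g h, 0 ≤ c.dist g h) →
      (∀ i g h, c.ax i h = c.ax i g → g ≠ h →
        ∑ p, c.w p * Real.log (c.v p (c.th i g h)) = 0) →
      ∀ mu : c.Fr → ℝ, (∀ g, 0 ≤ mu g) → (∀ g, mu g ≤ 1 / (Fintype.card c.Fr : ℝ)) →
      (n : ℝ) ^ (-(ka / 2)) ≤ ∑ g, mu g → ∀ nu : c.Fr → ℝ, (∀ g, nu g = mu g / ∑ x, mu x) →
      0 < ∑ g, mu g ∧ (∀ g, 0 ≤ nu g) ∧ ∑ g, nu g = 1 ∧ (∀ i, ∑ g, pr nu c.ax i g g ≤ de) ∧
      ∀ (W Bad : c.Pl → ℝ) (fine : c.Pl → Prop), (∀ p, 0 ≤ W p) → (∀ p, 0 ≤ Bad p) →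
      (∀ p, EL nu c.ax (fun i g h => Real.log (c.v p (c.th i g h))) ≤
        al * Bad p - be * W p + (if c.arch p = true then K else 0)) →
      (∀ p, E2 nu (c.d p) ≤ W p + al * Bad p + (if c.arch p = true then K else 0)) →
      (∀ p, c.arch p = true → W p ≤ L0 → Bad p ≤ ga →
        fine p ∨ EL nu c.ax (fun i g h => Real.log (c.v p (c.th i g h))) ≤ -1) →
      c5 * R ≤ ∑ p, c.w p * Bad p + ∑ p, c.w p * ind (c.arch p = true ∧ fine p) := by
  refine ⟨2 * (K + 3) / be, by positivity, fun ga hga => ?_⟩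
  obtain ⟨c5, hc5, H⟩ := nine al be (K + 2) ga 1 0 (2 * (K + 3) / be) hal hbe (by linarith) hga
    one_pos le_rfl (by linarith) (le_of_eq (by field_simp; ring))
  refine ⟨c5, hc5, fun k0 de hk hde => ?_⟩
  obtain ⟨n0, hn0⟩ := big_n k0 de hk hde
  refine ⟨n0, fun n hn c M R ka hM hka hG hd hpf mu m0 m1 m2 nu hnu => ?_⟩
  obtain ⟨h1, h2, h3⟩ := hn0 n hn
  have ht : (0 : ℝ) < (n : ℝ) ^ (-(ka / 2)) := Real.rpow_pos_of_pos (by exact_mod_cast h1) _
  obtain ⟨l0, l1, l2⟩ := law_of c.Fr mu _ ht m0 m1 m2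
  obtain rfl : nu = fun g => mu g / ∑ x, mu x := funext hnu
  have h4 := h3 ka hka
  refine ⟨lt_of_lt_of_le ht m2, l0, l1, fun i => (diag_conf c hG h1 hM (by linarith) _ l0
    (by linarith) l2 i).trans h2, fun W Bad fine hW hB a1 a2 a3 => ?_⟩
  refine H c n M R ka _ hG h1 hd hpf ht h4 _ l0 l1 l2 W Bad fine hW hB (fun p => ?_)
    (fun p => ?_) a3
  · have := a1 p
    split_ifs at this ⊢ <;> linarith
  · have := a2 p
    split_ifs at this ⊢ <;> linarith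

end Pool.Agent.Lib.MP_abd417_co.W
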