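import Pool.Agent.Lib.MP_abd417_co.W.TriA
import Pool.Agent.Lib.MP_abd417_co.W.TriDefs
import Pool.Agent.Lib.MP_abd417_co.U.FBr
import Pool.Agent.Lib.MP_abd417_co.Up.Pf

/-! The alternative at a complex place. -/

namespace Pool.Agent.Lib.MP_abd417_co.W

open Finset Matrix Pool.Agent.Lib.MP_abd417_co.U Pool.Agent.Lib.MP_abd417_co.U.Cy
  Pool.Agent.Lib.MP_abd417_co.Up

theorem tri (hF : Fine.FineSt) : TriSt := by
  intro b ga C L0 hb hb1 hga hg hC hL0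
  obtain ⟨C2, R, hin⟩ := Tri.inner b ga C 0 L0 hb hb1 hga hg hC le_rfl hL0
  obtain ⟨γ, Nc, δ, γ0, -, δ0, δ1, hbr⟩ := FBr.bridge hF C2 R
  refine ⟨γ, Nc, γ, γ0, γ0, fun k p hp => ?_⟩
  obtain ⟨s, hs⟩ := k.isarch p hp
  let x : k.io → Fin 3 → ℂ := fun a j => s (k.y a j)
  let G : k.Fr → Fine.M3 := fun g => Matrix.of fun i => x (k.ax i g)
  have hx : ∀ a a', x a ⬝ᵥ x a' = s (k.y a ⬝ᵥ k.y a') := fun a a' => by
    simp [x, dotProduct]
  have hd : ∀ g h i j, G g i ⬝ᵥ G h j = s (k.fr g i ⬝ᵥ k.fr h j) := fun g h i j => hx _ _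
  have hG : ∀ g, G g * (G g)ᵀ = 1 := fun g => by
    ext i j
    rw [← FBr.dot_eq, hd]
    by_cases h : i = j
    · subst h
      rw [Matrix.one_apply_eq, show k.fr g i ⬝ᵥ k.fr g i = 1 from k.unit _, map_one]
    · rw [Matrix.one_apply_ne h, show k.fr g i ⬝ᵥ k.fr g j = 0 from k.orth g i j h, map_zero]
  have hth : ∀ i g h, Fine.theta i (G g) (G h) = s (k.th i g h) := fun i g h => by
    simp only [Fine.theta, Conf.th, hd, map_mul, map_sub, map_pow, map_one]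
  obtain ⟨cl, hcl⟩ := FBr.exists_cellP G hG δ0 δ1
  refine ⟨cl, fun c C' M hC' hA μ h0 hm hdg hW hB => ?_⟩
  obtain ⟨y, D, D0, D1, D2, D3⟩ := hin k.Fr k.io k.ax (k.d p) _ c C' (nrm μ) M hC' hA
    (fun g => div_nonneg (h0 g) hm.le) (by simp only [nrm]; rw [← sum_div, div_self hm.ne']) hW hB
  have := hbr k.Fr k.io k.ax x G cl μ D (G y) (fun _ _ => rfl) hG hcl h0 hm (hG y) D0
    (fun g a b => by
      rw [← FBr.dot_eq, hd, ← hs]
      have h1 : k.v p (k.fr g a ⬝ᵥ k.fr y b) ≤ mx (k.v p) (k.fr g) (k.fr y) :=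
        le_sup' (fun q : Fin 3 × Fin 3 => k.v p (k.fr g q.1 ⬝ᵥ k.fr y q.2)) (mem_univ (a, b))
      refine h1.trans ((Real.le_exp_log _).trans (Real.exp_le_exp.2 ?_))
      have := D1 g
      rwa [add_zero] at this)
    D2 D3 hdg fun i g h e n => by
      rw [hth]
      exact (map_ne_zero s).2 (k.th_ne e.symm n)
  simp only [hth, ← hs] at this
  exact this.symm

end Pool.Agent.Lib.MP_abd417_co.W
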