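import Pool.Agent.Lib.MP_abd417_co.W.PlaceDefs
import Pool.Agent.Lib.MP_abd417_co.U.Conc
import Pool.Agent.Lib.MP_abd417_co.Up.Asm

/-! A place with few good walls and little badness carries a concentrated law. -/

namespace Pool.Agent.Lib.MP_abd417_co.W.Tri

open Finset

variable {F V : Type} [Fintype F]

theorem ms_eq (nu : F → ℝ) (p q : F → Prop) [DecidablePred q] (h : ∀ g, p g ↔ q g) :
    ms nu p = ∑ g, if q g then nu g else 0 := by
  refine sum_congr rfl fun g _ => ?_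
  split_ifs with hq
  · rw [ind_pos ((h g).2 hq), mul_one]
  · rw [ind_neg fun hp => hq ((h g).1 hp), mul_zero]

theorem ms_nonneg {nu : F → ℝ} (h0 : ∀ g, 0 ≤ nu g) (p : F → Prop) : 0 ≤ ms nu p :=
  sum_nonneg fun g _ => mul_nonneg (h0 g) (ind_nonneg _)

theorem ms_split (nu : F → ℝ) (p q : F → Prop) :
    ms nu p = ms nu (fun g => p g ∧ q g) + ms nu (fun g => p g ∧ ¬ q g) := by
  unfold ms
  rw [← sum_add_distrib]
  refine sum_congr rfl fun g _ => ?_
  by_cases hp : p g <;> by_cases hq : q g <;> simp [ind, hp, hq]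

theorem ms_or {nu : F → ℝ} (h0 : ∀ g, 0 ≤ nu g) (p q : F → Prop) :
    ms nu (fun g => p g ∨ q g) ≤ ms nu p + ms nu q := by
  unfold ms
  rw [← sum_add_distrib]
  refine sum_le_sum fun g _ => ?_
  have := h0 g
  by_cases hp : p g <;> by_cases hq : q g <;> simp [ind, hp, hq, this]

theorem ms_compl {nu : F → ℝ} (h1 : ∑ g, nu g = 1) (p : F → Prop) :
    ms nu (fun g => ¬ p g) = 1 - ms nu p := by
  rw [← h1]
  unfold ms
  rw [← sum_sub_distrib]
  refine sum_congr rfl fun g _ => ?_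
  by_cases hp : p g <;> simp [ind, hp]

theorem bad_nonneg (u : Fin 3 → F → V) {nu : F → ℝ} (h0 : ∀ g, 0 ≤ nu g) (b ga : ℝ)
    (A : Finset F) : 0 ≤ bad u nu b ga A :=
  add_nonneg (add_nonneg (ind_nonneg _) (mul_nonneg (ind_nonneg _) (ms_nonneg h0 _)))
    (mul_nonneg (ind_nonneg _) (ms_nonneg h0 _))

theorem big_le (u : Fin 3 → F → V) {nu : F → ℝ} (h0 : ∀ g, 0 ≤ nu g) {b ga : ℝ} (hga : 0 < ga)
    (hg : ga ≤ b ^ 4 / 800) (A : Finset F) (hA : b ≤ vr nu A) :
    1 ≤ ind (Good u nu b A) + bad u nu b ga A + ms nu (Near u A) / ga := by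
  have b0 := bad_nonneg u h0 b ga A
  have n0 : 0 ≤ ms nu (Near u A) / ga := div_nonneg (ms_nonneg h0 _) hga.le
  have g0 := ind_nonneg (Good u nu b A)
  by_cases h1 : Good u nu b A
  · rw [ind_pos h1]; linarith
  by_cases h2 : ms nu (Near u A) ≤ ga
  · have h3 : b ^ 4 / 400 < ms nu (fun g => NoCr u A g ∨ Near u A g) :=
      not_le.1 fun h => h1 ⟨hA, h⟩
    have h4 := ms_or h0 (NoCr u A) (Near u A)
    have h5 : BigBad u nu b ga A := ⟨hA, h2, by linarith⟩
    have := mul_nonneg (ind_nonneg (SmBad u nu b A (· ∈ A))) (ms_nonneg h0 (· ∈ A))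
    have := mul_nonneg (ind_nonneg (SmBad u nu b A (· ∉ A))) (ms_nonneg h0 (· ∉ A))
    unfold bad
    rw [ind_pos h5]
    linarith
  · have : 1 ≤ ms nu (Near u A) / ga := (one_le_div hga).2 (not_le.1 h2).le
    linarith

/-- The smaller side of a wall. -/
def sm (nu : F → ℝ) (A : Finset F) (g : F) : Prop := g ∈ A ↔ ms nu (· ∈ A) ≤ 1 / 2

theorem sm_small {nu : F → ℝ} (h1 : ∑ g, nu g = 1) {b : ℝ} (hb : 0 < b) (hb1 : b ≤ 1)
    (A : Finset F) (hA : vr nu A < b) : ms nu (sm nu A) < 1 / 2 ∧ ms nu (sm nu A) < b := by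
  unfold vr at hA
  by_cases h : ms nu (· ∈ A) ≤ 1 / 2
  · have e : sm nu A = (· ∈ A) := funext fun g => propext (by simp [sm, h, -one_div])
    rw [e]
    constructor <;> nlinarith
  · have e : sm nu A = (· ∉ A) := funext fun g => propext (by simp [sm, h, -one_div])
    rw [e, ms_compl h1]
    constructor <;> nlinarith

theorem sm_bad (u : Fin 3 → F → V) {nu : F → ℝ} (h0 : ∀ g, 0 ≤ nu g) (b ga : ℝ) (A : Finset F)
    (hA : SmBad u nu b A (sm nu A)) : ms nu (sm nu A) ≤ bad u nu b ga A := by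
  have a0 := ind_nonneg (BigBad u nu b ga A)
  have a1 := mul_nonneg (ind_nonneg (SmBad u nu b A (· ∈ A))) (ms_nonneg h0 (· ∈ A))
  have a2 := mul_nonneg (ind_nonneg (SmBad u nu b A (· ∉ A))) (ms_nonneg h0 (· ∉ A))
  unfold bad
  by_cases h : ms nu (· ∈ A) ≤ 1 / 2
  · have e : sm nu A = (· ∈ A) := funext fun g => propext (by simp [sm, h, -one_div])
    rw [e] at hA ⊢
    rw [ind_pos hA]
    linarith
  · have e : sm nu A = (· ∉ A) := funext fun g => propext (by simp [sm, h, -one_div])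
    rw [e] at hA ⊢
    rw [ind_pos hA]
    linarith

/-- Concentration at one virtual place. -/
theorem conc_one {Wl : Type} [Fintype Wl] (u : Fin 3 → F → V) {nu : F → ℝ} (h0 : ∀ g, 0 ≤ nu g)
    (h1 : ∑ g, nu g = 1) (w : Wl → ℝ) (hw : ∀ a, 0 ≤ w a) (S : Wl → Finset F) (hS : Lam S)
    (nr : F → ℝ) (hnr : ∀ g, nearW u w S g ≤ nr g) {b ga : ℝ} (hb : 0 < b) (hb1 : b ≤ 1)
    (hga : 0 < ga) (hg : ga ≤ b ^ 4 / 800) (L g1 A B : ℝ)
    (hL : ∑ a, w a * ind (Good u nu b (S a)) ≤ L) (hB : ∑ a, w a * bad u nu b ga (S a) ≤ g1)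
    (hA : ∑ g, nu g * nr g ≤ A) (hA2 : ∑ g, nu g * nr g ^ 2 ≤ B) :
    ∃ y, ∑ g, nu g * DT w S y g ≤ L + g1 + A / ga + 2 * g1 + 4 * A ∧
      ∀ R, 0 < R → 2 * (L + g1 + A / ga + g1 + 2 * A) ≤ R →
        ∑ g, (if R < DT w S y g then nu g * DT w S y g else 0) ≤ 4 * g1 + 256 * B / R := by
  classical
  have hs : ∀ a g, decide (g ∈ S a) = decide (ms nu (· ∈ S a) ≤ 1 / 2) ↔ sm nu (S a) g :=
    fun a g => decide_eq_decide
  have hN : ∑ a, w a * ms nu (Near u (S a)) ≤ A := by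
    refine le_trans (le_of_eq ?_) ((sum_le_sum fun g _ =>
      mul_le_mul_of_nonneg_left (hnr g) (h0 g)).trans hA)
    simp only [ms, nearW, mul_sum]
    rw [sum_comm]
    exact sum_congr rfl fun g _ => sum_congr rfl fun a _ => by ring
  obtain ⟨y, -, c1, c2⟩ := AbdConc.conc nu h0 h1 w hw (fun a g => decide (g ∈ S a))
    (fun a c => by
      rcases hS a c with h | h | h
      · exact ⟨true, false, fun g hg => (of_decide_eq_false hg.2) (h (of_decide_eq_true hg.1))⟩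
      · exact ⟨false, true, fun g hg => (of_decide_eq_false hg.1) (h (of_decide_eq_true hg.2))⟩
      · exact ⟨true, true, fun g hg =>
          disjoint_left.1 h (of_decide_eq_true hg.1) (of_decide_eq_true hg.2)⟩)
    (fun a g => Near u (S a) g) nr
    (fun g => le_trans (le_of_eq (sum_congr rfl fun a _ => by
      split_ifs with h
      · rw [ind_pos h, mul_one]
      · rw [ind_neg h, mul_zero])) (hnr g))
    {a | b ≤ vr nu (S a)} {a | SmBad u nu b (S a) (sm nu (S a))}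
    {a | vr nu (S a) < b ∧ ¬ SmBad u nu b (S a) (sm nu (S a))}
    (fun a => by
      simp only [mem_filter, mem_univ, true_and]
      rcases le_or_gt b (vr nu (S a)) with h | h
      · exact Or.inl h
      · by_cases h' : SmBad u nu b (S a) (sm nu (S a))
        · exact Or.inr (Or.inl h')
        · exact Or.inr (Or.inr ⟨h, h'⟩))
    (fun a => decide (ms nu (· ∈ S a) ≤ 1 / 2))
    (fun a ha => by
      rw [← ms_eq nu (sm nu (S a)) _ fun g => (hs a g).symm]
      exact (sm_small h1 hb hb1 _ (mem_filter.1 ha).2.1).1)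
    (fun a ha => by
      rw [← ms_eq nu (sm nu (S a)) _ fun g => (hs a g).symm,
        ← ms_eq nu (fun g => sm nu (S a) g ∧ Near u (S a) g) _ fun g => by rw [hs a g]]
      have k1 := (sm_small h1 hb hb1 _ (mem_filter.1 ha).2.1).2
      have k2 := not_le.1 fun h => (mem_filter.1 ha).2.2 ⟨k1, h⟩
      have k3 := ms_split nu (sm nu (S a)) (Near u (S a))
      linarith)
    (L + g1 + A / ga) g1 A B
    (by
      have k1 : ∑ a ∈ {a | b ≤ vr nu (S a)}, w a ≤ ∑ a, w a * (ind (Good u nu b (S a)) +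
          bad u nu b ga (S a) + ms nu (Near u (S a)) / ga) := by
        refine (sum_le_sum fun a ha => le_mul_of_one_le_right (hw a)
          (big_le u h0 hga hg (S a) (mem_filter.1 ha).2)).trans
          (sum_le_sum_of_subset_of_nonneg (subset_univ _) fun a _ _ => mul_nonneg (hw a) ?_)
        exact add_nonneg (add_nonneg (ind_nonneg _) (bad_nonneg u h0 _ _ _))
          (div_nonneg (ms_nonneg h0 _) hga.le)
      simp only [mul_add, sum_add_distrib, ← mul_div_assoc, ← sum_div] at k1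
      have := div_le_div_of_nonneg_right hN hga.le
      linarith)
    (by
      refine le_trans ?_ hB
      refine (sum_le_sum fun a ha => ?_).trans (sum_le_sum_of_subset_of_nonneg (subset_univ _)
        fun a _ _ => mul_nonneg (hw a) (bad_nonneg u h0 _ _ _))
      rw [← ms_eq nu (sm nu (S a)) _ fun g => (hs a g).symm]
      exact mul_le_mul_of_nonneg_left (sm_bad u h0 b ga _ (mem_filter.1 ha).2) (hw a))
    hA hA2
  have e : ∀ g, (∑ a, if decide (y ∈ S a) ≠ decide (g ∈ S a) then w a else 0) = DT w S y g :=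
    fun g => sum_congr rfl fun a _ => by
      split_ifs with h
      · rw [ind_pos (p := Sep (S a) y g) fun k => h (decide_eq_decide.2 k), mul_one]
      · rw [ind_neg (p := Sep (S a) y g) fun k => h fun k' => k (decide_eq_decide.1 k'), mul_zero]
  simp only [e] at c1 c2
  exact ⟨y, c1, c2⟩

omit [Fintype F] in
theorem near_le {u : Fin 3 → F → V} {d : F → F → ℝ} {L : Fin 3 → F → F → ℝ} {c C : ℝ}
    (M : MSys F d c C) (hA : Alg u d L c) (t : Fin M.N) (g : F) :
    nearW u (M.w t) (M.S t) g ≤ M.nr t g := by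
  refine le_trans (sum_le_sum fun a _ => mul_le_mul_of_nonneg_left (ind_mono ?_)
    (M.w_nonneg t a)) (M.nr_ge t g)
  rintro ⟨i, j, hij, ⟨g1, e1, s1⟩, g2, e2, s2⟩
  exact ⟨g1, g2, s1, s2, hA.g1 i j g g1 g2 hij e1 e2⟩

/-- Concentration at one true place. -/
theorem inner (b ga C c0 L0 : ℝ) (hb : 0 < b) (hb1 : b ≤ 1) (hga : 0 < ga)
    (hg : ga ≤ b ^ 4 / 800) (hC : 0 ≤ C) (hc0 : 0 ≤ c0) (hL0 : 0 ≤ L0) :
    ∃ C2 R : ℝ, ∀ (F V : Type) [Fintype F] (u : Fin 3 → F → V) (d : F → F → ℝ)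
      (L : Fin 3 → F → F → ℝ) (c C' : ℝ) (nu : F → ℝ) (M : MSys F d c C'), C' ≤ C → Alg u d L c →
      (∀ g, 0 ≤ nu g) → ∑ g, nu g = 1 → M.W u nu b ≤ L0 → M.Bad u nu b ga ≤ 1 / 1000000 →
      ∃ (y : F) (D : F → ℝ), (∀ g, 0 ≤ D g) ∧ (∀ g, d g y + c0 ≤ D g) ∧
        ∑ g, nu g * D g ≤ C2 ∧ ∑ g, nu g * (if R < D g then D g else 0) ≤ 1 / 10000 := by
  set A : ℝ := 4 * (C + 1) with hAdef
  set L1 : ℝ := 4 * (L0 + 1) with hL1
  set R0 : ℝ := 2 * (L1 + 1 + A / ga + 1 + 2 * A) + 10 ^ 8 * A + (C + c0) with hR0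
  have A0 : 0 < A := by positivity
  have Ag : 0 ≤ A / ga := by positivity
  have L10 : 0 < L1 := by positivity
  refine ⟨L1 + 3 + A / ga + 4 * A + (C + c0), R0 + (C + c0),
    fun F V _ u d L c C' nu M hC' hA h0 h1 hW hB => ?_⟩
  have N0 : (0 : ℝ) < M.N := by exact_mod_cast M.pos
  have : Nonempty (Fin M.N) := ⟨⟨0, M.pos⟩⟩
  have nr0 : ∀ t g, 0 ≤ M.nr t g := fun t g => le_trans
    (sum_nonneg fun a _ => mul_nonneg (M.w_nonneg t a) (ind_nonneg _)) (near_le M hA t g)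
  have av : ∀ f : Fin M.N → F → ℝ, (∀ g, ∑ t, f t g ≤ M.N * C') →
      ∑ t, ∑ g, nu g * f t g ≤ M.N * (C + 1) := fun f hf => by
    rw [sum_comm]
    calc ∑ g, ∑ t, nu g * f t g ≤ ∑ g, nu g * (M.N * C') := sum_le_sum fun g _ => by
          rw [← mul_sum]; exact mul_le_mul_of_nonneg_left (hf g) (h0 g)
      _ = M.N * C' := by rw [← sum_mul, h1, one_mul]
      _ ≤ _ := by gcongr; linarith
  have p0 : ∀ t, 0 ≤ ∑ a, M.w t a * ind (Good u nu b (M.S t a)) := fun t =>
    sum_nonneg fun a _ => mul_nonneg (M.w_nonneg t a) (ind_nonneg _)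
  have p1 : ∀ t, 0 ≤ ∑ a, M.w t a * bad u nu b ga (M.S t a) := fun t =>
    sum_nonneg fun a _ => mul_nonneg (M.w_nonneg t a) (bad_nonneg u h0 _ _ _)
  have p2 : ∀ t, 0 ≤ ∑ g, nu g * M.nr t g := fun t =>
    sum_nonneg fun g _ => mul_nonneg (h0 g) (nr0 t g)
  have p3 : ∀ t, 0 ≤ ∑ g, nu g * M.nr t g ^ 2 := fun t =>
    sum_nonneg fun g _ => mul_nonneg (h0 g) (sq_nonneg _)
  obtain ⟨t, ht⟩ := AbdUp.Asm.exists_shift (T := Fin M.N) (J := Fin 4)
    ![fun t => ∑ a, M.w t a * ind (Good u nu b (M.S t a)),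
      fun t => ∑ a, M.w t a * bad u nu b ga (M.S t a),
      fun t => ∑ g, nu g * M.nr t g, fun t => ∑ g, nu g * M.nr t g ^ 2]
    ![L0 + 1, 1 / 1000000, C + 1, C + 1]
    (fun j => by fin_cases j <;> simp <;> positivity)
    (fun j t => by
      fin_cases j
      · exact p0 t
      · exact p1 t
      · exact p2 t
      · exact p3 t)
    (fun j => by
      rw [Fintype.card_fin]
      fin_cases j
      · have := (div_le_iff₀' N0).1 hW
        exact this.trans (mul_le_mul_of_nonneg_left (by simp) N0.le)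
      · exact (div_le_iff₀' N0).1 hB
      · exact av _ M.nr1
      · exact av _ M.nr2)
  have t0 : ∑ a, M.w t a * ind (Good u nu b (M.S t a)) ≤ L1 := by simpa using ht 0
  have t1 : ∑ a, M.w t a * bad u nu b ga (M.S t a) ≤ 4 * (1 / 1000000) := by simpa using ht 1
  have t2 : ∑ g, nu g * M.nr t g ≤ A := by simpa using ht 2
  have t3 : ∑ g, nu g * M.nr t g ^ 2 ≤ A := by simpa using ht 3
  obtain ⟨y, c1, c2⟩ := conc_one u h0 h1 (M.w t) (M.w_nonneg t) (M.S t) (M.lam t) (M.nr t)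
    (near_le M hA t) hb hb1 hga hg L1 _ A A t0 t1 t2 t3
  have R1 : 10 ^ 8 * A ≤ R0 := by rw [hR0]; linarith
  have R2 : C + c0 ≤ R0 := by rw [hR0]; linarith
  have R3 : 0 < R0 := by linarith
  have c3 := c2 R0 R3 (by rw [hR0]; linarith)
  have c4 : 256 * A / R0 ≤ 256 / 10 ^ 8 := by
    rw [div_le_div_iff₀ R3 (by norm_num)]; linarith
  have D0 : ∀ g, 0 ≤ DT (M.w t) (M.S t) y g := fun g =>
    sum_nonneg fun a _ => mul_nonneg (M.w_nonneg t a) (ind_nonneg _)
  refine ⟨y, fun g => DT (M.w t) (M.S t) y g + (C + c0), fun g => by linarith [D0 g],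
    fun g => by linarith [M.lo t y g, hA.symm g y], ?_, ?_⟩
  · simp only [mul_add (nu _), sum_add_distrib, ← sum_mul, h1]
    linarith
  · have : ∑ g, nu g * (if R0 + (C + c0) < DT (M.w t) (M.S t) y g + (C + c0) then
        DT (M.w t) (M.S t) y g + (C + c0) else 0) ≤ ∑ g, 2 * (if R0 < DT (M.w t) (M.S t) y g then
        nu g * DT (M.w t) (M.S t) y g else 0) := sum_le_sum fun g _ => by
      by_cases h : R0 < DT (M.w t) (M.S t) y g
      · rw [if_pos h, if_pos (by linarith)]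
        nlinarith [h0 g]
      · rw [if_neg h, if_neg (by linarith)]
        simp
    rw [← mul_sum] at this
    linarith

end Pool.Agent.Lib.MP_abd417_co.W.Tri
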