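import Mathlib

/-! abd417, step 7 (part A): mate law, one wall, covariance of laminar walls. -/

namespace Pool.Agent.Lib.MP_abd417_co.WallK

open Finset

variable {F V : Type*} [Fintype F] [DecidableEq V]

/-- mass of the star of `g` along the axis map `u` -/
noncomputable def star (ν : F → ℝ) (u : F → V) (g : F) : ℝ := ∑ h, if u h = u g then ν h else 0

/-- law of a pair of conditionally independent mates -/
noncomputable def pr (ν : F → ℝ) (u : F → V) (g h : F) : ℝ :=
  if u h = u g then ν g * ν h / star ν u g else 0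

/-- sign of a side -/
def sg (b : Bool) : ℝ := if b then 1 else -1

/-- indicator that the wall `s` separates -/
def sep (s : F → Bool) (g h : F) : ℝ := if s g = s h then 0 else 1

open Classical in
/-- indicator of a proposition -/
noncomputable def ind (p : Prop) : ℝ := if p then 1 else 0

/-- mass of an event -/
noncomputable def mass (ν : F → ℝ) (p : F → Prop) : ℝ := ∑ g, ν g * ind (p g)

/-- mean of the sign -/
noncomputable def mean (ν : F → ℝ) (s : F → Bool) : ℝ := ∑ g, ν g * sg (s g)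

/-- variance of the sign (for a probability weight) -/
noncomputable def var (ν : F → ℝ) (s : F → Bool) : ℝ := 1 - mean ν s ^ 2

/-- the star of `g` meets the other side -/
def cross (u : F → V) (s : F → Bool) (g : F) : Prop := ∃ h, u h = u g ∧ s h ≠ s g

/-- two axes cross -/
def near (u : Fin 3 → F → V) (s : F → Bool) (g : F) : Prop :=
  ∃ i j, i ≠ j ∧ cross (u i) s g ∧ cross (u j) s g

/-- no axis crosses -/
def nocr (u : Fin 3 → F → V) (s : F → Bool) (g : F) : Prop := ∀ i, ¬ cross (u i) s g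

theorem ind_pos {p : Prop} (h : p) : ind p = 1 := by simp [ind, h]
theorem ind_neg {p : Prop} (h : ¬ p) : ind p = 0 := by simp [ind, h]
theorem ind_nonneg (p : Prop) : 0 ≤ ind p := by
  by_cases h : p
  · rw [ind_pos h]; norm_num
  · rw [ind_neg h]
theorem ind_le_one (p : Prop) : ind p ≤ 1 := by
  by_cases h : p
  · rw [ind_pos h]
  · rw [ind_neg h]; norm_num

theorem sg_sq (b : Bool) : sg b ^ 2 = 1 := by cases b <;> simp [sg]
theorem sg_le (b : Bool) : sg b ≤ 1 := by cases b <;> simp [sg]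
theorem le_sg (b : Bool) : -1 ≤ sg b := by cases b <;> simp [sg]

omit [Fintype F] in
theorem sep_eq (s : F → Bool) (g h : F) : sep s g h = (1 - sg (s g) * sg (s h)) / 2 := by
  unfold sep sg
  cases s g <;> cases s h <;> norm_num
omit [Fintype F] in
theorem sep_nonneg (s : F → Bool) (g h : F) : 0 ≤ sep s g h := by
  unfold sep; split_ifs <;> norm_num
omit [Fintype F] in
theorem sep_le_one (s : F → Bool) (g h : F) : sep s g h ≤ 1 := by
  unfold sep; split_ifs <;> norm_num

theorem mass_nonneg {ν : F → ℝ} (hν : ∀ g, 0 ≤ ν g) (p : F → Prop) : 0 ≤ mass ν p :=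
  sum_nonneg fun g _ => mul_nonneg (hν g) (ind_nonneg _)

theorem star_congr (ν : F → ℝ) (u : F → V) {g h : F} (e : u h = u g) :
    star ν u h = star ν u g := by
  unfold star; rw [e]

theorem le_star {ν : F → ℝ} (hν : ∀ g, 0 ≤ ν g) (u : F → V) (g : F) : ν g ≤ star ν u g := by
  unfold star
  have := single_le_sum (f := fun h => if u h = u g then ν h else 0)
    (fun h _ => by split_ifs; exact hν h; exact le_rfl) (mem_univ g)
  simpa using this

theorem pr_nonneg {ν : F → ℝ} (hν : ∀ g, 0 ≤ ν g) (u : F → V) (g h : F) : 0 ≤ pr ν u g h := by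
  unfold pr
  split_ifs
  · exact div_nonneg (mul_nonneg (hν g) (hν h)) ((hν g).trans (le_star hν u g))
  · exact le_rfl

theorem pr_symm (ν : F → ℝ) (u : F → V) (g h : F) : pr ν u g h = pr ν u h g := by
  unfold pr
  by_cases e : u h = u g
  · rw [if_pos e, if_pos e.symm, star_congr ν u e, mul_comm]
  · rw [if_neg e, if_neg (fun e' => e e'.symm)]

theorem pr_sum {ν : F → ℝ} (hν : ∀ g, 0 ≤ ν g) (u : F → V) (g : F) :
    ∑ h, pr ν u g h = ν g := by
  have h1 : ∀ h, pr ν u g h = ν g / star ν u g * (if u h = u g then ν h else 0) := by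
    intro h; unfold pr; split_ifs <;> ring
  simp_rw [h1]
  rw [← mul_sum]
  change ν g / star ν u g * star ν u g = ν g
  by_cases h0 : star ν u g = 0
  · have := le_star hν u g
    have h2 : ν g = 0 := le_antisymm (h0 ▸ this) (hν g)
    simp [h2]
  · field_simp

theorem pr_fst {ν : F → ℝ} (hν : ∀ g, 0 ≤ ν g) (u : F → V) (f : F → ℝ) :
    ∑ g, ∑ h, pr ν u g h * f g = ∑ g, ν g * f g := by
  refine sum_congr rfl fun g _ => ?_
  rw [← sum_mul, pr_sum hν]

theorem pr_snd {ν : F → ℝ} (hν : ∀ g, 0 ≤ ν g) (u : F → V) (f : F → ℝ) :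
    ∑ g, ∑ h, pr ν u g h * f h = ∑ g, ν g * f g := by
  rw [sum_comm, ← pr_fst hν u f]
  exact sum_congr rfl fun g _ => sum_congr rfl fun h _ => by rw [pr_symm]

theorem pr_psd {ν : F → ℝ} (hν : ∀ g, 0 ≤ ν g) (u : F → V) (f : F → ℝ) :
    0 ≤ ∑ g, ∑ h, pr ν u g h * (f g * f h) := by
  set E : F → ℝ := fun g => (∑ h, if u h = u g then ν h * f h else 0) / star ν u g with hE
  have hEc : ∀ g h, u h = u g → E h = E g := by
    intro g h e
    simp only [hE]
    rw [star_congr ν u e, e]
  have h1 : ∀ g, ∑ h, pr ν u g h * f h = ν g * E g := by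
    intro g
    simp only [hE]
    rw [sum_div, mul_sum]
    refine sum_congr rfl fun h _ => ?_
    unfold pr
    split_ifs <;> ring
  have h2 : ∑ g, ∑ h, pr ν u g h * (f g * f h) = ∑ g, ν g * (f g * E g) := by
    refine sum_congr rfl fun g _ => ?_
    have : ∑ h, pr ν u g h * (f g * f h) = f g * ∑ h, pr ν u g h * f h := by
      rw [mul_sum]; exact sum_congr rfl fun h _ => by ring
    rw [this, h1]; ring
  have h3 : ∑ g, ν g * (f g * E g) = ∑ g, ν g * E g ^ 2 := by
    rw [← pr_snd hν u (fun g => f g * E g)]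
    refine sum_congr rfl fun g _ => ?_
    have : ∑ h, pr ν u g h * (f h * E h) = E g * ∑ h, pr ν u g h * f h := by
      rw [mul_sum]
      refine sum_congr rfl fun h _ => ?_
      by_cases e : u h = u g
      · rw [hEc g h e]; ring
      · unfold pr; rw [if_neg e]; ring
    rw [this, h1]; ring
  rw [h2, h3]
  exact sum_nonneg fun g _ => mul_nonneg (hν g) (sq_nonneg _)

theorem pr_sq {ν : F → ℝ} (hν : ∀ g, 0 ≤ ν g) (u : F → V) (f : F → ℝ) :
    ∑ g, ∑ h, pr ν u g h * (f g - f h) ^ 2 ≤ 2 * ∑ g, ν g * f g ^ 2 := by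
  have h1 := pr_psd hν u f
  have h2 := pr_fst hν u (fun g => f g ^ 2)
  have h3 := pr_snd hν u (fun g => f g ^ 2)
  have h4 : ∑ g, ∑ h, pr ν u g h * (f g - f h) ^ 2
      = ∑ g, ∑ h, pr ν u g h * f g ^ 2 + ∑ g, ∑ h, pr ν u g h * f h ^ 2
        - 2 * ∑ g, ∑ h, pr ν u g h * (f g * f h) := by
    rw [mul_sum, ← sum_add_distrib, ← sum_sub_distrib]
    refine sum_congr rfl fun g _ => ?_
    rw [mul_sum, ← sum_add_distrib, ← sum_sub_distrib]
    exact sum_congr rfl fun h _ => by ring
  linarith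

omit [Fintype F] [DecidableEq V] in
theorem cross_congr {u : F → V} {s : F → Bool} {g h : F} (e : u h = u g) :
    cross u s h ↔ cross u s g := by
  have key : ∀ g h : F, u h = u g → cross u s h → cross u s g := by
    rintro g h e ⟨k, hk, hs⟩
    by_cases c : s h = s g
    · exact ⟨k, hk.trans e, c ▸ hs⟩
    · exact ⟨h, e, c⟩
  exact ⟨key g h e, key h g e.symm⟩

omit [Fintype F] [DecidableEq V] in
theorem sum_cross_le (u : Fin 3 → F → V) (s : F → Bool) (g : F) :
    ∑ i, ind (cross (u i) s g) ≤ 1 + 2 * ind (near u s g) := by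
  rw [Fin.sum_univ_three]
  by_cases hn : near u s g
  · rw [ind_pos hn]
    linarith [ind_le_one (cross (u 0) s g), ind_le_one (cross (u 1) s g),
      ind_le_one (cross (u 2) s g)]
  · rw [ind_neg hn]
    by_cases c0 : cross (u 0) s g
    · have c1 : ¬ cross (u 1) s g := fun c => hn ⟨0, 1, by decide, c0, c⟩
      have c2 : ¬ cross (u 2) s g := fun c => hn ⟨0, 2, by decide, c0, c⟩
      rw [ind_pos c0, ind_neg c1, ind_neg c2]; norm_num
    · rw [ind_neg c0]
      by_cases c1 : cross (u 1) s g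
      · have c2 : ¬ cross (u 2) s g := fun c => hn ⟨1, 2, by decide, c1, c⟩
        rw [ind_pos c1, ind_neg c2]; norm_num
      · rw [ind_neg c1]
        linarith [ind_le_one (cross (u 2) s g)]

theorem abs_mean_le {ν : F → ℝ} (hν : ∀ g, 0 ≤ ν g) (h1 : ∑ g, ν g = 1) (s : F → Bool) :
    -1 ≤ mean ν s ∧ mean ν s ≤ 1 := by
  unfold mean
  constructor
  · have : ∑ g, ν g * (-1) ≤ ∑ g, ν g * sg (s g) :=
      sum_le_sum fun g _ => mul_le_mul_of_nonneg_left (le_sg _) (hν g)
    rw [← sum_mul, h1] at this; linarith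
  · have : ∑ g, ν g * sg (s g) ≤ ∑ g, ν g * 1 :=
      sum_le_sum fun g _ => mul_le_mul_of_nonneg_left (sg_le _) (hν g)
    rw [← sum_mul, h1] at this; linarith

theorem var_nonneg {ν : F → ℝ} (hν : ∀ g, 0 ≤ ν g) (h1 : ∑ g, ν g = 1) (s : F → Bool) :
    0 ≤ var ν s := by
  obtain ⟨a, b⟩ := abs_mean_le hν h1 s
  unfold var; nlinarith

theorem var_eq {ν : F → ℝ} (h1 : ∑ g, ν g = 1) (s : F → Bool) :
    ∑ g, ν g * (sg (s g) - mean ν s) ^ 2 = var ν s := by
  have : ∀ g, ν g * (sg (s g) - mean ν s) ^ 2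
      = ν g * (1 + mean ν s ^ 2) - 2 * mean ν s * (ν g * sg (s g)) := by
    intro g
    have := sg_sq (s g)
    linear_combination ν g * this
  simp_rw [this]
  rw [sum_sub_distrib, ← sum_mul, ← mul_sum, h1]
  unfold var
  change 1 * (1 + mean ν s ^ 2) - 2 * mean ν s * mean ν s = _
  ring

/-- the variance in terms of the mass of the side `true` -/
theorem var_eq_mass {ν : F → ℝ} (h1 : ∑ g, ν g = 1) (s : F → Bool) :
    var ν s = 4 * mass ν (fun g => s g = true) * (1 - mass ν (fun g => s g = true)) := by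
  have : mean ν s = 2 * mass ν (fun g => s g = true) - 1 := by
    unfold mean mass
    rw [← h1, mul_sum, ← sum_sub_distrib]
    refine sum_congr rfl fun g _ => ?_
    beta_reduce
    cases hs : s g
    · rw [ind_neg (by simp)]; simp [sg]
    · rw [ind_pos rfl]; simp [sg]; ring
  unfold var; rw [this]; ring

/-- the cost of one wall: mates are separated with total probability `var / 2 + 4 ν(near)` -/
theorem cost {ν : F → ℝ} (hν : ∀ g, 0 ≤ ν g) (h1 : ∑ g, ν g = 1) (u : Fin 3 → F → V)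
    (s : F → Bool) :
    ∑ i, ∑ g, ∑ h, pr ν (u i) g h * sep s g h ≤ var ν s / 2 + 4 * mass ν (near u s) := by
  obtain ⟨m1, m2⟩ := abs_mean_le hν h1 s
  have hi : ∀ i, 4 * ∑ g, ∑ h, pr ν (u i) g h * sep s g h
      ≤ 2 * ∑ g, ν g * ((sg (s g) - mean ν s) ^ 2 * ind (cross (u i) s g)) := by
    intro i
    have := pr_sq hν (u i) (fun g => (sg (s g) - mean ν s) * ind (cross (u i) s g))
    have e1 : ∑ g, ν g * ((sg (s g) - mean ν s) * ind (cross (u i) s g)) ^ 2
        = ∑ g, ν g * ((sg (s g) - mean ν s) ^ 2 * ind (cross (u i) s g)) := by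
      refine sum_congr rfl fun g _ => ?_
      by_cases c : cross (u i) s g
      · rw [ind_pos c]; ring
      · rw [ind_neg c]; ring
    rw [e1] at this
    refine le_trans (le_of_eq ?_) this
    rw [mul_sum]
    refine sum_congr rfl fun g _ => ?_
    rw [mul_sum]
    refine sum_congr rfl fun h _ => ?_
    by_cases e : u i h = u i g
    · by_cases c : cross (u i) s g
      · rw [ind_pos c, ind_pos ((cross_congr e).2 c), sep_eq]
        have a1 := sg_sq (s g)
        have a2 := sg_sq (s h)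
        linear_combination (-pr ν (u i) g h) * a1 - pr ν (u i) g h * a2
      · have c' : s g = s h := by
          by_contra c'
          exact c ⟨h, e, fun x => c' x.symm⟩
        rw [ind_neg c, ind_neg (fun x => c ((cross_congr e).1 x))]
        unfold sep; rw [if_pos c']; ring
    · unfold pr; rw [if_neg e]; ring
  have hs : ∑ i, ∑ g, ν g * ((sg (s g) - mean ν s) ^ 2 * ind (cross (u i) s g))
      ≤ var ν s + 8 * mass ν (near u s) := by
    rw [sum_comm, ← var_eq h1 s]
    unfold mass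
    rw [mul_sum, ← sum_add_distrib]
    refine sum_le_sum fun g _ => ?_
    rw [← mul_sum, ← mul_sum]
    have a1 := sum_cross_le u s g
    have a2 : (sg (s g) - mean ν s) ^ 2 ≤ 4 := by
      nlinarith [sg_le (s g), le_sg (s g)]
    have a3 := ind_nonneg (near u s g)
    have a4 : (sg (s g) - mean ν s) ^ 2 * ∑ i, ind (cross (u i) s g)
        ≤ (sg (s g) - mean ν s) ^ 2 + 8 * ind (near u s g) := by
      nlinarith [sq_nonneg (sg (s g) - mean ν s), mul_le_mul_of_nonneg_left a1
        (sq_nonneg (sg (s g) - mean ν s)), mul_le_mul_of_nonneg_right a2 a3]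
    nlinarith [mul_le_mul_of_nonneg_left a4 (hν g)]
  have h4 := sum_le_sum fun i (_ : i ∈ (univ : Finset (Fin 3))) => hi i
  rw [← mul_sum, ← mul_sum] at h4
  linarith

/-- covariance of two signs -/
noncomputable def cov (ν : F → ℝ) (s t : F → Bool) : ℝ :=
  ∑ g, ν g * ((sg (s g) - mean ν s) * (sg (t g) - mean ν t))

theorem cov_eq {ν : F → ℝ} (h1 : ∑ g, ν g = 1) (s t : F → Bool) :
    cov ν s t = ∑ g, ν g * (sg (s g) * sg (t g)) - mean ν s * mean ν t := by
  have : ∀ g, ν g * ((sg (s g) - mean ν s) * (sg (t g) - mean ν t))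
      = ν g * (sg (s g) * sg (t g)) - mean ν t * (ν g * sg (s g)) - mean ν s * (ν g * sg (t g))
        + ν g * (mean ν s * mean ν t) := fun g => by ring
  unfold cov
  simp_rw [this]
  rw [sum_add_distrib, sum_sub_distrib, sum_sub_distrib, ← mul_sum, ← mul_sum, ← sum_mul, h1]
  change _ - mean ν t * mean ν s - mean ν s * mean ν t + _ = _
  ring

/-- two walls with an empty corner and variance at least `b` have covariance at least `b²/4` -/
theorem cov_sq_ge {ν : F → ℝ} (hν : ∀ g, 0 ≤ ν g) (h1 : ∑ g, ν g = 1) {s t : F → Bool}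
    (lam : ∃ a c : Bool, ∀ g, ¬ (s g = a ∧ t g = c)) {b : ℝ} (hb : 0 ≤ b)
    (hs : b ≤ var ν s) (ht : b ≤ var ν t) : b ^ 4 / 16 ≤ cov ν s t ^ 2 := by
  obtain ⟨a, c, hl⟩ := lam
  obtain ⟨m1, m2⟩ := abs_mean_le hν h1 s
  obtain ⟨n1, n2⟩ := abs_mean_le hν h1 t
  have e0 : ∀ g, ν g * (sg (s g) * sg (t g)) * (sg a * sg c)
      = -ν g - sg a * (ν g * sg (s g)) - sg c * (ν g * sg (t g)) := by
    intro g
    have := hl g
    revert this
    cases s g <;> cases t g <;> cases a <;> cases c <;> simp [sg]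
  have e1 : (∑ g, ν g * (sg (s g) * sg (t g))) * (sg a * sg c)
      = -1 - sg a * mean ν s - sg c * mean ν t := by
    rw [sum_mul]
    simp_rw [e0]
    rw [sum_sub_distrib, sum_sub_distrib, sum_neg_distrib, ← mul_sum, ← mul_sum, h1]
    rfl
  have e2 : cov ν s t * (sg a * sg c) = -((1 + sg a * mean ν s) * (1 + sg c * mean ν t)) := by
    rw [cov_eq h1, sub_mul, e1]; ring
  have e3 : cov ν s t ^ 2 = ((1 + sg a * mean ν s) * (1 + sg c * mean ν t)) ^ 2 := by
    have : (cov ν s t * (sg a * sg c)) ^ 2 = cov ν s t ^ 2 := by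
      rw [mul_pow, mul_pow, sg_sq, sg_sq]; ring
    rw [← this, e2]; ring
  have key : ∀ (a : Bool) (m : ℝ), -1 ≤ m → m ≤ 1 → b ≤ 1 - m ^ 2 → b / 2 ≤ 1 + sg a * m := by
    intro a m p q r
    cases a <;> simp only [sg] <;> norm_num <;> nlinarith
  have k1 := key a _ m1 m2 hs
  have k2 := key c _ n1 n2 ht
  have k3 : b / 2 * (b / 2) ≤ (1 + sg a * mean ν s) * (1 + sg c * mean ν t) :=
    mul_le_mul k1 k2 (by linarith) (by linarith)
  rw [e3]
  have k4 : (b / 2 * (b / 2)) ^ 2 ≤ ((1 + sg a * mean ν s) * (1 + sg c * mean ν t)) ^ 2 :=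
    pow_le_pow_left₀ (by positivity) k3 2
  calc b ^ 4 / 16 = (b / 2 * (b / 2)) ^ 2 := by ring
    _ ≤ _ := k4

end Pool.Agent.Lib.MP_abd417_co.WallK
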